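import Pool.Agent.ThK.Rts

/-! # The combinatorics of the torus elements -/

namespace ThK
open ThE

variable {K : Type*} [Field K] {n : ℕ}

-- BEGIN ca
private theorem ca_prod {f : Fin n → Kˣ} (s : Finset (Fin n)) (h : ∀ i, i ∉ s → f i = 1) :
    ∏ i, f i = ∏ i ∈ s, f i :=
  (Finset.prod_subset (Finset.subset_univ s) fun i _ hi => h i hi).symm

private theorem ca_adj (hn : n = 6 ∨ n = 7 ∨ n = 8) {i j : Fin n}
    (h : ((i : ℕ) = 0 ∧ (j : ℕ) = 3) ∨ ((i : ℕ) = 3 ∧ (j : ℕ) = 0) ∨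
      (1 ≤ (i : ℕ) ∧ (j : ℕ) = i + 1) ∨ (1 ≤ (j : ℕ) ∧ (i : ℕ) = j + 1)) : bf (sr hn i).1 (sr hn j).1 = -1 := by
  rw [bf_sr, if_neg, if_pos h]
  rintro rfl
  omega

private theorem ca_non (hn : n = 6 ∨ n = 7 ∨ n = 8) {i j : Fin n} (hij : (i : ℕ) ≠ j)
    (h : ¬(((i : ℕ) = 0 ∧ (j : ℕ) = 3) ∨ ((i : ℕ) = 3 ∧ (j : ℕ) = 0) ∨
      (1 ≤ (i : ℕ) ∧ (j : ℕ) = i + 1) ∨ (1 ≤ (j : ℕ) ∧ (i : ℕ) = j + 1))) : bf (sr hn i).1 (sr hn j).1 = 0 := by
  rw [bf_sr, if_neg, if_neg h]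
  rintro rfl
  exact hij rfl

/-- MODULE ca. The values `χ_j(z) = χ_(α_j)(z)` from `bf_sr` (all products have one, two, three or four factors `≠ 1`); only those needed below. -/
theorem chi_zero (hn : n = 6 ∨ n = 7 ∨ n = 8) (z : Fin n → Kˣ) (i0 i3 : Fin n) (h0 : (i0 : ℕ) = 0) (h3 : (i3 : ℕ) = 3) :
    chi hn (sr hn i0) z = z i0 * z i0 * (z i3)⁻¹ := by
  unfold chi
  rw [ca_prod {i0, i3}]
  · rw [Finset.prod_insert (by simp only [Finset.mem_singleton, Fin.ext_iff]; omega),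
      Finset.prod_singleton, bf_root, ca_adj hn (i := i3) (j := i0) (by omega),
      zpow_two, zpow_neg_one]
  · intro i hi
    simp only [Finset.mem_insert, Finset.mem_singleton, Fin.ext_iff, not_or] at hi
    rw [ca_non hn (by omega) (by omega), zpow_zero]

theorem chi_one (hn : n = 6 ∨ n = 7 ∨ n = 8) (z : Fin n → Kˣ) (i1 i2 : Fin n) (h1 : (i1 : ℕ) = 1) (h2 : (i2 : ℕ) = 2) :
    chi hn (sr hn i1) z = z i1 * z i1 * (z i2)⁻¹ := by
  unfold chi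
  rw [ca_prod {i1, i2}]
  · rw [Finset.prod_insert (by simp only [Finset.mem_singleton, Fin.ext_iff]; omega),
      Finset.prod_singleton, bf_root, ca_adj hn (i := i2) (j := i1) (by omega),
      zpow_two, zpow_neg_one]
  · intro i hi
    simp only [Finset.mem_insert, Finset.mem_singleton, Fin.ext_iff, not_or] at hi
    rw [ca_non hn (by omega) (by omega), zpow_zero]

theorem chi_two (hn : n = 6 ∨ n = 7 ∨ n = 8) (z : Fin n → Kˣ) (i1 i2 i3 : Fin n) (h1 : (i1 : ℕ) = 1) (h2 : (i2 : ℕ) = 2) (h3 : (i3 : ℕ) = 3) :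
    chi hn (sr hn i2) z = z i2 * z i2 * (z i1)⁻¹ * (z i3)⁻¹ := by
  unfold chi
  rw [ca_prod {i2, i1, i3}]
  · rw [Finset.prod_insert (by simp only [Finset.mem_insert, Finset.mem_singleton, Fin.ext_iff]; omega), Finset.prod_insert (by simp only [Finset.mem_singleton, Fin.ext_iff]; omega),
      Finset.prod_singleton, bf_root, ca_adj hn (i := i1) (j := i2) (by omega), ca_adj hn (i := i3) (j := i2) (by omega),
      zpow_two, zpow_neg_one, zpow_neg_one]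
    simp only [mul_assoc]
  · intro i hi
    simp only [Finset.mem_insert, Finset.mem_singleton, Fin.ext_iff, not_or] at hi
    rw [ca_non hn (by omega) (by omega), zpow_zero]

theorem chi_three (hn : n = 6 ∨ n = 7 ∨ n = 8) (z : Fin n → Kˣ) (i0 i2 i3 i4 : Fin n) (h0 : (i0 : ℕ) = 0) (h2 : (i2 : ℕ) = 2) (h3 : (i3 : ℕ) = 3) (h4 : (i4 : ℕ) = 4) :
    chi hn (sr hn i3) z = z i3 * z i3 * (z i0)⁻¹ * (z i2)⁻¹ * (z i4)⁻¹ := by
  unfold chi
  rw [ca_prod {i3, i0, i2, i4}]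
  · rw [Finset.prod_insert (by simp only [Finset.mem_insert, Finset.mem_singleton, Fin.ext_iff]; omega), Finset.prod_insert (by simp only [Finset.mem_insert, Finset.mem_singleton, Fin.ext_iff]; omega), Finset.prod_insert (by simp only [Finset.mem_singleton, Fin.ext_iff]; omega),
      Finset.prod_singleton, bf_root, ca_adj hn (i := i0) (j := i3) (by omega), ca_adj hn (i := i2) (j := i3) (by omega), ca_adj hn (i := i4) (j := i3) (by omega),
      zpow_two, zpow_neg_one, zpow_neg_one, zpow_neg_one]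
    simp only [mul_assoc]
  · intro i hi
    simp only [Finset.mem_insert, Finset.mem_singleton, Fin.ext_iff, not_or] at hi
    rw [ca_non hn (by omega) (by omega), zpow_zero]

theorem chi_four (hn : n = 6 ∨ n = 7 ∨ n = 8) (z : Fin n → Kˣ) (i3 i4 i5 : Fin n) (h3 : (i3 : ℕ) = 3) (h4 : (i4 : ℕ) = 4) (h5 : (i5 : ℕ) = 5) :
    chi hn (sr hn i4) z = z i4 * z i4 * (z i3)⁻¹ * (z i5)⁻¹ := by
  unfold chi
  rw [ca_prod {i4, i3, i5}]
  · rw [Finset.prod_insert (by simp only [Finset.mem_insert, Finset.mem_singleton, Fin.ext_iff]; omega), Finset.prod_insert (by simp only [Finset.mem_singleton, Fin.ext_iff]; omega),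
      Finset.prod_singleton, bf_root, ca_adj hn (i := i3) (j := i4) (by omega), ca_adj hn (i := i5) (j := i4) (by omega),
      zpow_two, zpow_neg_one, zpow_neg_one]
    simp only [mul_assoc]
  · intro i hi
    simp only [Finset.mem_insert, Finset.mem_singleton, Fin.ext_iff, not_or] at hi
    rw [ca_non hn (by omega) (by omega), zpow_zero]
-- END ca

-- BEGIN cb
private theorem cb_update (hn : n = 6 ∨ n = 7 ∨ n = 8) {i j : Fin n} (hij : bf (sr hn i).1 (sr hn j).1 = -1)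
    (z : Fin n → Kˣ) (t : Kˣ) : chi hn (sr hn j) (Function.update z i t) = chi hn (sr hn j) z * z i * t⁻¹ := by
  classical
  unfold chi
  rw [← Finset.mul_prod_erase Finset.univ _ (Finset.mem_univ i),
    ← Finset.mul_prod_erase Finset.univ (fun k => z k ^ bf (sr hn k).1 (sr hn j).1) (Finset.mem_univ i),
    hij, Function.update_self, zpow_neg_one, zpow_neg_one]
  have h : ∏ x ∈ Finset.univ.erase i, Function.update z i t x ^ bf (sr hn x).1 (sr hn j).1 =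
      ∏ x ∈ Finset.univ.erase i, z x ^ bf (sr hn x).1 (sr hn j).1 :=
    Finset.prod_congr rfl fun x hx => by rw [Function.update_of_ne (Finset.ne_of_mem_erase hx)]
  rw [h]
  calc t⁻¹ * ∏ x ∈ Finset.univ.erase i, z x ^ bf (sr hn x).1 (sr hn j).1
      = ((z i)⁻¹ * z i) * ((∏ x ∈ Finset.univ.erase i, z x ^ bf (sr hn x).1 (sr hn j).1) * t⁻¹) := by
        rw [inv_mul_cancel, one_mul, mul_comm]
    _ = (z i)⁻¹ * (∏ x ∈ Finset.univ.erase i, z x ^ bf (sr hn x).1 (sr hn j).1) * z i * t⁻¹ := by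
        simp only [mul_assoc]
        rw [mul_left_comm (z i)]

/-- MODULE cb. TRAVEL along an edge: `χ_j` of `Function.update z i t` is `χ_j z * (z i) * t⁻¹`, so it is `≠ 1` for some `t` (`K` has a unit `d ≠ 1`). -/
theorem travel_edge (hn : n = 6 ∨ n = 7 ∨ n = 8) (hK : ∃ d : K, d ≠ 0 ∧ d ≠ 1) (S : Fin n → (Fin n → Kˣ) → Prop) (h1 : ∀ i z t, S i z → S i (Function.update z i t))
    (h2 : ∀ i j z, S i z → chi hn (sr hn j) z ≠ 1 → S j z) {i j : Fin n} (hij : bf (sr hn i).1 (sr hn j).1 = -1) {z : Fin n → Kˣ} (h : S i z) : ∃ t : Kˣ, S j (Function.update z i t) := by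
  obtain ⟨d, hd0, hd1⟩ := hK
  have hd : Units.mk0 d hd0 ≠ 1 := fun h => hd1 (by rw [← Units.val_mk0 hd0, h, Units.val_one])
  by_cases hc : chi hn (sr hn j) (Function.update z i 1) = 1
  · refine ⟨Units.mk0 d hd0, h2 i j _ (h1 i z _ h) ?_⟩
    rw [cb_update hn hij]
    rw [cb_update hn hij, inv_one, mul_one] at hc
    rw [hc, one_mul]
    exact fun h => hd (inv_eq_one.1 h)
  · exact ⟨1, h2 i j _ (h1 i z _ h) hc⟩

/-- from every node one can travel to the node `3` (`0 → 3`; `1 → 2 → 3`; `n - 1 → … → 4 → 3`), and from there to every node; so to every node `j` -/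
theorem travel (hn : n = 6 ∨ n = 7 ∨ n = 8) (hK : ∃ d : K, d ≠ 0 ∧ d ≠ 1) (S : Fin n → (Fin n → Kˣ) → Prop) (h1 : ∀ i z t, S i z → S i (Function.update z i t))
    (h2 : ∀ i j z, S i z → chi hn (sr hn j) z ≠ 1 → S j z) {i : Fin n} {z : Fin n → Kˣ} (h : S i z) (j : Fin n) : ∃ z', S j z' := by
  have h6 := le6 hn
  have hedge : ∀ i j : Fin n, bf (sr hn i).1 (sr hn j).1 = -1 → (∃ z, S i z) → ∃ z, S j z := by
    rintro i j hij ⟨z, hz⟩
    obtain ⟨t, ht⟩ := travel_edge hn hK S h1 h2 hij hz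
    exact ⟨_, ht⟩
  have hadj : ∀ i j : Fin n, (((i : ℕ) = 0 ∧ (j : ℕ) = 3) ∨ ((i : ℕ) = 3 ∧ (j : ℕ) = 0) ∨
      (1 ≤ (i : ℕ) ∧ (j : ℕ) = i + 1) ∨ (1 ≤ (j : ℕ) ∧ (i : ℕ) = j + 1)) → (∃ z, S i z) → ∃ z, S j z := by
    intro i j hij
    refine hedge i j ?_
    rw [bf_sr, if_neg, if_pos hij]
    rintro rfl
    omega
  obtain ⟨i1, hi1⟩ : ∃ i1 : Fin n, (i1 : ℕ) = 1 := ⟨⟨1, by omega⟩, rfl⟩
  obtain ⟨i3, hi3⟩ : ∃ i3 : Fin n, (i3 : ℕ) = 3 := ⟨⟨3, by omega⟩, rfl⟩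
  have key : ∀ m : ℕ, ∀ k : Fin n, (k : ℕ) = m + 1 →
      ((∃ z, S k z) → ∃ z, S i1 z) ∧ ((∃ z, S i1 z) → ∃ z, S k z) := by
    intro m
    induction m with
    | zero =>
      intro k hk
      have : k = i1 := Fin.ext (by omega)
      rw [this]
      exact ⟨fun h => h, fun h => h⟩
    | succ m ih =>
      intro k hk
      obtain ⟨k', hk'⟩ : ∃ k' : Fin n, (k' : ℕ) = m + 1 := ⟨⟨m + 1, by have := k.2; omega⟩, rfl⟩
      have h3 := ih k' hk'
      exact ⟨fun h => h3.1 (hadj k k' (by omega) h), fun h => hadj k' k (by omega) (h3.2 h)⟩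
  have key2 : ∀ k : Fin n, ((∃ z, S k z) → ∃ z, S i1 z) ∧ ((∃ z, S i1 z) → ∃ z, S k z) := by
    intro k
    rcases Nat.eq_zero_or_pos (k : ℕ) with hk | hk
    · have h3 := key 2 i3 hi3
      exact ⟨fun h => h3.1 (hadj k i3 (by omega) h), fun h => hadj i3 k (by omega) (h3.2 h)⟩
    · exact key ((k : ℕ) - 1) k (by omega)
  exact (key2 j).2 ((key2 i).1 ⟨z, h⟩)
-- END cb

-- BEGIN cc
private theorem cc_first (hn : n = 6 ∨ n = 7 ∨ n = 8) (S : Fin n → (Fin n → Kˣ) → Prop) (h1 : ∀ i z t, S i z → S i (Function.update z i t))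
    (h2 : ∀ i j z, S i z → chi hn (sr hn j) z ≠ 1 → S j z) {a : Kˣ} (ha : a ≠ 1) (haa : a * a = 1) (hu : ∀ x : Kˣ, x = 1 ∨ x = a)
    (h6 : 6 ≤ n) (z : Fin n → Kˣ) (h : S ⟨3, by omega⟩ z) (hc : z ⟨1, by omega⟩ = 1 ∨ z ⟨2, by omega⟩ = a ∨ z ⟨4, by omega⟩ = a ∨ z ⟨5, by omega⟩ = 1) :
    ∃ j z', S j z' ∧ ((j : ℕ) ≠ 0 ∧ ∀ i0 : Fin n, (i0 : ℕ) = 0 → z' i0 = 1) := by
  have ai : a⁻¹ = a := inv_eq_of_mul_eq_one_right haa
  have sq : ∀ x : Kˣ, x * x = 1 := by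
    intro x
    rcases hu x with rfl | rfl
    · simp
    · exact haa
  have e3 := h1 _ z a h
  have e0 := h2 _ ⟨0, by omega⟩ _ e3 (by
    rw [chi_zero hn _ ⟨0, by omega⟩ ⟨3, by omega⟩ rfl rfl, sq, one_mul]
    simpa [Function.update_apply] using ha)
  have e1 := h1 _ _ 1 e0
  obtain ⟨z', hz'⟩ : ∃ z', z' = Function.update (Function.update z (⟨3, by omega⟩ : Fin n) a) (⟨0, by omega⟩ : Fin n) 1 := ⟨_, rfl⟩
  have v0 : z' ⟨0, by omega⟩ = 1 := by simp [hz']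
  have v1 : z' ⟨1, by omega⟩ = z ⟨1, by omega⟩ := by simp [hz']
  have v2 : z' ⟨2, by omega⟩ = z ⟨2, by omega⟩ := by simp [hz']
  have v3 : z' ⟨3, by omega⟩ = a := by simp [hz']
  have v4 : z' ⟨4, by omega⟩ = z ⟨4, by omega⟩ := by simp [hz']
  have v5 : z' ⟨5, by omega⟩ = z ⟨5, by omega⟩ := by simp [hz']
  rw [← hz'] at e1
  have fin : ∀ j : Fin n, (j : ℕ) ≠ 0 → chi hn (sr hn j) z' ≠ 1 → ∃ j z', S j z' ∧ ((j : ℕ) ≠ 0 ∧ ∀ i0 : Fin n, (i0 : ℕ) = 0 → z' i0 = 1) := by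
    intro j hj hx
    refine ⟨j, z', h2 _ j z' e1 hx, hj, ?_⟩
    intro i0 hi0
    have : i0 = ⟨0, by omega⟩ := Fin.ext hi0
    rw [this, v0]
  rcases hc with hc | hc | hc | hc
  · refine fin ⟨2, by omega⟩ (by simp) ?_
    rw [chi_two hn _ ⟨1, by omega⟩ ⟨2, by omega⟩ ⟨3, by omega⟩ rfl rfl rfl, sq, v1, v3, hc, ai]
    simpa using ha
  · refine fin ⟨1, by omega⟩ (by simp) ?_
    rw [chi_one hn _ ⟨1, by omega⟩ ⟨2, by omega⟩ rfl rfl, sq, v2, hc, ai]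
    simpa using ha
  · rcases hu (z ⟨2, by omega⟩) with h5 | h5
    · refine fin ⟨3, by omega⟩ (by simp) ?_
      rw [chi_three hn _ ⟨0, by omega⟩ ⟨2, by omega⟩ ⟨3, by omega⟩ ⟨4, by omega⟩ rfl rfl rfl rfl, sq, v0, v2, v4, hc, h5, ai]
      simpa using ha
    · refine fin ⟨1, by omega⟩ (by simp) ?_
      rw [chi_one hn _ ⟨1, by omega⟩ ⟨2, by omega⟩ rfl rfl, sq, v2, h5, ai]
      simpa using ha
  · refine fin ⟨4, by omega⟩ (by simp) ?_
    rw [chi_four hn _ ⟨3, by omega⟩ ⟨4, by omega⟩ ⟨5, by omega⟩ rfl rfl rfl, sq, v3, v5, hc, ai]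
    simpa using ha

private theorem cc_two (hn : n = 6 ∨ n = 7 ∨ n = 8) (S : Fin n → (Fin n → Kˣ) → Prop) (h1 : ∀ i z t, S i z → S i (Function.update z i t))
    (h2 : ∀ i j z, S i z → chi hn (sr hn j) z ≠ 1 → S j z) {a : Kˣ} (ha : a ≠ 1) (haa : a * a = 1) (hu : ∀ x : Kˣ, x = 1 ∨ x = a)
    (h6 : 6 ≤ n) (z : Fin n → Kˣ) (h : S ⟨3, by omega⟩ z) :
    ∃ j z', S j z' ∧ ((j : ℕ) ≠ 0 ∧ ∀ i0 : Fin n, (i0 : ℕ) = 0 → z' i0 = 1) := by
  have ai : a⁻¹ = a := inv_eq_of_mul_eq_one_right haa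
  have sq : ∀ x : Kˣ, x * x = 1 := by
    intro x
    rcases hu x with rfl | rfl
    · simp
    · exact haa
  by_cases hc : z ⟨1, by omega⟩ = 1 ∨ z ⟨2, by omega⟩ = a ∨ z ⟨4, by omega⟩ = a ∨ z ⟨5, by omega⟩ = 1
  · exact cc_first hn S h1 h2 ha haa hu h6 z h hc
  push Not at hc
  obtain ⟨c1, c2, c4, c5⟩ := hc
  have d1 : z ⟨1, by omega⟩ = a := (hu _).resolve_left c1
  have d2 : z ⟨2, by omega⟩ = 1 := (hu _).resolve_right c2
  have d4 : z ⟨4, by omega⟩ = 1 := (hu _).resolve_right c4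
  have d5 : z ⟨5, by omega⟩ = a := (hu _).resolve_left c5
  have e3 := h1 _ z 1 h
  have e2 := h2 _ ⟨2, by omega⟩ _ e3 (by
    rw [chi_two hn _ ⟨1, by omega⟩ ⟨2, by omega⟩ ⟨3, by omega⟩ rfl rfl rfl, sq, one_mul]
    simpa [Function.update_apply, d1] using ha)
  have e2' := h1 _ _ a e2
  obtain ⟨z', hz'⟩ : ∃ z', z' = Function.update (Function.update z (⟨3, by omega⟩ : Fin n) 1) (⟨2, by omega⟩ : Fin n) a := ⟨_, rfl⟩
  rw [← hz'] at e2'
  have v0 : z' ⟨0, by omega⟩ = z ⟨0, by omega⟩ := by simp [hz']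
  have v2 : z' ⟨2, by omega⟩ = a := by simp [hz']
  have v3 : z' ⟨3, by omega⟩ = 1 := by simp [hz']
  have v4 : z' ⟨4, by omega⟩ = 1 := by simp [hz', d4]
  have v5 : z' ⟨5, by omega⟩ = a := by simp [hz', d5]
  rcases hu (z ⟨0, by omega⟩) with h0 | h0
  · have f3 := h2 _ ⟨3, by omega⟩ _ e2' (by
      rw [chi_three hn _ ⟨0, by omega⟩ ⟨2, by omega⟩ ⟨3, by omega⟩ ⟨4, by omega⟩ rfl rfl rfl rfl, sq, v0, v2, v4, h0, ai]
      simpa using ha)
    exact cc_first hn S h1 h2 ha haa hu h6 z' f3 (Or.inr (Or.inl v2))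
  · have f4 := h2 _ ⟨4, by omega⟩ _ e2' (by
      rw [chi_four hn _ ⟨3, by omega⟩ ⟨4, by omega⟩ ⟨5, by omega⟩ rfl rfl rfl, sq, v3, v5, ai]
      simpa using ha)
    have f5 := h1 _ _ a f4
    have w0 : Function.update z' (⟨4, by omega⟩ : Fin n) a ⟨0, by omega⟩ = a := by simp [v0, h0]
    have w2 : Function.update z' (⟨4, by omega⟩ : Fin n) a ⟨2, by omega⟩ = a := by simp [v2]
    have w4 : Function.update z' (⟨4, by omega⟩ : Fin n) a ⟨4, by omega⟩ = a := by simp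
    have f3 := h2 _ ⟨3, by omega⟩ _ f5 (by
      rw [chi_three hn _ ⟨0, by omega⟩ ⟨2, by omega⟩ ⟨3, by omega⟩ ⟨4, by omega⟩ rfl rfl rfl rfl, sq, w0, w2, w4, ai, mul_assoc, mul_assoc, haa]
      simpa using ha)
    exact cc_first hn S h1 h2 ha haa hu h6 _ f3 (Or.inr (Or.inl w2))

private theorem cc_three (hn : n = 6 ∨ n = 7 ∨ n = 8) (S : Fin n → (Fin n → Kˣ) → Prop) (h1 : ∀ i z t, S i z → S i (Function.update z i t))
    (h2 : ∀ i j z, S i z → chi hn (sr hn j) z ≠ 1 → S j z) (hu : ∀ x y : Kˣ, ∃ t : Kˣ, t ≠ x ∧ t ≠ y)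
    (h6 : 6 ≤ n) (z : Fin n → Kˣ) (h : S ⟨2, by omega⟩ z) :
    ∃ j z', S j z' ∧ ((j : ℕ) ≠ 0 ∧ ∀ i0 : Fin n, (i0 : ℕ) = 0 → z' i0 = 1) := by
  obtain ⟨t, t1, t2⟩ := hu (z ⟨1, by omega⟩ * z ⟨1, by omega⟩) (z ⟨3, by omega⟩ * z ⟨3, by omega⟩ * (z ⟨0, by omega⟩)⁻¹ * (z ⟨4, by omega⟩)⁻¹)
  have e2 := h1 _ z t h
  have w0 : Function.update z (⟨2, by omega⟩ : Fin n) t ⟨0, by omega⟩ = z ⟨0, by omega⟩ := by simp
  have w2 : Function.update z (⟨2, by omega⟩ : Fin n) t ⟨2, by omega⟩ = t := by simp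
  have w3 : Function.update z (⟨2, by omega⟩ : Fin n) t ⟨3, by omega⟩ = z ⟨3, by omega⟩ := by simp
  have w4 : Function.update z (⟨2, by omega⟩ : Fin n) t ⟨4, by omega⟩ = z ⟨4, by omega⟩ := by simp
  have e3 := h2 _ ⟨3, by omega⟩ _ e2 (by
    rw [chi_three hn _ ⟨0, by omega⟩ ⟨2, by omega⟩ ⟨3, by omega⟩ ⟨4, by omega⟩ rfl rfl rfl rfl, w0, w2, w3, w4]
    intro e
    apply t2
    rw [mul_right_comm, mul_inv_eq_one] at e
    exact e.symm)
  obtain ⟨s, s1, -⟩ := hu (z ⟨0, by omega⟩ * z ⟨0, by omega⟩) 1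
  have f3 := h1 _ _ s e3
  have f0 := h2 _ ⟨0, by omega⟩ _ f3 (by
    rw [chi_zero hn _ ⟨0, by omega⟩ ⟨3, by omega⟩ rfl rfl]
    intro e
    apply s1
    rw [mul_inv_eq_one] at e
    simpa [Function.update_apply] using e.symm)
  have g0 := h1 _ _ 1 f0
  refine ⟨⟨1, by omega⟩, _, h2 _ ⟨1, by omega⟩ _ g0 ?_, by simp, ?_⟩
  · rw [chi_one hn _ ⟨1, by omega⟩ ⟨2, by omega⟩ rfl rfl]
    intro e
    apply t1
    rw [mul_inv_eq_one] at e
    simpa [Function.update_apply] using e.symm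
  · intro i0 hi0
    have : i0 = ⟨0, by omega⟩ := Fin.ext hi0
    rw [this]
    simp

/-- MODULE cc. THE TARGET for the removed node `0`. At least three units (`d` with `d ^ 2 ≠ 1` or so): travel to the node `2`, `z 2 := t` with `t ≠ (z 1) ^ 2` and `χ_3 ≠ 1` (two forbidden values), so `3` is reached; `z 3 := t'` with `χ_0 ≠ 1`, so `0` is reached; `z 0 := 1`; `χ_1 = (z 1) ^ 2 / z 2 ≠ 1`,
so `1` is reached.  Only two units `1, a` (`a = -1`, all squares are `1`): travel to `3`. If one of `z 1 = 1`, `z 2 = a`, `z 4 = a`, `z 5 = 1` holds: `z 3 := a`, `χ_0 = a`, `0` is reached, `z 0 := 1`, and `χ_2 = z 1 a`, `χ_1 = z 2`, `χ_3 = z 2 z 4`, `χ_4 = a z 5` are not all `1`.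
Otherwise (`z 1 = a, z 2 = 1, z 4 = 1, z 5 = a`) `z 3 := 1`; `χ_2 = a`, so `2` is reached, `z 2 := a`; if `z 0 = 1` then `χ_3 = a`, back at `3` with `z 2 = a`, the first case; if `z 0 = a` then `χ_4 = z 3 z 5 = a`, so `4` is reached, `z 4 := a`, `χ_3 = a`, back at `3` with `z 2 = a`. -/
theorem comb_zero (hn : n = 6 ∨ n = 7 ∨ n = 8) (hK : ∃ d : K, d ≠ 0 ∧ d ≠ 1) (S : Fin n → (Fin n → Kˣ) → Prop) (h1 : ∀ i z t, S i z → S i (Function.update z i t))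
    (h2 : ∀ i j z, S i z → chi hn (sr hn j) z ≠ 1 → S j z) (i : Fin n) (z : Fin n → Kˣ) (h : S i z) : ∃ j z', S j z' ∧ ((j : ℕ) ≠ 0 ∧ ∀ i0 : Fin n, (i0 : ℕ) = 0 → z' i0 = 1) := by
  have h6 := le6 hn
  by_cases hu : ∀ x y : Kˣ, ∃ t : Kˣ, t ≠ x ∧ t ≠ y
  · obtain ⟨z', hz'⟩ := travel hn hK S h1 h2 h ⟨2, by omega⟩
    exact cc_three hn S h1 h2 hu h6 z' hz'
  push Not at hu
  obtain ⟨x, y, hxy⟩ := hu
  obtain ⟨d, hd0, hd1⟩ := hK
  obtain ⟨z', hz'⟩ := travel hn ⟨d, hd0, hd1⟩ S h1 h2 h ⟨3, by omega⟩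
  have ha : Units.mk0 d hd0 ≠ 1 := by
    intro e
    apply hd1
    simpa using congrArg Units.val e
  have hu : ∀ w : Kˣ, w = 1 ∨ w = Units.mk0 d hd0 := by
    intro w
    by_cases hx1 : (1 : Kˣ) = x
    · by_cases hw : w = x
      · left; rw [hw, hx1]
      · right
        have h3 : Units.mk0 d hd0 = y := hxy _ (by rw [← hx1]; exact ha)
        rw [h3]
        exact hxy w hw
    · have h4 : (1 : Kˣ) = y := hxy _ hx1
      by_cases hw : w = x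
      · right
        by_contra h5
        have h6 : Units.mk0 d hd0 ≠ x := by
          intro h7
          exact h5 (by rw [h7, hw])
        have h8 := hxy _ h6
        exact ha (by rw [h8, h4])
      · left
        rw [h4]
        exact hxy w hw
  have haa : Units.mk0 d hd0 * Units.mk0 d hd0 = 1 := by
    rcases hu (Units.mk0 d hd0 * Units.mk0 d hd0) with e | e
    · exact e
    · exact absurd (mul_eq_left.mp e) ha
  exact cc_two hn S h1 h2 ha haa hu h6 z' hz'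
-- END cc

end ThK
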