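import Pool.Agent.ThK.Ins
import Pool.Agent.ThK.Comb

/-! # The Levi decomposition, and the Gauss theorem for the Levi subgroup of type `A_(n-1)` -/

namespace ThK
open ThE ThG

variable {K : Type*} [Field K] {n : ℕ} {G : Type*} [Group G]

-- BEGIN xa
/-- MODULE xa. `l` an additive function with `l r ≥ 0` for the roots with `p r`. The set of the products `u₁ * u₂` is stable under left multiplication by the generators of `Sg x p`: for `l r = 0` trivial, for `l r ≥ 1`: `x r a * u₁ * u₂ = u₁ * (u₁⁻¹ * x r a * u₁ * u₂)` (`Uk.conj_Lv`, `Sg.mono`). -/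
theorem Sg_split {x : Root n → K → G} (h : Stb K n x) {l : Vec n → ℤ} (hl : ∀ v w, l (v + w) = l v + l w) {p : Root n → Prop} (hp : ∀ r, p r → 0 ≤ l r.1) {u : G} (hu : u ∈ Sg x p) :
    ∃ u₁ ∈ Sg x (fun r => p r ∧ l r.1 = 0), ∃ u₂ ∈ Uk x l 1, u = u₁ * u₂ := by
  have step : ∀ r a, p r → ∀ y : G, (∃ u₁ ∈ Sg x (fun r => p r ∧ l r.1 = 0), ∃ u₂ ∈ Uk x l 1, y = u₁ * u₂) →
      ∃ u₁ ∈ Sg x (fun r => p r ∧ l r.1 = 0), ∃ u₂ ∈ Uk x l 1, x r a * y = u₁ * u₂ := by
    rintro r a hr y ⟨u₁, hu₁, u₂, hu₂, rfl⟩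
    rcases (hp r hr).eq_or_lt with h0 | h0
    · exact ⟨x r a * u₁, Subgroup.mul_mem _ (Sg.mem ⟨hr, h0.symm⟩ a) hu₁, u₂, hu₂, by rw [mul_assoc]⟩
    · have hx : x r a ∈ Uk x l 1 := by
        refine Sg.mem (p := fun r : Root n => (((1 : ℕ) : ℤ) ≤ l r.1)) ?_ a
        push_cast
        omega
      have hb : u₁⁻¹ ∈ Lv x l := Subgroup.inv_mem _ (Sg.mono x (fun r hr => hr.2) hu₁)
      have hc := Uk.conj_Lv h hl (le_refl 1) hb hx
      refine ⟨u₁, hu₁, u₁⁻¹ * x r a * u₁⁻¹⁻¹ * u₂, Subgroup.mul_mem _ hc hu₂, ?_⟩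
      group
  unfold Sg at hu
  induction hu using Subgroup.closure_induction_left with
  | one => exact ⟨1, Subgroup.one_mem _, 1, Subgroup.one_mem _, (mul_one 1).symm⟩
  | mul_left g hg y _ ih =>
    obtain ⟨r, a, hr, rfl⟩ := hg
    exact step r a hr y ih
  | inv_mul_cancel g hg y _ ih =>
    obtain ⟨r, a, hr, rfl⟩ := hg
    rw [Stb.inv h]
    exact step r (-a) hr y ih

/-- `u₁ * u₂ = (u₁ * u₂ * u₁⁻¹) * u₁` -/
theorem Sg_split' {x : Root n → K → G} (h : Stb K n x) {l : Vec n → ℤ} (hl : ∀ v w, l (v + w) = l v + l w) {p : Root n → Prop} (hp : ∀ r, p r → 0 ≤ l r.1) {u : G} (hu : u ∈ Sg x p) :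
    ∃ u₂ ∈ Uk x l 1, ∃ u₁ ∈ Sg x (fun r => p r ∧ l r.1 = 0), u = u₂ * u₁ := by
  obtain ⟨u₁, hu₁, u₂, hu₂, rfl⟩ := Sg_split h hl hp hu
  have hb : u₁ ∈ Lv x l := Sg.mono x (fun r hr => hr.2) hu₁
  exact ⟨u₁ * u₂ * u₁⁻¹, Uk.conj_Lv h hl (le_refl 1) hb hu₂, u₁, hu₁, by group⟩
-- END xa

-- BEGIN xb
/-- MODULE xb. `Sg_split` and `Sg_split'` in `NE`. -/
theorem NE_levi (hn : n = 6 ∨ n = 7 ∨ n = 8) {x : Root n → K → G} (h : Stb K n x) {l : Vec n → ℤ} (hl : ∀ v w, l (v + w) = l v + l w) (hp : ∀ r : Root n, 0 < ht r.1 → 0 ≤ l r.1) {j : Fin n} {g : G}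
    {z : Fin n → Kˣ} (hg : NE hn x j g z) : ∃ v₂ ∈ Uk (op x) l 1, ∃ v₁ ∈ Sg (op x) (fun r => (0 < ht r.1 ∧ r ≠ sr hn j) ∧ l r.1 = 0), ∃ u₁ ∈ Sg x (fun r => (0 < ht r.1 ∧ r ≠ sr hn j) ∧ l r.1 = 0),
      ∃ u₂ ∈ Uk x l 1, ∃ c b : K, g = v₂ * (v₁ * x (-sr hn j) c * hz hn x z * x (sr hn j) b * u₁) * u₂ ∧ ¬ (c = 0 ∧ b = 0 ∧ chi hn (sr hn j) z = 1) := by
  obtain ⟨v, hv, u, hu, c, b, he, hcb⟩ := hg
  obtain ⟨v₂, hv₂, v₁, hv₁, rfl⟩ := Sg_split' (Stb.op h) hl (p := fun r => 0 < ht r.1 ∧ r ≠ sr hn j) (fun r hr => hp r hr.1) hv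
  obtain ⟨u₁, hu₁, u₂, hu₂, rfl⟩ := Sg_split h hl (p := fun r => 0 < ht r.1 ∧ r ≠ sr hn j) (fun r hr => hp r hr.1) hu
  refine ⟨v₂, hv₂, v₁, hv₁, u₁, hu₁, u₂, hu₂, c, b, ?_, hcb⟩
  rw [he]
  simp only [mul_assoc]
-- END xb

/-- the subgroup of `SL_n(K)` generated by the elementary matrices `el K a b t` with `s a b` -/
def LT (K : Type*) [Field K] {n : ℕ} (s : Fin n → Fin n → Prop) : Subgroup (Matrix.SpecialLinearGroup (Fin n) K) :=
  Subgroup.closure {g | ∃ a b t, a ≠ b ∧ s a b ∧ g = el K a b t}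

-- BEGIN xc
private theorem xc_root {n : ℕ} {r : Root n} (hl : lev r.1 = 0) : ∃ (a b : Fin n) (hab : a ≠ b), r = er hab := by
  obtain ⟨a, b, hab, h⟩ := cls_zero r hl
  refine ⟨a, b, hab, Subtype.ext ?_⟩
  refine Prod.ext hl ?_
  funext k
  exact h k

private theorem xc_ht {n : ℕ} {a b : Fin n} (hab : a ≠ b) (h : 0 < ht (er hab).1) : b < a := by
  have h1 : ht (er hab).1 = (a : ℤ) - (b : ℤ) := ht_eroot hab
  rw [h1] at h
  rw [Fin.lt_def]
  omega

private theorem xc_neg {n : ℕ} {a b : Fin n} (hab : a ≠ b) : -er hab = er hab.symm := by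
  apply Subtype.ext
  refine Prod.ext ?_ ?_
  · show -(0 : ℤ) = 0
    simp
  · funext k
    show -(((if k = a then 1 else 0) - (if k = b then 1 else 0) : ℤ)) = (if k = b then 1 else 0) - (if k = a then 1 else 0)
    ring

/-- MODULE xc. `r` with `d = 0` is `e_a - e_b = er _` (`cls_zero`), `0 < ht r = a - b` (`ht_eroot`), and `f (el K a b t) = yy x a b t = x r t` (`b < a`); `(a, b) ≠ (j, j - 1)` by `sr_succ`. -/
theorem lev_low (hn : n = 6 ∨ n = 7 ∨ n = 8) {x : Root n → K → G} {f : Matrix.SpecialLinearGroup (Fin n) K →* G} (hf : ∀ i j, i ≠ j → ∀ a, f (el K i j a) = yy x i j a)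
    {i j : Fin n} (hij : (i : ℕ) + 1 = j) : Sg x (fun r => (0 < ht r.1 ∧ r ≠ sr hn j) ∧ lev r.1 = 0) ≤ (LT K fun a b => b < a ∧ ¬ (a = j ∧ b = i)).map f := by
  unfold Sg
  rw [Subgroup.closure_le]
  rintro g ⟨r, t, ⟨⟨h1, h2⟩, h3⟩, rfl⟩
  obtain ⟨a, b, hab, rfl⟩ := xc_root h3
  have hba : b < a := xc_ht hab h1
  refine ⟨el K a b t, Subgroup.subset_closure ⟨a, b, t, hab, ⟨hba, ?_⟩, rfl⟩, ?_⟩
  · rintro ⟨rfl, rfl⟩
    exact h2 (sr_succ hn hij hab).symm
  · rw [hf a b hab]
    unfold yy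
    rw [dif_pos hab, if_neg (by
      intro h
      exact absurd h (not_lt.mpr hba.le))]

/-- the same for `op x`: `op x r t = x (-r) t`, `-r = e_b - e_a`, `f (el K b a (-t)) = yy x b a (-t) = x (-r) t` (`b < a`) -/
theorem lev_upp (hn : n = 6 ∨ n = 7 ∨ n = 8) {x : Root n → K → G} {f : Matrix.SpecialLinearGroup (Fin n) K →* G} (hf : ∀ i j, i ≠ j → ∀ a, f (el K i j a) = yy x i j a)
    {i j : Fin n} (hij : (i : ℕ) + 1 = j) : Sg (op x) (fun r => (0 < ht r.1 ∧ r ≠ sr hn j) ∧ lev r.1 = 0) ≤ (LT K fun a b => a < b ∧ ¬ (a = i ∧ b = j)).map f := by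
  unfold Sg
  rw [Subgroup.closure_le]
  rintro g ⟨r, t, ⟨⟨h1, h2⟩, h3⟩, rfl⟩
  obtain ⟨a, b, hab, rfl⟩ := xc_root h3
  have hba : b < a := xc_ht hab h1
  refine ⟨el K b a (-t), Subgroup.subset_closure ⟨b, a, -t, hab.symm, ⟨hba, ?_⟩, rfl⟩, ?_⟩
  · rintro ⟨rfl, rfl⟩
    exact h2 (sr_succ hn hij hab).symm
  · rw [hf b a hab.symm]
    unfold yy op
    rw [dif_pos hab.symm, if_pos hba, neg_neg, xc_neg hab]
-- END xc

-- BEGIN xd
private theorem xd_nA {i j : Fin n} (hij : i ≠ j) {a : K} (ha : a ≠ 0) (M : Matrix (Fin n) (Fin n) K) (p q : Fin n) :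
    ((nA (el K : Fin n → Fin n → K → Matrix.SpecialLinearGroup (Fin n) K) i j a).1 * M) p q = if p = i then a * M j q else if p = j then -a⁻¹ * M i q else M p q := by
  have e1 : ∀ (i j : Fin n) (_ : i ≠ j) (a : K), (el K i j a).1 = Matrix.transvection i j a := by
    intro i j h a
    exact congrArg Subtype.val (dif_pos h : el K i j a = ⟨Matrix.transvection i j a, Matrix.det_transvection_of_ne i j h a⟩)
  unfold nA
  rw [Matrix.SpecialLinearGroup.coe_mul, Matrix.SpecialLinearGroup.coe_mul, e1 i j hij, e1 j i hij.symm, Matrix.mul_assoc, Matrix.mul_assoc]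
  by_cases hp : p = i
  · subst hp
    rw [if_pos rfl, Matrix.transvection_mul_apply_same, Matrix.transvection_mul_apply_of_ne _ _ _ _ hij, Matrix.transvection_mul_apply_same,
      Matrix.transvection_mul_apply_same, Matrix.transvection_mul_apply_of_ne _ _ _ _ hij.symm, Matrix.transvection_mul_apply_same]
    field_simp
    ring
  · rw [if_neg hp]
    by_cases hq : p = j
    · subst hq
      rw [if_pos rfl, Matrix.transvection_mul_apply_of_ne _ _ _ _ hij.symm, Matrix.transvection_mul_apply_same, Matrix.transvection_mul_apply_same,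
        Matrix.transvection_mul_apply_of_ne _ _ _ _ hij.symm]
      field_simp
      ring
    · rw [if_neg hq, Matrix.transvection_mul_apply_of_ne _ _ _ _ hp, Matrix.transvection_mul_apply_of_ne _ _ _ _ hq,
        Matrix.transvection_mul_apply_of_ne _ _ _ _ hp]

/-- MODULE xd. `hA (el K) i j t` is diagonal (compute `nA (el K) i j t`; only the rows and columns `i`, `j` are different from those of the identity; look also at row `sq` of SLn.lean). -/
theorem hA_el {i j : Fin n} (hij : i ≠ j) (t : Kˣ) :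
    (hA (el K : Fin n → Fin n → K → Matrix.SpecialLinearGroup (Fin n) K) i j (t : K)).1 = Matrix.diagonal fun k => if k = i then (t : K) else if k = j then ((t⁻¹ : Kˣ) : K) else 1 := by
  ext p q
  unfold hA
  have h1 : (nA (el K : Fin n → Fin n → K → Matrix.SpecialLinearGroup (Fin n) K) i j (t : K) * nA (el K) i j (-1)).1 =
      (nA (el K : Fin n → Fin n → K → Matrix.SpecialLinearGroup (Fin n) K) i j (t : K)).1 *
        ((nA (el K : Fin n → Fin n → K → Matrix.SpecialLinearGroup (Fin n) K) i j (-1)).1 * 1) := by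
    rw [Matrix.SpecialLinearGroup.coe_mul, Matrix.mul_one]
  rw [h1, xd_nA hij t.ne_zero, xd_nA hij (neg_ne_zero.2 one_ne_zero), xd_nA hij (neg_ne_zero.2 one_ne_zero), xd_nA hij (neg_ne_zero.2 one_ne_zero),
    Matrix.diagonal_apply]
  by_cases hp : p = i
  · subst hp
    simp [hij.symm, Matrix.one_apply]
  · by_cases hq : p = j
    · subst hq
      simp [hij.symm, Matrix.one_apply]
    · simp [hp, hq, Matrix.one_apply]
-- END xd

/-- the entries of the diagonal matrix of `h(z)`, `z 0 = 1`: `δ_k = z_k / z_(k+1)` -/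
def dlz (z : Fin n → Kˣ) (k : Fin n) : Kˣ := z k * (if h : (k : ℕ) + 1 < n then (z ⟨(k : ℕ) + 1, h⟩)⁻¹ else 1)

-- BEGIN xe
private theorem xe_val {m : ℕ} (E : Fin m → Matrix.SpecialLinearGroup (Fin n) K) (d : Fin m → Fin n → Kˣ)
    (h : ∀ i, (E i).1 = Matrix.diagonal fun k => ((d i k : Kˣ) : K)) :
    ((List.ofFn E).prod).1 = Matrix.diagonal fun k => ((∏ i, d i k : Kˣ) : K) := by
  induction m with
  | zero =>
    show (1 : Matrix (Fin n) (Fin n) K) = _
    simp
  | succ m ih =>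
    rw [List.ofFn_succ, List.prod_cons]
    show (E 0).1 * (List.ofFn fun i => E i.succ).prod.1 = _
    rw [ih (fun i => E i.succ) (fun i => d i.succ) fun i => h _, h 0, Matrix.diagonal_mul_diagonal]
    simp only [Fin.prod_univ_succ, Units.val_mul]

private theorem xe_prod {z : Fin n → Kˣ} (hz0 : ∀ i0 : Fin n, (i0 : ℕ) = 0 → z i0 = 1) (k : Fin n) :
    ∏ i : Fin n, (if (i : ℕ) = 0 then (1 : Kˣ) else if k = i then z i else if (k : ℕ) + 1 = i then (z i)⁻¹ else 1) = dlz z k := by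
  have e : ∀ i : Fin n, (if (i : ℕ) = 0 then (1 : Kˣ) else if k = i then z i else if (k : ℕ) + 1 = i then (z i)⁻¹ else 1) =
      (if k = i then z i else 1) * (if (k : ℕ) + 1 = i then (z i)⁻¹ else 1) := by
    intro i
    by_cases h0 : (i : ℕ) = 0
    · rw [if_pos h0, if_neg (show ¬ (k : ℕ) + 1 = i by omega), mul_one]
      split_ifs
      · exact (hz0 i h0).symm
      · rfl
    · rw [if_neg h0]
      by_cases h1 : k = i
      · rw [if_pos h1, if_pos h1, if_neg (show ¬ (k : ℕ) + 1 = i by subst h1; omega), mul_one]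
      · rw [if_neg h1, if_neg h1, one_mul]
  rw [Finset.prod_congr rfl fun i _ => e i, Finset.prod_mul_distrib, Finset.prod_ite_eq, if_pos (Finset.mem_univ _), dlz]
  congr 1
  split_ifs with h
  · rw [Finset.prod_eq_single (⟨(k : ℕ) + 1, h⟩ : Fin n)]
    · rw [if_pos rfl]
    · intro b _ hb
      rw [if_neg]
      intro e2
      exact hb (Fin.ext e2.symm)
    · intro h2
      exact absurd (Finset.mem_univ _) h2
  · refine Finset.prod_eq_one fun i _ => ?_
    rw [if_neg]
    have := i.2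
    omega

private theorem xe_hA {x : Root n → K → G} {f : Matrix.SpecialLinearGroup (Fin n) K →* G} (hf : ∀ i j, i ≠ j → ∀ a, f (el K i j a) = yy x i j a) {i j : Fin n} (hij : i ≠ j) (a : K) :
    f (hA (el K : Fin n → Fin n → K → Matrix.SpecialLinearGroup (Fin n) K) i j a) = hA (yy x) i j a := by
  simp only [hA, nA, map_mul, hf i j hij, hf j i hij.symm]

/-- MODULE xe. `hz hn x z = ∏ hh x (sr hn i) (z i)`, the factor `i = 0` is `1` (`hh_one`), the factor `i ≥ 1` is `hh x (er _) (z i) = hA (yy x) i (i-1) (z i) = f (hA (el K) i (i-1) (z i))` (`sr_succ`, `hA_yy`; `f` of `nA`, `hA`).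
So `D = ∏ hA (el K) i (i-1) (z i)` over `List.ofFn` (`1` for `i = 0`); its matrix is the product of the diagonal matrices of `hA_el`: the entry `k` is `z k` (from `i = k`, and `z 0 = 1`) times `(z (k+1))⁻¹` (from `i = k + 1`). -/
theorem lev_diag (hn : n = 6 ∨ n = 7 ∨ n = 8) {x : Root n → K → G} (h : Stb K n x) {f : Matrix.SpecialLinearGroup (Fin n) K →* G} (hf : ∀ i j, i ≠ j → ∀ a, f (el K i j a) = yy x i j a)
    {z : Fin n → Kˣ} (hz0 : ∀ i0 : Fin n, (i0 : ℕ) = 0 → z i0 = 1) : ∃ D : Matrix.SpecialLinearGroup (Fin n) K, D.1 = Matrix.diagonal (fun k => ((dlz z k : Kˣ) : K)) ∧ f D = hz hn x z := by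
  have hlt : ∀ i : Fin n, ¬ (i : ℕ) = 0 → (i : ℕ) - 1 < n := fun i _ => lt_of_le_of_lt (Nat.sub_le _ _) i.2
  set E : Fin n → Matrix.SpecialLinearGroup (Fin n) K := fun i =>
    if h0 : (i : ℕ) = 0 then 1 else hA (el K : Fin n → Fin n → K → Matrix.SpecialLinearGroup (Fin n) K) i ⟨(i : ℕ) - 1, hlt i h0⟩ (z i : K) with hE
  refine ⟨(List.ofFn E).prod, ?_, ?_⟩
  · rw [xe_val E fun i k => if (i : ℕ) = 0 then (1 : Kˣ) else if k = i then z i else if (k : ℕ) + 1 = i then (z i)⁻¹ else 1]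
    · congr 1
      funext k
      rw [xe_prod hz0 k]
    · intro i
      by_cases h0 : (i : ℕ) = 0
      · simp only [hE, dif_pos h0, if_pos h0]
        show (1 : Matrix (Fin n) (Fin n) K) = _
        simp
      · have hij : i ≠ ⟨(i : ℕ) - 1, hlt i h0⟩ := by
          intro e
          have := congrArg Fin.val e
          simp only at this
          omega
        simp only [hE, dif_neg h0, if_neg h0]
        rw [hA_el hij (z i)]
        congr 1
        funext k
        by_cases h1 : k = i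
        · rw [if_pos h1, if_pos h1]
        · rw [if_neg h1, if_neg h1]
          by_cases h2 : (k : ℕ) + 1 = i
          · rw [if_pos h2, if_pos]
            exact Fin.ext (by simp only; omega)
          · rw [if_neg h2, if_neg, Units.val_one]
            intro e
            have := congrArg Fin.val e
            simp only at this
            omega
  · rw [map_list_prod, List.map_ofFn, hz]
    congr 2
    funext i
    show f (E i) = _
    by_cases h0 : (i : ℕ) = 0
    · simp only [hE, dif_pos h0]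
      rw [map_one, hz0 i h0, Units.val_one, hh_one h]
    · have hij : i ≠ ⟨(i : ℕ) - 1, hlt i h0⟩ := by
        intro e
        have := congrArg Fin.val e
        simp only at this
        omega
      simp only [hE, dif_neg h0]
      rw [xe_hA hf hij, hA_yy hn h hij (Units.ne_zero _), ← sr_succ hn (by simp only; omega) hij]
-- END xe

-- BEGIN xf
/-- The product over `k` of the powers `z_k ^ (α_k, α_j)`, `z_0 = 1`, `j = i + 1`, in the three places `j`, `i`, `j + 1`. -/
private theorem xf_chi (hn : n = 6 ∨ n = 7 ∨ n = 8) {z : Fin n → Kˣ} (hz0 : ∀ i0 : Fin n, (i0 : ℕ) = 0 → z i0 = 1) {i j : Fin n} (hij : (i : ℕ) + 1 = j) :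
    chi hn (sr hn j) z = z j * z j * (z i)⁻¹ * (if h : (j : ℕ) + 1 < n then (z ⟨(j : ℕ) + 1, h⟩)⁻¹ else 1) := by
  have e1 : ∀ k : Fin n, z k ^ bf (sr hn k).1 (sr hn j).1 =
      (if k = j then z j * z j else 1) * (if k = i then (z i)⁻¹ else 1) * (if (k : ℕ) = j + 1 then (z k)⁻¹ else 1) := by
    intro k
    by_cases hk0 : (k : ℕ) = 0
    · have hkj : k ≠ j := by
        intro e
        have := congrArg Fin.val e
        omega
      have hk1 : ¬ ((k : ℕ) = j + 1) := by omega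
      rw [hz0 k hk0, one_zpow, if_neg hkj, if_neg hk1]
      by_cases hki : k = i
      · rw [if_pos hki, ← hki, hz0 k hk0]
        simp
      · rw [if_neg hki]
        simp
    · rw [bf_sr]
      by_cases hkj : k = j
      · have hki : k ≠ i := by
          intro e
          have := congrArg Fin.val e
          have := congrArg Fin.val hkj
          omega
        have hk1 : ¬ ((k : ℕ) = j + 1) := by
          have := congrArg Fin.val hkj
          omega
        rw [if_pos hkj, if_pos hkj, if_neg hki, if_neg hk1, mul_one, mul_one, hkj, zpow_two]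
      · by_cases hki : k = i
        · have hk1 : ¬ ((k : ℕ) = j + 1) := by
            have := congrArg Fin.val hki
            omega
          have hc : ((k : ℕ) = 0 ∧ (j : ℕ) = 3) ∨ ((k : ℕ) = 3 ∧ (j : ℕ) = 0) ∨
              (1 ≤ (k : ℕ) ∧ (j : ℕ) = k + 1) ∨ (1 ≤ (j : ℕ) ∧ (k : ℕ) = j + 1) := by
            have := congrArg Fin.val hki
            omega
          rw [if_neg hkj, if_pos hc, if_neg hkj, if_pos hki, if_neg hk1, one_mul, mul_one, hki, zpow_neg_one]
        · by_cases hk1 : (k : ℕ) = j + 1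
          · have hc : ((k : ℕ) = 0 ∧ (j : ℕ) = 3) ∨ ((k : ℕ) = 3 ∧ (j : ℕ) = 0) ∨
                (1 ≤ (k : ℕ) ∧ (j : ℕ) = k + 1) ∨ (1 ≤ (j : ℕ) ∧ (k : ℕ) = j + 1) := by
              omega
            rw [if_neg hkj, if_pos hc, if_neg hkj, if_neg hki, if_pos hk1, one_mul, one_mul, zpow_neg_one]
          · have hki' : (k : ℕ) ≠ i := fun e => hki (Fin.ext e)
            have hc : ¬ (((k : ℕ) = 0 ∧ (j : ℕ) = 3) ∨ ((k : ℕ) = 3 ∧ (j : ℕ) = 0) ∨
                (1 ≤ (k : ℕ) ∧ (j : ℕ) = k + 1) ∨ (1 ≤ (j : ℕ) ∧ (k : ℕ) = j + 1)) := by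
              omega
            rw [if_neg hkj, if_neg hc, if_neg hkj, if_neg hki, if_neg hk1, zpow_zero, one_mul, mul_one]
  unfold chi
  rw [Finset.prod_congr rfl fun k _ => e1 k, Finset.prod_mul_distrib, Finset.prod_mul_distrib,
    Finset.prod_ite_eq' Finset.univ j (fun _ => z j * z j), Finset.prod_ite_eq' Finset.univ i (fun _ => (z i)⁻¹),
    if_pos (Finset.mem_univ j), if_pos (Finset.mem_univ i)]
  congr 1
  split_ifs with hj
  · rw [Finset.prod_eq_single (⟨(j : ℕ) + 1, hj⟩ : Fin n)]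
    · rw [if_pos rfl]
    · intro b _ hb
      exact if_neg fun e => hb (Fin.ext e)
    · intro hb
      exact absurd (Finset.mem_univ _) hb
  · refine Finset.prod_eq_one fun k _ => if_neg fun e => hj ?_
    have hk := k.isLt
    omega

/-- MODULE xf. `z 0 = 1`, `j = i + 1`: `χ_(α_j)(z) = (z_j)^2 / (z_(j-1) z_(j+1)) = δ_j / δ_(j-1)`. For `k ≥ 1` the exponent of `z_k` is `bf (e_k - e_(k-1)) (e_j - e_(j-1)) = 2 [k = j] - [k = j - 1] - [k = j + 1]` (or use `bf_sr`). -/
theorem chi_dlz (hn : n = 6 ∨ n = 7 ∨ n = 8) {z : Fin n → Kˣ} (hz0 : ∀ i0 : Fin n, (i0 : ℕ) = 0 → z i0 = 1) {i j : Fin n} (hij : (i : ℕ) + 1 = j) :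
    chi hn (sr hn j) z * dlz z i = dlz z j := by
  have hi : (i : ℕ) + 1 < n := by
    rw [hij]
    exact j.isLt
  have hj : (⟨(i : ℕ) + 1, hi⟩ : Fin n) = j := Fin.ext hij
  rw [xf_chi hn hz0 hij]
  unfold dlz
  rw [dif_pos hi, hj]
  generalize (if h : (j : ℕ) + 1 < n then (z ⟨(j : ℕ) + 1, h⟩)⁻¹ else 1) = w
  rw [mul_assoc (z j) (z j) (z i)⁻¹, mul_assoc (z j) _ w, mul_assoc (z j) (z j * _ * w) _]
  congr 1
  rw [mul_comm (z i) (z j)⁻¹, ← mul_assoc, mul_right_comm _ w (z j)⁻¹, mul_right_comm (z j) (z i)⁻¹ (z j)⁻¹,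
    mul_inv_cancel, one_mul, mul_right_comm, inv_mul_cancel, one_mul]
-- END xf

-- BEGIN xg
private theorem xg_el {a b : Fin n} (h : a ≠ b) (t : K) : (el K a b t).1 = Matrix.transvection a b t := congrArg Subtype.val
    (dif_pos h : el K a b t = ⟨Matrix.transvection a b t, Matrix.det_transvection_of_ne a b h t⟩)

private theorem xg_inv {a b : Fin n} (h : a ≠ b) (t : K) : (el K a b t)⁻¹ = el K a b (-t) := by
  refine inv_eq_of_mul_eq_one_right (Subtype.ext ?_)
  rw [Matrix.SpecialLinearGroup.coe_mul, xg_el h, xg_el h, Matrix.transvection_mul_transvection_same a b h, add_neg_cancel,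
    Matrix.transvection_zero, Matrix.SpecialLinearGroup.coe_one]

/-- MODULE xg. Elements of `LT` (by left multiplication with the generators `el K a b t`: row `a` changes by `t` times row `b`). -/
theorem LT_low {i j : Fin n} (hij : (i : ℕ) + 1 = j) {g : Matrix.SpecialLinearGroup (Fin n) K} (hg : g ∈ LT K fun a b => b < a ∧ ¬ (a = j ∧ b = i)) :
    (∀ p q, p < q → g.1 p q = 0) ∧ (∀ p, g.1 p p = 1) ∧ g.1 j i = 0 := by
  have step : ∀ (a b : Fin n) (t : K), a ≠ b → (b < a ∧ ¬ (a = j ∧ b = i)) → ∀ g : Matrix.SpecialLinearGroup (Fin n) K,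
      ((∀ p q, p < q → g.1 p q = 0) ∧ (∀ p, g.1 p p = 1) ∧ g.1 j i = 0) →
      ((∀ p q, p < q → (el K a b t * g).1 p q = 0) ∧ (∀ p, (el K a b t * g).1 p p = 1) ∧ (el K a b t * g).1 j i = 0) := by
    rintro a b t hab ⟨hba, hn⟩ g ⟨h1, h2, h3⟩
    have hs : ∀ q, (el K a b t * g).1 a q = g.1 a q + t * g.1 b q := fun q => by
      rw [Matrix.SpecialLinearGroup.coe_mul, xg_el hab, Matrix.transvection_mul_apply_same]
    have ho : ∀ p q, p ≠ a → (el K a b t * g).1 p q = g.1 p q := fun p q hp => by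
      rw [Matrix.SpecialLinearGroup.coe_mul, xg_el hab, Matrix.transvection_mul_apply_of_ne _ _ _ _ hp]
    refine ⟨fun p q hpq => ?_, fun p => ?_, ?_⟩
    · by_cases hp : p = a
      · subst hp
        rw [hs, h1 p q hpq, h1 b q (hba.trans hpq), mul_zero, add_zero]
      · rw [ho p q hp, h1 p q hpq]
    · by_cases hp : p = a
      · subst hp
        rw [hs, h2 p, h1 b p hba, mul_zero, add_zero]
      · rw [ho p p hp, h2 p]
    · by_cases hp : j = a
      · subst hp
        have hbi : b < i := by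
          have h4 : b ≠ i := fun e => hn ⟨rfl, e⟩
          rw [Fin.lt_def] at hba ⊢
          have h5 : (b : ℕ) ≠ i := fun e => h4 (Fin.ext e)
          omega
        rw [hs, h3, h1 b i hbi, mul_zero, add_zero]
      · rw [ho j i hp, h3]
  unfold LT at hg
  induction hg using Subgroup.closure_induction_left with
  | one =>
    refine ⟨fun p q hpq => ?_, fun p => ?_, ?_⟩
    · rw [Matrix.SpecialLinearGroup.coe_one, Matrix.one_apply_ne hpq.ne]
    · rw [Matrix.SpecialLinearGroup.coe_one, Matrix.one_apply_eq]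
    · rw [Matrix.SpecialLinearGroup.coe_one, Matrix.one_apply_ne]
      intro e
      have := congrArg Fin.val e
      omega
  | mul_left g hg y _ ih =>
    obtain ⟨a, b, t, hab, hr, rfl⟩ := hg
    exact step a b t hab hr y ih
  | inv_mul_cancel g hg y _ ih =>
    obtain ⟨a, b, t, hab, hr, rfl⟩ := hg
    rw [xg_inv hab]
    exact step a b (-t) hab hr y ih

theorem LT_upp {i j : Fin n} (hij : (i : ℕ) + 1 = j) {g : Matrix.SpecialLinearGroup (Fin n) K} (hg : g ∈ LT K fun a b => a < b ∧ ¬ (a = i ∧ b = j)) :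
    (∀ p q, q < p → g.1 p q = 0) ∧ (∀ p, g.1 p p = 1) ∧ g.1 i j = 0 := by
  have step : ∀ (a b : Fin n) (t : K), a ≠ b → (a < b ∧ ¬ (a = i ∧ b = j)) → ∀ g : Matrix.SpecialLinearGroup (Fin n) K,
      ((∀ p q, q < p → g.1 p q = 0) ∧ (∀ p, g.1 p p = 1) ∧ g.1 i j = 0) →
      ((∀ p q, q < p → (el K a b t * g).1 p q = 0) ∧ (∀ p, (el K a b t * g).1 p p = 1) ∧ (el K a b t * g).1 i j = 0) := by
    rintro a b t hab ⟨hba, hn⟩ g ⟨h1, h2, h3⟩
    have hs : ∀ q, (el K a b t * g).1 a q = g.1 a q + t * g.1 b q := fun q => by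
      rw [Matrix.SpecialLinearGroup.coe_mul, xg_el hab, Matrix.transvection_mul_apply_same]
    have ho : ∀ p q, p ≠ a → (el K a b t * g).1 p q = g.1 p q := fun p q hp => by
      rw [Matrix.SpecialLinearGroup.coe_mul, xg_el hab, Matrix.transvection_mul_apply_of_ne _ _ _ _ hp]
    refine ⟨fun p q hpq => ?_, fun p => ?_, ?_⟩
    · by_cases hp : p = a
      · subst hp
        rw [hs, h1 p q hpq, h1 b q (hpq.trans hba), mul_zero, add_zero]
      · rw [ho p q hp, h1 p q hpq]
    · by_cases hp : p = a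
      · subst hp
        rw [hs, h2 p, h1 b p hba, mul_zero, add_zero]
      · rw [ho p p hp, h2 p]
    · by_cases hp : i = a
      · subst hp
        have hbi : j < b := by
          have h4 : b ≠ j := fun e => hn ⟨rfl, e⟩
          rw [Fin.lt_def] at hba ⊢
          have h5 : (b : ℕ) ≠ j := fun e => h4 (Fin.ext e)
          omega
        rw [hs, h3, h1 b j hbi, mul_zero, add_zero]
      · rw [ho i j hp, h3]
  unfold LT at hg
  induction hg using Subgroup.closure_induction_left with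
  | one =>
    refine ⟨fun p q hpq => ?_, fun p => ?_, ?_⟩
    · rw [Matrix.SpecialLinearGroup.coe_one, Matrix.one_apply_ne hpq.ne']
    · rw [Matrix.SpecialLinearGroup.coe_one, Matrix.one_apply_eq]
    · rw [Matrix.SpecialLinearGroup.coe_one, Matrix.one_apply_ne]
      intro e
      have := congrArg Fin.val e
      omega
  | mul_left g hg y _ ih =>
    obtain ⟨a, b, t, hab, hr, rfl⟩ := hg
    exact step a b t hab hr y ih
  | inv_mul_cancel g hg y _ ih =>
    obtain ⟨a, b, t, hab, hr, rfl⟩ := hg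
    rw [xg_inv hab]
    exact step a b (-t) hab hr y ih
-- END xg

-- BEGIN xh
/-- MODULE xh. UNIQUENESS. `A D B = λ 1` with `A` upper unitriangular, `D = diagonal δ`, `δ_k ≠ 0`, and `B`, `B'` lower unitriangular, `B B' = 1`: `A D = λ B'` is upper and lower triangular, so diagonal, so `A = 1`, `δ_p = λ`, `B' = 1`, `B = 1`. -/
theorem udl_scalar {A B B' : Matrix (Fin n) (Fin n) K} {δ : Fin n → K} {l : K} (hδ : ∀ k, δ k ≠ 0) (hA : ∀ p q, q < p → A p q = 0) (hA1 : ∀ p, A p p = 1) (hB : ∀ p q, p < q → B p q = 0)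
    (hB1 : ∀ p, B p p = 1) (hB' : ∀ p q, p < q → B' p q = 0) (hB'1 : ∀ p, B' p p = 1) (hBB : B * B' = 1) (h : A * Matrix.diagonal δ * B = l • (1 : Matrix (Fin n) (Fin n) K)) :
    A = 1 ∧ B = 1 ∧ ∀ p, δ p = l := by
  have h1 : A * Matrix.diagonal δ = l • B' := by
    calc A * Matrix.diagonal δ = A * Matrix.diagonal δ * (B * B') := by rw [hBB, mul_one]
      _ = (A * Matrix.diagonal δ * B) * B' := by rw [mul_assoc (A * Matrix.diagonal δ)]
      _ = l • B' := by rw [h, smul_mul_assoc, one_mul]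
  have e : ∀ p q, A p q * δ q = l * B' p q := by
    intro p q
    have := congrFun (congrFun h1 p) q
    rwa [Matrix.mul_diagonal, Matrix.smul_apply, smul_eq_mul] at this
  have hd : ∀ p, δ p = l := by
    intro p
    have := e p p
    rwa [hA1, hB'1, one_mul, mul_one] at this
  have hA' : A = 1 := by
    ext p q
    rcases lt_trichotomy p q with c | c | c
    · have := e p q
      rw [hB' p q c, mul_zero] at this
      rw [Matrix.one_apply_ne c.ne]
      exact (mul_eq_zero.mp this).resolve_right (hδ q)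
    · subst c
      rw [hA1, Matrix.one_apply_eq]
    · rw [hA p q c, Matrix.one_apply_ne c.ne']
  have hB'' : B' = 1 := by
    ext p q
    rcases lt_trichotomy p q with c | c | c
    · rw [hB' p q c, Matrix.one_apply_ne c.ne]
    · subst c
      rw [hB'1, Matrix.one_apply_eq]
    · have := e p q
      rw [hA p q c, zero_mul] at this
      rw [Matrix.one_apply_ne c.ne']
      have hl : l ≠ 0 := by
        rw [← hd p]
        exact hδ p
      exact (mul_eq_zero.mp this.symm).resolve_left hl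
  refine ⟨hA', ?_, hd⟩
  rw [hB'', mul_one] at hBB
  exact hBB


private theorem xh_el {i j : Fin n} (h : i ≠ j) (c : K) : (el K i j c).1 = Matrix.transvection i j c := by
  have : el K i j c = ⟨Matrix.transvection i j c, Matrix.det_transvection_of_ne i j h c⟩ := dif_pos h
  rw [this]

/-- `A = N * el K i j c` (entry `(i, j)` is `c`), `B = el K j i b * N'` (entry `(j, i)` is `b`), the inverse of `B` is `N'⁻¹ * el K j i (-b)` with `N'⁻¹` in the same group (`LT_low`); products of unitriangular matrices are unitriangular. -/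
theorem nonscalar {i j : Fin n} (hij : (i : ℕ) + 1 = j) {N N' D : Matrix.SpecialLinearGroup (Fin n) K} (hN : N ∈ LT K fun a b => a < b ∧ ¬ (a = i ∧ b = j))
    (hN' : N' ∈ LT K fun a b => b < a ∧ ¬ (a = j ∧ b = i)) {δ : Fin n → Kˣ} (hD : D.1 = Matrix.diagonal fun k => ((δ k : Kˣ) : K)) {c b : K} (hcb : ¬ (c = 0 ∧ b = 0 ∧ δ i = δ j)) (l : K) :
    (N * el K i j c * D * el K j i b * N').1 ≠ l • (1 : Matrix (Fin n) (Fin n) K) := by
  intro h
  have hlt : i < j := by
    rw [Fin.lt_def]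
    omega
  have hne : i ≠ j := hlt.ne
  obtain ⟨n1, n2, n3⟩ := LT_upp hij hN
  obtain ⟨m1, m2, m3⟩ := LT_low hij hN'
  obtain ⟨k1, k2, k3⟩ := LT_low hij (Subgroup.inv_mem _ hN')
  have e1 : (N * el K i j c).1 = N.1 * Matrix.transvection i j c := by
    rw [← xh_el hne]
    rfl
  have e2 : (el K j i b * N').1 = Matrix.transvection j i b * N'.1 := by
    rw [← xh_el hne.symm]
    rfl
  have e3 : (N'⁻¹ * el K j i (-b)).1 = (N'⁻¹).1 * Matrix.transvection j i (-b) := by
    rw [← xh_el hne.symm]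
    rfl
  have hel : el K j i b * el K j i (-b) = 1 := by
    apply Subtype.ext
    have : (el K j i b * el K j i (-b)).1 = Matrix.transvection j i b * Matrix.transvection j i (-b) := by
      rw [← xh_el hne.symm, ← xh_el hne.symm]
      rfl
    rw [this, Matrix.transvection_mul_transvection_same _ _ hne.symm, add_neg_cancel, Matrix.transvection_zero]
    rfl
  have hBB : (el K j i b * N').1 * (N'⁻¹ * el K j i (-b)).1 = 1 := by
    have : el K j i b * N' * (N'⁻¹ * el K j i (-b)) = 1 := by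
      rw [mul_assoc, mul_inv_cancel_left, hel]
    have h2 := congrArg Subtype.val this
    exact h2
  have hprod : (N * el K i j c).1 * Matrix.diagonal (fun k => ((δ k : Kˣ) : K)) * (el K j i b * N').1 = l • (1 : Matrix (Fin n) (Fin n) K) := by
    rw [← h, ← hD]
    rw [mul_assoc (N * el K i j c * D)]
    rfl
  obtain ⟨a1, a2, a3⟩ := udl_scalar (A := (N * el K i j c).1) (B := (el K j i b * N').1) (B' := (N'⁻¹ * el K j i (-b)).1)
    (δ := fun k => ((δ k : Kˣ) : K)) (l := l) (fun k => (δ k).ne_zero)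
    (by
      intro p q hpq
      rw [e1]
      by_cases hq : q = j
      · rw [hq, Matrix.mul_transvection_apply_same, n1 p j (hq ▸ hpq), n1 p i (lt_trans hlt (hq ▸ hpq)), mul_zero, add_zero]
      · rw [Matrix.mul_transvection_apply_of_ne _ _ _ _ hq, n1 p q hpq])
    (by
      intro p
      rw [e1]
      by_cases hq : p = j
      · rw [hq, Matrix.mul_transvection_apply_same, n2 j, n1 j i hlt, mul_zero, add_zero]
      · rw [Matrix.mul_transvection_apply_of_ne _ _ _ _ hq, n2 p])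
    (by
      intro p q hpq
      rw [e2]
      by_cases hp : p = j
      · rw [hp, Matrix.transvection_mul_apply_same, m1 j q (hp ▸ hpq), m1 i q (lt_trans hlt (hp ▸ hpq)), mul_zero, add_zero]
      · rw [Matrix.transvection_mul_apply_of_ne _ _ _ _ hp, m1 p q hpq])
    (by
      intro p
      rw [e2]
      by_cases hp : p = j
      · rw [hp, Matrix.transvection_mul_apply_same, m2 j, m1 i j hlt, mul_zero, add_zero]
      · rw [Matrix.transvection_mul_apply_of_ne _ _ _ _ hp, m2 p])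
    (by
      intro p q hpq
      rw [e3]
      by_cases hq : q = i
      · rw [hq, Matrix.mul_transvection_apply_same, k1 p i (hq ▸ hpq), k1 p j (lt_trans (hq ▸ hpq) hlt), mul_zero, add_zero]
      · rw [Matrix.mul_transvection_apply_of_ne _ _ _ _ hq, k1 p q hpq])
    (by
      intro p
      rw [e3]
      by_cases hq : p = i
      · rw [hq, Matrix.mul_transvection_apply_same, k2 i, k1 i j hlt, mul_zero, add_zero]
      · rw [Matrix.mul_transvection_apply_of_ne _ _ _ _ hq, k2 p])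
    hBB hprod
  apply hcb
  refine ⟨?_, ?_, ?_⟩
  · have := congrFun (congrFun a1 i) j
    rw [e1, Matrix.mul_transvection_apply_same, n3, n2 i, mul_one, zero_add, Matrix.one_apply_ne hne] at this
    exact this
  · have := congrFun (congrFun a2 j) i
    rw [e2, Matrix.transvection_mul_apply_same, m3, m2 i, mul_one, zero_add, Matrix.one_apply_ne hne.symm] at this
    exact this
  · apply Units.ext
    exact (a3 i).trans (a3 j).symm
-- END xh

-- BEGIN xi
/-- MODULE xi. THE GAUSS THEOREM. `reachE` with the target of `comb_zero`, `NE_levi` with `l = lev` (`dnonneg`), `j = i + 1`; `v₁ = f N`, `u₁ = f N'` (`lev_upp`, `lev_low`), `x (-sr j) c = yy x i j (-c) = f (el K i j (-c))`, `x (sr j) b = f (el K j i b)`, `hz = f D` (`lev_diag`);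
`chi_dlz`: if `δ_i = δ_j` then `χ = 1`; `nonscalar`. -/
theorem gaussE (hn : n = 6 ∨ n = 7 ∨ n = 8) (hK : ∃ d : K, d ≠ 0 ∧ d ≠ 1) {x : Root n → K → G} (h : Stb K n x) {f : Matrix.SpecialLinearGroup (Fin n) K →* G}
    (hf : ∀ i j, i ≠ j → ∀ a, f (el K i j a) = yy x i j a) {g : G} (hg : g ∉ Subgroup.center G) :
    ∃ c : G, ∃ v ∈ Uk (op x) lev 1, ∃ M : Matrix.SpecialLinearGroup (Fin n) K, (∀ t : K, M.1 ≠ t • (1 : Matrix (Fin n) (Fin n) K)) ∧ ∃ u ∈ Uk x lev 1, c * g * c⁻¹ = v * f M * u := by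
  obtain ⟨c, j, z, ⟨hj0, hz0⟩, hNE⟩ := reachE hn h hg
    (P := fun j z' => (j : ℕ) ≠ 0 ∧ ∀ i0 : Fin n, (i0 : ℕ) = 0 → z' i0 = 1)
    (fun S h1 h2 i z hS => comb_zero hn hK S h1 h2 i z hS)
  obtain ⟨v₂, hv₂, v₁, hv₁, u₁, hu₁, u₂, hu₂, c', b, hgeq, hcb⟩ :=
    NE_levi hn h (l := lev) (fun v w => rfl) (fun r hr => dnonneg hn r hr) hNE
  obtain ⟨i, hij⟩ : ∃ i : Fin n, (i : ℕ) + 1 = j := ⟨⟨(j : ℕ) - 1, by omega⟩, by simp only; omega⟩
  have hne : i ≠ j := by
    intro he
    rw [he] at hij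
    omega
  have hlt : i < j := by
    rw [Fin.lt_def]
    omega
  obtain ⟨N, hN, rfl⟩ := lev_upp hn hf hij hv₁
  obtain ⟨N', hN', rfl⟩ := lev_low hn hf hij hu₁
  obtain ⟨D, hD, hfD⟩ := lev_diag hn h hf hz0
  have hsr : sr hn j = er hne.symm := sr_succ hn hij hne.symm
  have hneg : -sr hn j = er hne := by
    rw [hsr]
    apply Subtype.ext
    show -(er hne.symm).1 = (er hne).1
    unfold er
    apply Prod.ext
    · simp [eroot]
    · funext k
      simp [eroot]
  have h1 : f (el K i j (-c')) = x (-sr hn j) c' := by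
    rw [hf i j hne, hneg]
    simp only [yy, dif_pos hne, if_pos hlt, neg_neg]
  have h2 : f (el K j i b) = x (sr hn j) b := by
    rw [hf j i hne.symm, hsr]
    simp only [yy, dif_pos hne.symm, if_neg (not_lt.mpr hlt.le)]
  refine ⟨c, v₂, hv₂, N * el K i j (-c') * D * el K j i b * N', ?_, u₂, hu₂, ?_⟩
  · refine nonscalar hij hN hN' hD ?_
    rintro ⟨hc0, hb0, hd⟩
    refine hcb ⟨neg_eq_zero.mp hc0, hb0, ?_⟩
    have hχ := chi_dlz hn hz0 hij
    rw [hd] at hχ
    exact mul_eq_right.mp hχ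
  · rw [hgeq, map_mul, map_mul, map_mul, map_mul, h1, h2, hfD]
-- END xi

end ThK
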