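import Pool.Agent.ThE.Cls

/-! # Steinberg relations of type `E_n` over a field `K`: definitions

Roots: `ThE.Root n`, the integral vectors `(d; m_1, .., m_n)` with `∑ m_i = 3 d`, `∑ m_i ^ 2 = d ^ 2 + 2`, `n = 6, 7, 8`; form `ThE.bf`; height `ThE.ht`; reflection `ThE.rf`.
Signs: `ep r s = (-1) ^ (∑_(i<j) m_i(r) m_j(s))` (bimultiplicative, `ep r r = -1`, `ep r s * ep s r = (-1) ^ (r, s)`).  In this normalisation `[e_r, e_s] = ep r s e_(r+s)`, `[e_r, e_(-r)] = - h_r`,
so `n_r(a) = x_r(a) x_(-r)(a⁻¹) x_r(a)`.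
-/

namespace ThK
open ThE

/-- the exponent of the sign -/
def bl {n : ℕ} (v w : Vec n) : ℤ := ∑ i, ∑ j, if i < j then v.2 i * w.2 j else 0

/-- the sign -/
def ep (K : Type*) [Field K] {n : ℕ} (v w : Vec n) : Kˣ := (-1) ^ bl v w

section
variable {K : Type*} [Field K] {n : ℕ} {G : Type*} [Group G]

/-- `n_r(a)` -/
def nn (x : Root n → K → G) (r : Root n) (a : K) : G := x r a * x (-r) a⁻¹ * x r a

/-- `h_r(a) = n_r(a) n_r(1)⁻¹` -/
def hh (x : Root n → K → G) (r : Root n) (a : K) : G := nn x r a * nn x r (-1)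

variable (K n) in
/-- Steinberg's relations over `K` (`G` generated by the `x r a`) -/
structure Stb {G : Type*} [Group G] (x : Root n → K → G) : Prop where
  add : ∀ r a b, x r (a + b) = x r a * x r b
  sum : ∀ r s t : Root n, t.1 = r.1 + s.1 → ∀ a b, x r a * x s b * (x r a)⁻¹ * (x s b)⁻¹ = x t (ep K r.1 s.1 * a * b)
  comm : ∀ r s : Root n, r.1 + s.1 ≠ 0 → (∀ t : Root n, t.1 ≠ r.1 + s.1) → ∀ a b, x r a * x s b * (x r a)⁻¹ * (x s b)⁻¹ = 1
  tor : ∀ r a b, a ≠ 0 → b ≠ 0 → hh x r (a * b) = hh x r a * hh x r b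
  gen : Subgroup.closure {g | ∃ r a, g = x r a} = ⊤

/-- the subgroup generated by the `x r a` with `p r` -/
def Sg (x : Root n → K → G) (p : Root n → Prop) : Subgroup G := Subgroup.closure {g | ∃ r a, p r ∧ g = x r a}

/-- the opposite system: roots `r ↦ -r` (it satisfies the same relations) -/
def op (x : Root n → K → G) : Root n → K → G := fun r a => x (-r) a

/-- the level for the Levi subgroup of type `A_(n-1)`: the degree `d` -/
def lev (v : Vec n) : ℤ := v.1

/-- the Levi subgroup (without the torus part) for the level function `l` -/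
def Lv (x : Root n → K → G) (l : Vec n → ℤ) : Subgroup G := Sg x fun r => l r.1 = 0

/-- the filtration of the unipotent radical (`k ≥ 1`) for the level function `l` -/
def Uk (x : Root n → K → G) (l : Vec n → ℤ) (k : ℕ) : Subgroup G := Sg x fun r => (k : ℤ) ≤ l r.1

/-- `1 - b` is surjective on the section `Uk k / Uk (k + 1)` -/
def Sur (x : Root n → K → G) (l : Vec n → ℤ) (b : G) (k : ℕ) : Prop :=
  ∀ v ∈ Uk x l k, ∃ y ∈ Uk x l k, y⁻¹ * v * (b * y * b⁻¹) ∈ Uk x l (k + 1)

/-- the root `e_i - e_j` -/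
def er {i j : Fin n} (h : i ≠ j) : Root n := eroot h

/-- the elementary matrices of `SL_n(K)` in `G`: `y_ij(a) = x_(e_i - e_j)(± a)`, sign `-` for `i < j` -/
def yy (x : Root n → K → G) (i j : Fin n) (a : K) : G := if h : i ≠ j then x (er h) (if i < j then -a else a) else 1

end

section
variable {K : Type*} [Field K] {n : ℕ} {Γ : Type*} [Group Γ]

/-- `n_ij(a)` for a system of type `A_(n-1)` in the usual normalisation -/
def nA (z : Fin n → Fin n → K → Γ) (i j : Fin n) (a : K) : Γ := z i j a * z j i (-a⁻¹) * z i j a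

/-- `h_ij(a)` -/
def hA (z : Fin n → Fin n → K → Γ) (i j : Fin n) (a : K) : Γ := nA z i j a * nA z i j (-1)

variable (K n) in
/-- the relations of the elementary matrices of `SL_n(K)` -/
structure StA {Γ : Type*} [Group Γ] (z : Fin n → Fin n → K → Γ) : Prop where
  add : ∀ i j, i ≠ j → ∀ a b, z i j (a + b) = z i j a * z i j b
  mul : ∀ i j k, i ≠ j → j ≠ k → i ≠ k → ∀ a b, z i j a * z j k b * (z i j a)⁻¹ * (z j k b)⁻¹ = z i k (a * b)
  cm : ∀ i j k l, i ≠ j → k ≠ l → j ≠ k → i ≠ l → ∀ a b, z i j a * z k l b = z k l b * z i j a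
  wz : ∀ i j, i ≠ j → ∀ a b, a ≠ 0 → nA z i j a * z i j b * (nA z i j a)⁻¹ = z j i (-(a⁻¹ * a⁻¹ * b))
  tor : ∀ i j, i ≠ j → ∀ a b, a ≠ 0 → b ≠ 0 → hA z i j (a * b) = hA z i j a * hA z i j b

variable (K) in
/-- the elementary matrix `1 + a e_ij` in `SL_n(K)` (`1` if `i = j`) -/
def el (i j : Fin n) (a : K) : Matrix.SpecialLinearGroup (Fin n) K :=
  if h : i ≠ j then ⟨Matrix.transvection i j a, Matrix.det_transvection_of_ne i j h a⟩ else 1

end

end ThK
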