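import Pool.Agent.ThK.Ifc
import Pool.Agent.ThE.Neg

/-! # Assembly for `E_7`, `E_8` -/

namespace ThK
open ThE Polynomial

variable {K : Type*} [Field K] {n : ℕ} {G : Type*} [Group G]

-- BEGIN ua
/-- the product of the `n_r(1)` of a word -/
def nw (x : Root n → K → G) (W : List (Root n)) : G := (W.map fun r => nn x r 1).prod

/-- the exponent of the sign of the action of a word -/
def se (W : List (Root n)) (s : Root n) : ℤ :=
  match W with
  | [] => 0
  | r :: W => se W s + bl r.1 (act W s).1 * bf r.1 (act W s).1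

/-- MODULE ua. Induction on `W` with `nn_conj` (`a = 1`); `ep ^ bf = (-1) ^ (bl * bf)`. -/
theorem nw_conj (hn : n = 6 ∨ n = 7 ∨ n = 8) {x : Root n → K → G} (h : Stb K n x) (W : List (Root n)) (s : Root n) (b : K) :
    nw x W * x s b * (nw x W)⁻¹ = x (act W s) ((((-1 : Kˣ) ^ se W s : Kˣ) : K) * b) := by
  induction W with
  | nil =>
    show (1 : G) * x s b * (1 : G)⁻¹ = x s ((((-1 : Kˣ) ^ (0 : ℤ) : Kˣ) : K) * b)
    rw [one_mul, inv_one, mul_one, zpow_zero, Units.val_one, one_mul]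
  | cons r W ih =>
    have e : nw x (r :: W) = nn x r 1 * nw x W := by
      simp only [nw, List.map_cons, List.prod_cons]
    have e1 : nw x (r :: W) * x s b * (nw x (r :: W))⁻¹ = nn x r 1 * (nw x W * x s b * (nw x W)⁻¹) * (nn x r 1)⁻¹ := by
      rw [e]; group
    have e2 : act (r :: W) s = rf r (act W s) := rfl
    have e3 : se (r :: W) s = se W s + bl r.1 (act W s).1 * bf r.1 (act W s).1 := rfl
    rw [e1, ih, nn_conj hn h r (act W s) one_ne_zero, e2, e3, one_zpow, mul_one]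
    congr 1
    have e4 : ((ep K r.1 (act W s).1 : Kˣ) : K) ^ bf r.1 (act W s).1 =
        ((((-1 : Kˣ) ^ (bl r.1 (act W s).1 * bf r.1 (act W s).1) : Kˣ)) : K) := by
      rw [ep, zpow_mul, Units.val_zpow_eq_zpow_val ((-1 : Kˣ) ^ bl r.1 (act W s).1)]
    rw [e4, zpow_add, Units.val_mul]
    ring
-- END ua

-- BEGIN ub
/-- the signs `δ` (`n = 7`: `-1` for the last index, otherwise `1`) -/
def dl (n : ℕ) (i : Fin n) : ℤ := if n = 7 ∧ (i : ℕ) = 6 then -1 else 1

/-- `se` by a formula (for pairwise orthogonal roots) -/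
private def ub_se : List (Vec n) → Vec n → ℤ
  | [], _ => 0
  | r :: W, s => ub_se W s + (bl r s - (W.map fun t => bf t s * bl r t).sum) * bf r s

private theorem ub_sub (r v w : Vec n) : bl r (v - w) = bl r v - bl r w := by
  unfold bl
  rw [← Finset.sum_sub_distrib]
  refine Finset.sum_congr rfl fun i _ => ?_
  rw [← Finset.sum_sub_distrib]
  refine Finset.sum_congr rfl fun j _ => ?_
  split_ifs
  · show r.2 i * (v.2 j - w.2 j) = _
    ring
  · ring

private theorem ub_add (r v w : Vec n) : bl r (v + w) = bl r v + bl r w := by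
  unfold bl
  rw [← Finset.sum_add_distrib]
  refine Finset.sum_congr rfl fun i _ => ?_
  rw [← Finset.sum_add_distrib]
  refine Finset.sum_congr rfl fun j _ => ?_
  split_ifs
  · show r.2 i * (v.2 j + w.2 j) = _
    ring
  · ring

private theorem ub_sv (r v : Vec n) (c : ℤ) : bl r (sv c v) = c * bl r v := by
  unfold bl
  rw [Finset.mul_sum]
  refine Finset.sum_congr rfl fun i _ => ?_
  rw [Finset.mul_sum]
  refine Finset.sum_congr rfl fun j _ => ?_
  split_ifs
  · show r.2 i * (c * v.2 j) = _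
    ring
  · ring

private theorem ub_zero (r : Vec n) : bl r 0 = 0 := by
  unfold bl
  refine Finset.sum_eq_zero fun i _ => Finset.sum_eq_zero fun j _ => ?_
  split_ifs
  · show r.2 i * 0 = 0
    ring
  · rfl

private theorem ub_sum (r : Vec n) (W : List (Root n)) (s : Vec n) :
    bl r (W.map fun t => sv (bf t.1 s) t.1).sum = ((W.map (·.1)).map fun t => bf t s * bl r t).sum := by
  induction W with
  | nil => exact ub_zero r
  | cons t W ih =>
    rw [List.map_cons, List.sum_cons, ub_add, ih, ub_sv, List.map_cons, List.map_cons, List.sum_cons]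

private theorem ub_eq (W : List (Root n)) (hW : W.Pairwise fun r t => bf r.1 t.1 = 0) (s : Root n) : se W s = ub_se (W.map (·.1)) s.1 := by
  induction W with
  | nil => rfl
  | cons r W ih =>
    rw [List.pairwise_cons] at hW
    have e1 : se (r :: W) s = se W s + bl r.1 (act W s).1 * bf r.1 (act W s).1 := rfl
    have e2 : ub_se ((r :: W).map (·.1)) s.1 = ub_se (W.map (·.1)) s.1 + (bl r.1 s.1 - ((W.map (·.1)).map fun t => bf t s.1 * bl r.1 t).sum) * bf r.1 s.1 := rfl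
    rw [e1, e2, ih hW.2, act_orth W hW.2 s, bf_sub_right, bf_sum_orth W r s hW.1, sub_zero, ub_sub, ub_sum]

private theorem ub_par (z : ℤ) : (((-1 : ℤˣ) ^ z : ℤˣ) : ℤ) = if z % 2 = 0 then 1 else -1 := by
  split_ifs with h
  · rw [(Int.even_iff.2 h).neg_one_zpow]
    rfl
  · rw [(Int.not_even_iff_odd.1 fun h' => h (Int.even_iff.1 h')).neg_one_zpow]
    rfl

set_option maxRecDepth 100000 in
/-- MODULE ub. The exponents for the lists `ThE.ng3`, `ThE.ng4` (pairwise orthogonal roots with product of the reflections `-1`) and the roots `e_i - e_j`: `(-1)^(se) = δ_i δ_j`.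
By `decide` through the formula `se W s = ∑_k bl r_k (s - ∑_(j>k) (r_j, s) r_j) (r_k, s)`. -/
theorem se_ng3 (i j : Fin 7) (hij : i ≠ j) : ((-1 : ℤˣ) ^ se ng3 (er hij) : ℤˣ) = ((dl 7 i * dl 7 j : ℤ) : ℤ) := by
  rw [ub_eq ng3 (by decide), ub_par]
  revert i j
  decide +kernel

set_option maxRecDepth 100000 in
theorem se_ng4 (i j : Fin 8) (hij : i ≠ j) : ((-1 : ℤˣ) ^ se ng4 (er hij) : ℤˣ) = ((dl 8 i * dl 8 j : ℤ) : ℤ) := by
  rw [ub_eq ng4 (by decide), ub_par]
  revert i j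
  decide +kernel
-- END ub

-- BEGIN uc
private theorem uc_neg3 (s : Root 7) : act ng3 s = -s := by
  refine Subtype.ext ?_
  have hp : ng3.Pairwise fun r t => bf r.1 t.1 = 0 := by decide
  have h1 := s.2.1
  have e : (act ng3 s).1 = _ := act_orth ng3 hp s
  refine e.trans ?_
  rw [neg_val]
  generalize s.1 = v at h1 ⊢
  obtain ⟨d, f⟩ := v
  simp only [Fin.sum_univ_succ, Fin.sum_univ_zero] at h1
  refine Prod.ext ?_ (funext fun i => ?_)
  · simp [ng3, bf, sv, Fin.sum_univ_succ] at h1 ⊢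
    ring_nf at h1 ⊢
    linarith
  · fin_cases i
    all_goals
      simp [ng3, bf, sv, Fin.sum_univ_succ] at h1 ⊢
      ring_nf at h1 ⊢
      linarith

private theorem uc_neg4 (s : Root 8) : act ng4 s = -s := by
  refine Subtype.ext ?_
  have hp : ng4.Pairwise fun r t => bf r.1 t.1 = 0 := by decide
  have h1 := s.2.1
  have e : (act ng4 s).1 = _ := act_orth ng4 hp s
  refine e.trans ?_
  rw [neg_val]
  generalize s.1 = v at h1 ⊢
  obtain ⟨d, f⟩ := v
  simp only [Fin.sum_univ_succ, Fin.sum_univ_zero] at h1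
  refine Prod.ext ?_ (funext fun i => ?_)
  · simp [ng4, bf, sv, Fin.sum_univ_succ] at h1 ⊢
    ring_nf at h1 ⊢
    linarith
  · fin_cases i
    all_goals
      simp [ng4, bf, sv, Fin.sum_univ_succ] at h1 ⊢
      ring_nf at h1 ⊢
      linarith

private theorem uc_er {i j : Fin n} (h : i ≠ j) : -(er h) = er h.symm := by
  refine Subtype.ext ?_
  rw [neg_val]
  refine Prod.ext ?_ (funext fun k => ?_)
  · show -(0 : ℤ) = 0
    rfl
  · show -((if k = i then (1 : ℤ) else 0) - (if k = j then 1 else 0)) = (if k = j then (1 : ℤ) else 0) - (if k = i then 1 else 0)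
    ring

private theorem uc_cast (k d : ℤ) (h : (((-1 : ℤˣ) ^ k : ℤˣ) : ℤ) = d) : (((-1 : Kˣ) ^ k : Kˣ) : K) = (d : K) := by
  rw [← h]
  have e : Units.map (Int.castRingHom K : ℤ →* K) ((-1 : ℤˣ) ^ k) = (-1 : Kˣ) ^ k := by
    rw [map_zpow]
    congr 1
    ext
    simp
  rw [← e]
  rfl

private theorem uc_aux {x : Root n → K → G} {g : G} {i j : Fin n} (hij : i ≠ j) {d : K}
    (hg : ∀ b, g * x (er hij) b * g⁻¹ = x (er hij.symm) (d * b)) (a : K) : g * yy x i j a * g⁻¹ = yy x j i (-(d * a)) := by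
  rw [yy, dif_pos hij, yy, dif_pos hij.symm, hg]
  rcases lt_or_gt_of_ne hij with h | h
  · rw [if_pos h, if_neg (not_lt.mpr h.le), mul_neg]
  · rw [if_neg (not_lt.mpr h.le), if_pos h, neg_neg]

/-- MODULE uc. `n0 = nw x ng3` resp. `nw x ng4`: `act W s = -s` (as in the proof of `ThE.exists_neg`: `act_orth`), signs by `ub`: `n0 yy i j a n0⁻¹ = n0 x_(e_i - e_j)(c_ij a) n0⁻¹ = x_(e_j - e_i)(δ_i δ_j c_ij a) = yy j i (- δ_i δ_j a)` (`c_ji = - c_ij`). -/
theorem exists_n0 (hn : n = 7 ∨ n = 8) {x : Root n → K → G} (h : Stb K n x) :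
    ∃ n0 : G, ∀ i j, i ≠ j → ∀ a, n0 * yy x i j a * n0⁻¹ = yy x j i (-(((dl n i : ℤ) : K) * ((dl n j : ℤ) : K) * a)) := by
  rcases hn with rfl | rfl
  · refine ⟨nw x ng3, fun i j hij a => uc_aux hij (fun b => ?_) a⟩
    rw [nw_conj (Or.inr (Or.inl rfl)) h, uc_neg3, uc_er, uc_cast _ _ (se_ng3 i j hij), Int.cast_mul]
  · refine ⟨nw x ng4, fun i j hij a => uc_aux hij (fun b => ?_) a⟩
    rw [nw_conj (Or.inr (Or.inr rfl)) h, uc_neg4, uc_er, uc_cast _ _ (se_ng4 i j hij), Int.cast_mul]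
-- END uc

-- BEGIN ud
theorem ud_el {n : ℕ} {K : Type*} [Field K] (i j : Fin n) (h : i ≠ j) (a : K) : (el K i j a).1 = Matrix.transvection i j a := by
  have e : el K i j a = (⟨Matrix.transvection i j a, Matrix.det_transvection_of_ne i j h a⟩ : Matrix.SpecialLinearGroup (Fin n) K) := dif_pos h
  rw [e]

theorem ud_inv {n : ℕ} {K : Type*} [Field K] (i j : Fin n) (h : i ≠ j) (a : K) : (el K i j a)⁻¹ = el K i j (-a) := by
  rw [inv_eq_iff_mul_eq_one]
  apply Subtype.ext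
  show (el K i j a).1 * (el K i j (-a)).1 = 1
  rw [ud_el i j h, ud_el i j h, Matrix.transvection_mul_transvection_same i j h, add_neg_cancel, Matrix.transvection_zero]

theorem ud_dd {n : ℕ} {K : Type*} [Field K] (d : Fin n → K) (hd : ∀ i, d i * d i = 1) :
    Matrix.diagonal d * Matrix.diagonal d = (1 : Matrix (Fin n) (Fin n) K) := by
  rw [Matrix.diagonal_mul_diagonal, ← Matrix.diagonal_one]
  congr 1
  funext i
  exact hd i

/-- MODULE ud. The automorphism `M ↦ D M^(-T) D⁻¹`, `D = diag (δ_i)` (`δ_i = ± 1`): `e_ij(a) ↦ e_ji(- δ_i δ_j a)`. -/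
theorem exists_tau (n : ℕ) (K : Type*) [Field K] (d : Fin n → K) (hd : ∀ i, d i * d i = 1) :
    ∃ τ : Matrix.SpecialLinearGroup (Fin n) K →* Matrix.SpecialLinearGroup (Fin n) K,
      (∀ i j, i ≠ j → ∀ a, τ (el K i j a) = el K j i (-(d i * d j * a))) ∧
      ∀ M, (τ M⁻¹).1 = Matrix.diagonal d * Matrix.transpose M.1 * Matrix.diagonal d := by
  have hdd := ud_dd d hd
  have hdet : ∀ M : Matrix.SpecialLinearGroup (Fin n) K, (Matrix.diagonal d * Matrix.transpose M.1 * Matrix.diagonal d).det = 1 := by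
    intro M
    have h1 : (Matrix.diagonal d * Matrix.diagonal d : Matrix (Fin n) (Fin n) K).det = 1 := by rw [hdd, Matrix.det_one]
    rw [Matrix.det_mul] at h1
    rw [Matrix.det_mul, Matrix.det_mul, Matrix.det_transpose, M.2, mul_one, h1]
  refine ⟨{ toFun := fun M => ⟨Matrix.diagonal d * Matrix.transpose (M⁻¹).1 * Matrix.diagonal d, hdet M⁻¹⟩
            map_one' := ?_
            map_mul' := ?_ }, ?_, ?_⟩
  · apply Subtype.ext
    show Matrix.diagonal d * Matrix.transpose ((1 : Matrix.SpecialLinearGroup (Fin n) K)⁻¹).1 * Matrix.diagonal d = 1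
    rw [inv_one]
    show Matrix.diagonal d * Matrix.transpose (1 : Matrix (Fin n) (Fin n) K) * Matrix.diagonal d = 1
    rw [Matrix.transpose_one, mul_one, hdd]
  · intro M N
    apply Subtype.ext
    show Matrix.diagonal d * Matrix.transpose ((M * N)⁻¹).1 * Matrix.diagonal d =
      (Matrix.diagonal d * Matrix.transpose (M⁻¹).1 * Matrix.diagonal d) * (Matrix.diagonal d * Matrix.transpose (N⁻¹).1 * Matrix.diagonal d)
    have h1 : ((M * N)⁻¹).1 = (N⁻¹).1 * (M⁻¹).1 := by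
      rw [mul_inv_rev]; rfl
    rw [h1, Matrix.transpose_mul]
    calc Matrix.diagonal d * ((M⁻¹).1.transpose * (N⁻¹).1.transpose) * Matrix.diagonal d
        = Matrix.diagonal d * (M⁻¹).1.transpose * 1 * ((N⁻¹).1.transpose * Matrix.diagonal d) := by
          rw [mul_one]; simp only [Matrix.mul_assoc]
      _ = _ := by rw [← hdd]; simp only [Matrix.mul_assoc]
  · intro i j h a
    apply Subtype.ext
    show Matrix.diagonal d * Matrix.transpose ((el K i j a)⁻¹).1 * Matrix.diagonal d = _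
    rw [ud_inv i j h, ud_el i j h, ud_el j i h.symm]
    ext k l
    rw [Matrix.mul_diagonal, Matrix.diagonal_mul, Matrix.transpose_apply]
    simp only [Matrix.transvection, Matrix.add_apply, Matrix.one_apply, Matrix.single_apply]
    by_cases hkl : k = l
    · subst hkl
      have h1 : ¬ (i = k ∧ j = k) := fun hh => h (hh.1.trans hh.2.symm)
      have h2 : ¬ (j = k ∧ i = k) := fun hh => h (hh.2.trans hh.1.symm)
      simp [h1, h2, hd k]
    · have hlk : ¬ l = k := fun e => hkl e.symm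
      rw [if_neg hkl, if_neg hlk]
      by_cases hh : i = l ∧ j = k
      · obtain ⟨rfl, rfl⟩ := hh
        simp
        ring
      · have hh2 : ¬ (j = k ∧ i = l) := fun e => hh ⟨e.2, e.1⟩
        simp [hh, hh2]
  · intro M
    show Matrix.diagonal d * Matrix.transpose ((M⁻¹)⁻¹).1 * Matrix.diagonal d = _
    rw [inv_inv]
-- END ud

-- BEGIN ue
/-- MODULE ue. Reality.  `n0 f(M) n0⁻¹ = f(τ M)` for all `M` (`pres_ext` for the homomorphisms `conj n0 ∘ f` and `f ∘ τ`, `HomY`, `exists_n0`, `exists_tau`).  `(τ w⁻¹).1 = D wᵀ D⁻¹` has the characteristic polynomial of `w` (`Matrix.charpoly_transpose`, similarity), so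
`τ w⁻¹ = P w P⁻¹` (`ThPL.conj_SL`), `τ w = P w⁻¹ P⁻¹`; `c = f(P)⁻¹ n0`. -/
theorem real78 (hn : n = 7 ∨ n = 8) {x : Root n → K → G} (h : Stb K n x) {f : Matrix.SpecialLinearGroup (Fin n) K →* G} (hf : HomY x f)
    {w : Matrix.SpecialLinearGroup (Fin n) K} {f0 : K[X]} {l : K} (h0 : Irreducible f0) (hm : f0.Monic) (hd : 2 ≤ f0.natDegree) (hw : w.1.charpoly = (X - C l) * f0) :
    ∃ c : G, c * f w * c⁻¹ = (f w)⁻¹ := by
  obtain ⟨n0, hn0⟩ := exists_n0 hn h
  have hdd : ∀ i : Fin n, ((dl n i : ℤ) : K) * ((dl n i : ℤ) : K) = 1 := by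
    intro i
    unfold dl
    split <;> simp
  obtain ⟨τ, hτ, hτ'⟩ := exists_tau n K (fun i => ((dl n i : ℤ) : K)) hdd
  have hconj : (MulAut.conj n0).toMonoidHom.comp f = f.comp τ := by
    apply pres_ext
    intro i j hij a
    have h1 := hn0 i j hij a
    have h2 : (MulAut.conj n0).toMonoidHom.comp f (el K i j a) = n0 * f (el K i j a) * n0⁻¹ := rfl
    rw [h2, MonoidHom.comp_apply, hτ i j hij a, hf i j hij a, hf j i hij.symm]
    exact h1
  have hDD : Matrix.diagonal (fun i : Fin n => ((dl n i : ℤ) : K)) * Matrix.diagonal (fun i : Fin n => ((dl n i : ℤ) : K)) = 1 := by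
    rw [Matrix.diagonal_mul_diagonal, ← Matrix.diagonal_one]
    congr 1
    funext i
    exact hdd i
  have hchar : (τ w⁻¹).1.charpoly = (X - C l) * f0 := by
    rw [hτ' w, ← hw, ← Matrix.charpoly_transpose w.1]
    set D := Matrix.diagonal (fun i : Fin n => ((dl n i : ℤ) : K)) with hD
    rw [Matrix.charpoly_mul_comm, ← mul_assoc, hDD, one_mul]
  obtain ⟨P, hP⟩ := ThPL.conj_SL w (τ w⁻¹).1 h0 hm hd hw hchar
  have hP' : τ w⁻¹ = P * w * P⁻¹ := Subtype.ext hP
  have h1 : n0 * f w * n0⁻¹ = f (τ w) := DFunLike.congr_fun hconj w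
  have h2 : τ w = P * w⁻¹ * P⁻¹ := by
    have h4 : τ w = (τ w⁻¹)⁻¹ := by rw [map_inv, inv_inv]
    rw [h4, hP']
    group
  refine ⟨(f P)⁻¹ * n0, ?_⟩
  calc (f P)⁻¹ * n0 * f w * ((f P)⁻¹ * n0)⁻¹ = (f P)⁻¹ * (n0 * f w * n0⁻¹) * f P := by group
    _ = (f w)⁻¹ := by
      rw [h1, h2, map_mul, map_mul, map_inv, map_inv]
      group
-- END ue

-- BEGIN uf
/-- MODULE uf. Small facts.  Levels: `lev r ≤ 3` (`ThE.d_bound`, `n ≤ 8`). -/
theorem lev_lt (hn : n ≤ 8) (r : Root n) : lev r.1 < (4 : ℕ) := by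
  have h := (d_bound hn r).2
  show r.1.1 < ((4 : ℕ) : ℤ)
  omega

theorem lev_add (v w : Vec n) : lev (v + w) = lev v + lev w := rfl

/-- `f M ∈ Lv x lev` (`el_gen`: enough for `M = el K i j a`; `lev (e_i - e_j) = 0`) -/
theorem HomY.mem {x : Root n → K → G} {f : Matrix.SpecialLinearGroup (Fin n) K →* G} (hf : HomY x f) (M : Matrix.SpecialLinearGroup (Fin n) K) :
    f M ∈ Lv x lev := by
  have h1 : Subgroup.closure {g : Matrix.SpecialLinearGroup (Fin n) K | ∃ i j a, i ≠ j ∧ g = el K i j a} ≤ (Lv x lev).comap f := by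
    rw [Subgroup.closure_le]
    rintro g ⟨i, j, a, hij, rfl⟩
    show f (el K i j a) ∈ Lv x lev
    rw [hf i j hij a, yy, dif_pos hij]
    exact Subgroup.subset_closure ⟨er hij, _, rfl, rfl⟩
  rw [el_gen] at h1
  exact h1 (Subgroup.mem_top M)

/-- `sta_yy` and `pres` -/
theorem exists_HomY (hn : n = 6 ∨ n = 7 ∨ n = 8) {x : Root n → K → G} (h : Stb K n x) : ∃ f : Matrix.SpecialLinearGroup (Fin n) K →* G, HomY x f :=
  pres (sta_yy hn h)
-- END uf

-- BEGIN ug
/-- MODULE ug. If `b` is conjugate in the Levi subgroup to `b0` with `Sur` for both systems, then `v b` (`v ∈ Uk (op x) l 1`) and `b u` (`u ∈ Uk x l 1`) are conjugate to `b0`. (`Sur.conj`, `conj_left` for `op x` (`Stb.op`, `Lv_op`), `conj_right`.) -/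
theorem absorb {x : Root n → K → G} (h : Stb K n x) {l : Vec n → ℤ} (hl : ∀ v w, l (v + w) = l v + l w) {m : ℕ} (hm : ∀ r : Root n, l r.1 < m)
    {b0 p : G} (hb : b0 ∈ Lv x l) (hp : p ∈ Lv x l) (hs : ∀ k, 1 ≤ k → Sur x l b0 k) (hs' : ∀ k, 1 ≤ k → Sur (op x) l b0 k) :
    (∀ v ∈ Uk (op x) l 1, ∃ c : G, v * (p * b0 * p⁻¹) = c * b0 * c⁻¹) ∧ ∀ u ∈ Uk x l 1, ∃ c : G, (p * b0 * p⁻¹) * u = c * b0 * c⁻¹ := by
  have hp' : p ∈ Lv (op x) l := by rw [Lv_op x hl]; exact hp
  have hbb : p * b0 * p⁻¹ ∈ Lv x l :=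
    (Lv x l).mul_mem ((Lv x l).mul_mem hp hb) ((Lv x l).inv_mem hp)
  refine ⟨fun v hv => ?_, fun u hu => ?_⟩
  · obtain ⟨y, -, hy⟩ := conj_left (x := op x) (l := l) hm
      (fun k hk => Sur.conj (Stb.op h) hl hk hp' (hs' k hk)) hv
    refine ⟨y * p, ?_⟩
    have h1 : v * (p * b0 * p⁻¹) = y * (y⁻¹ * (v * (p * b0 * p⁻¹)) * y) * y⁻¹ := by group
    rw [h1, hy]
    group
  · obtain ⟨y, -, hy⟩ := conj_right h hl hm hbb
      (fun k hk => Sur.conj h hl hk hp (hs k hk)) hu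
    refine ⟨y * p, ?_⟩
    have h1 : (p * b0 * p⁻¹) * u = y * (y⁻¹ * ((p * b0 * p⁻¹) * u) * y) * y⁻¹ := by group
    rw [h1, hy]
    group
-- END ug

-- BEGIN uh
/-- MODULE uh. MAIN THEOREM for `E_7`, `E_8`, `|K| ≥ 3`.  `f` from `exists_HomY`, `w` from `exists_w78`, `b = f w`.  `z` not central: `gauss78`, `ThPL.prodSL` (`3 ∤ n`): `M = P w P⁻¹ (Q w Q⁻¹)`, `c z c⁻¹ = (v f(P) b f(P)⁻¹) (f(Q) b f(Q)⁻¹ u)`; `absorb`. -/
theorem main78 (hn : n = 7 ∨ n = 8) [Finite K] (hK : ∃ d : K, d ≠ 0 ∧ d ≠ 1) {x : Root n → K → G} (h : Stb K n x) :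
    ∃ b : G, (∀ z : G, z ∉ Subgroup.center G → ∃ a c : G, z = a * b * a⁻¹ * (c * b * c⁻¹)) ∧ ∃ c : G, c * b * c⁻¹ = b⁻¹ := by
  have hn' : n = 6 ∨ n = 7 ∨ n = 8 := Or.inr hn
  have hn8 : n ≤ 8 := by omega
  have h3 : ¬ 3 ∣ n := by omega
  obtain ⟨f, hf⟩ := exists_HomY hn' h
  obtain ⟨w, l, f0, hirr, hmon, hdeg, hchar, hsur⟩ := exists_w78 hn K hK
  have hS := hsur G x f h hf
  refine ⟨f w, fun z hz => ?_, real78 hn h hf hirr hmon hdeg hchar⟩
  obtain ⟨c, v, hv, M, hM, u, hu, hc⟩ := gauss78 hn hK h hf hz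
  obtain ⟨P, Q, hPQ⟩ := ThPL.prodSL hK (Or.inl h3) w hirr hmon hdeg hchar M hM
  have hP := absorb h (l := lev) lev_add (lev_lt hn8) (hf.mem w) (hf.mem P) (fun k hk => (hS k hk).1)
    (fun k hk => (hS k hk).2)
  have hQ := absorb h (l := lev) lev_add (lev_lt hn8) (hf.mem w) (hf.mem Q) (fun k hk => (hS k hk).1)
    (fun k hk => (hS k hk).2)
  obtain ⟨c1, h1⟩ := hP.1 v hv
  obtain ⟨c2, h2⟩ := hQ.2 u hu
  have hfM : f M = f P * f w * (f P)⁻¹ * (f Q * f w * (f Q)⁻¹) := by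
    rw [hPQ, map_mul, map_mul, map_mul, map_mul, map_mul, map_inv, map_inv]
  have h4 : c * z * c⁻¹ = c1 * f w * c1⁻¹ * (c2 * f w * c2⁻¹) := by
    rw [hc, hfM, ← h1, ← h2]
    group
  refine ⟨c⁻¹ * c1, c⁻¹ * c2, ?_⟩
  have h5 : z = c⁻¹ * (c * z * c⁻¹) * c := by group
  rw [h5, h4]
  group
-- END uh

-- BEGIN ui
/-- MODULE ui. The field with two elements: `Stb K n x` gives `ThE.Stb n (fun r => x r 1)` if every element of `K` is `0` or `1` (then `2 = 0`, `ep = 1`). -/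
theorem stb_two (h2 : ∀ a : K, a = 0 ∨ a = 1) {x : Root n → K → G} (h : Stb K n x) : ThE.Stb n (fun r => x r 1) where
  sq r := by
    have e : (1 : K) + 1 = 0 := by
      rcases h2 (1 + 1) with e | e
      · exact e
      · exact absurd (add_eq_left.mp e) one_ne_zero
    show x r 1 * x r 1 = 1
    rw [← h.add, e, Stb.zero h]
  add r s t ht := by
    have e : (ep K r.1 s.1 : K) = 1 := by
      rcases h2 (ep K r.1 s.1 : K) with e | e
      · exact absurd e (Units.ne_zero _)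
      · exact e
    show x r 1 * x s 1 * (x r 1)⁻¹ * (x s 1)⁻¹ = x t 1
    rw [h.sum r s t ht, e, one_mul, one_mul]
  comm r s h0 h1 := h.comm r s h0 h1 1 1
  gen := by
    refine top_unique ?_
    rw [← h.gen, Subgroup.closure_le]
    rintro g ⟨r, a, rfl⟩
    rcases h2 a with rfl | rfl
    · rw [Stb.zero h]
      exact Subgroup.one_mem _
    · exact Subgroup.subset_closure ⟨r, rfl⟩

/-- all finite fields, `n = 7, 8`: `main78`, or `ThE.main` (with `n = 4 + 3`, `4 + 4`) -/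
theorem main78' (hn : n = 7 ∨ n = 8) [Finite K] {x : Root n → K → G} (h : Stb K n x) :
    ∃ b : G, (∀ z : G, z ∉ Subgroup.center G → ∃ a c : G, z = a * b * a⁻¹ * (c * b * c⁻¹)) ∧ ∃ a c : G, 1 = a * b * a⁻¹ * (c * b * c⁻¹) := by
  by_cases hK : ∃ d : K, d ≠ 0 ∧ d ≠ 1
  · obtain ⟨b, h1, c, hc⟩ := main78 hn hK h
    refine ⟨b, h1, 1, c, ?_⟩
    rw [hc, one_mul, inv_one, mul_one, mul_inv_cancel]
  · have h2 : ∀ a : K, a = 0 ∨ a = 1 := by
      intro a
      by_contra hc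
      rw [not_or] at hc
      exact hK ⟨a, hc.1, hc.2⟩
    have key : ∃ b : G, ∀ z : G, ∃ a c : G, z = a * b * a⁻¹ * (c * b * c⁻¹) := by
      rcases hn with rfl | rfl
      · exact ThE.main (m := 3) (Or.inl rfl) (stb_two h2 h)
      · exact ThE.main (m := 4) (Or.inr rfl) (stb_two h2 h)
    obtain ⟨b, hb⟩ := key
    exact ⟨b, fun z _ => hb z, hb 1⟩
-- END ui

-- BEGIN uj
/-- MODULE uj. Passage to the quotient by the centre. -/
theorem quot_main (h : ∃ b : G, (∀ z : G, z ∉ Subgroup.center G → ∃ a c : G, z = a * b * a⁻¹ * (c * b * c⁻¹)) ∧ ∃ a c : G, 1 = a * b * a⁻¹ * (c * b * c⁻¹)) :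
    ∃ g : G ⧸ Subgroup.center G, ∀ z : G ⧸ Subgroup.center G, ∃ x y, IsConj g x ∧ IsConj g y ∧ x * y = z := by
  obtain ⟨b, h1, a0, c0, h2⟩ := h
  have key : ∀ a c z0 : G, z0 = a * b * a⁻¹ * (c * b * c⁻¹) →
      ∃ x y : G ⧸ Subgroup.center G, IsConj (b : G ⧸ Subgroup.center G) x ∧ IsConj (b : G ⧸ Subgroup.center G) y ∧ x * y = (z0 : G ⧸ Subgroup.center G) := by
    intro a c z0 hz
    refine ⟨((a * b * a⁻¹ : G) : G ⧸ Subgroup.center G), ((c * b * c⁻¹ : G) : G ⧸ Subgroup.center G), ?_, ?_, ?_⟩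
    · exact isConj_iff.mpr ⟨(a : G ⧸ Subgroup.center G), rfl⟩
    · exact isConj_iff.mpr ⟨(c : G ⧸ Subgroup.center G), rfl⟩
    · rw [hz]
      rfl
  refine ⟨(b : G ⧸ Subgroup.center G), fun z => ?_⟩
  obtain ⟨z0, rfl⟩ := QuotientGroup.mk_surjective z
  by_cases hz : z0 ∈ Subgroup.center G
  · obtain ⟨x, y, hx, hy, hxy⟩ := key a0 c0 1 h2
    refine ⟨x, y, hx, hy, ?_⟩
    rw [hxy]
    exact ((QuotientGroup.eq_one_iff z0).mpr hz).symm
  · obtain ⟨a, c, hac⟩ := h1 z0 hz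
    exact key a c z0 hac
-- END uj

end ThK
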