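import Pool.Agent.ThK.Mat2

/-! # Groups with rank one subgroups: Gauss decomposition and the reachable torus elements (abstract)

Nodes `i : ι`, fields `F i`, homomorphisms `th i : SL_2(F i) →* G`, torus elements `h z` (`z : ∀ i, (F i)ˣ`), `χ i z` the number with `h z * th i (up a) * (h z)⁻¹ = th i (up (χ i z * a))`, the unipotent subgroups `U`, `V` and
`Ui i`, `Vi i` (`U = X_i U_i`, `V = V_i X_(-i)`).
-/

namespace ThG

variable {ι : Type*} [DecidableEq ι] {F : ι → Type*} [∀ i, Field (F i)] {G : Type*} [Group G]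

/-- the axioms for the rank one subgroups -/
structure Dat (th : ∀ i, SL2 (F i) →* G) (h : (∀ i, (F i)ˣ) → G) (χ : ∀ i, (∀ i, (F i)ˣ) → (F i)ˣ) (U V : Subgroup G) (Ui Vi : ι → Subgroup G) : Prop where
  gen : Subgroup.closure {g : G | ∃ i a, g = th i (up a) ∨ g = th i (lo a)} = ⊤
  Uup : ∀ i a, ∀ u ∈ Ui i, th i (up a) * u * (th i (up a))⁻¹ ∈ Ui i
  Ulo : ∀ i a, ∀ u ∈ Ui i, th i (lo a) * u * (th i (lo a))⁻¹ ∈ Ui i
  Vup : ∀ i a, ∀ v ∈ Vi i, th i (up a) * v * (th i (up a))⁻¹ ∈ Vi i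
  Vlo : ∀ i a, ∀ v ∈ Vi i, th i (lo a) * v * (th i (lo a))⁻¹ ∈ Vi i
  Uh : ∀ i z, ∀ u ∈ Ui i, h z * u * (h z)⁻¹ ∈ Ui i
  Vh : ∀ i z, ∀ v ∈ Vi i, h z * v * (h z)⁻¹ ∈ Vi i
  UiU : ∀ i, Ui i ≤ U
  ViV : ∀ i, Vi i ≤ V
  upU : ∀ i a, th i (up a) ∈ U
  loV : ∀ i a, th i (lo a) ∈ V
  sU : ∀ i, ∀ u ∈ U, ∃ a, ∃ u' ∈ Ui i, u = th i (up a) * u'
  sV : ∀ i, ∀ v ∈ V, ∃ a, ∃ v' ∈ Vi i, v = th i (lo a) * v'
  mul : ∀ z w, h (z * w) = h z * h w
  aup : ∀ i z a, h z * th i (up a) * (h z)⁻¹ = th i (up ((χ i z : F i) * a))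
  alo : ∀ i z a, h z * th i (lo a) * (h z)⁻¹ = th i (lo ((((χ i z)⁻¹ : (F i)ˣ) : F i) * a))
  upd : ∀ i z (t : (F i)ˣ), th i (dg t) * h z = h (Function.update z i (t * z i))
  cup : ∀ i z (t : (F i)ˣ), χ i (Function.update z i (t * z i)) = t * t * χ i z

/-- `g = v * (element of the node i which is not scalar) * u`, torus part `h z` -/
def NS (th : ∀ i, SL2 (F i) →* G) (h : (∀ i, (F i)ˣ) → G) (χ : ∀ i, (∀ i, (F i)ˣ) → (F i)ˣ) (Ui Vi : ι → Subgroup G) (i : ι) (g : G) (z : ∀ i, (F i)ˣ) : Prop :=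
  ∃ v ∈ Vi i, ∃ u ∈ Ui i, ∃ c b : F i, g = v * th i (lo c) * h z * th i (up b) * u ∧ ¬ (c = 0 ∧ b = 0 ∧ χ i z = 1)

variable {th : ∀ i, SL2 (F i) →* G} {h : (∀ i, (F i)ˣ) → G} {χ : ∀ i, (∀ i, (F i)ˣ) → (F i)ˣ} {U V : Subgroup G} {Ui Vi : ι → Subgroup G}

-- BEGIN ga
/-- MODULE ga. From `D.mul`. -/
theorem Dat.one (D : Dat th h χ U V Ui Vi) : h 1 = 1 := by
  have h1 := D.mul 1 1
  rw [mul_one] at h1
  exact (mul_eq_left.mp h1.symm)

theorem Dat.inv (D : Dat th h χ U V Ui Vi) (z : ∀ i, (F i)ˣ) : (h z)⁻¹ = h z⁻¹ := by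
  have h1 := D.mul z z⁻¹
  rw [mul_inv_cancel, D.one] at h1
  exact inv_eq_of_mul_eq_one_right h1.symm

/-- A subgroup `H` that is stable under conjugation with the `f (up a)`, `f (lo a)` is stable under conjugation with all `f Y`: `SL_2` is generated by the `up a`, `lo a`, whose inverses are of the same form. -/
private theorem ga_conj {F' : Type*} [Field F'] (f : SL2 F' →* G) (H : Subgroup G)
    (h1 : ∀ a, ∀ u ∈ H, f (up a) * u * (f (up a))⁻¹ ∈ H)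
    (h2 : ∀ a, ∀ u ∈ H, f (lo a) * u * (f (lo a))⁻¹ ∈ H) (Y : SL2 F') :
    ∀ u ∈ H, f Y * u * (f Y)⁻¹ ∈ H := by
  have key : (∀ u ∈ H, f Y * u * (f Y)⁻¹ ∈ H) ∧ (∀ u ∈ H, (f Y)⁻¹ * u * f Y ∈ H) := by
    have hY : Y ∈ Subgroup.closure {g : SL2 F' | ∃ a, g = up a ∨ g = lo a} := by
      rw [sl2_gen]
      exact Subgroup.mem_top Y
    induction hY using Subgroup.closure_induction with
    | mem x hx =>
      obtain ⟨a, rfl | rfl⟩ := hx
      · refine ⟨h1 a, fun u hu => ?_⟩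
        have h3 := h1 (-a) u hu
        rwa [← up_inv, map_inv, inv_inv] at h3
      · refine ⟨h2 a, fun u hu => ?_⟩
        have h3 := h2 (-a) u hu
        rwa [← lo_inv, map_inv, inv_inv] at h3
    | one =>
      refine ⟨fun u hu => ?_, fun u hu => ?_⟩
      · simpa using hu
      · simpa using hu
    | mul x y _ _ hx hy =>
      refine ⟨fun u hu => ?_, fun u hu => ?_⟩
      · have h3 := hx.1 _ (hy.1 u hu)
        have e : f (x * y) * u * (f (x * y))⁻¹ = f x * (f y * u * (f y)⁻¹) * (f x)⁻¹ := by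
          rw [map_mul]
          group
        rw [e]
        exact h3
      · have h3 := hy.2 _ (hx.2 u hu)
        have e : (f (x * y))⁻¹ * u * f (x * y) = (f y)⁻¹ * ((f x)⁻¹ * u * f x) * f y := by
          rw [map_mul]
          group
        rw [e]
        exact h3
    | inv x _ hx =>
      refine ⟨fun u hu => ?_, fun u hu => ?_⟩
      · rw [map_inv, inv_inv]
        exact hx.2 u hu
      · rw [map_inv, inv_inv]
        exact hx.1 u hu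
  exact key.1

/-- `SL_2` is generated by the `up a`, `lo a` (`sl2_gen`, `Subgroup.closure_induction`) -/
theorem Dat.nU (D : Dat th h χ U V Ui Vi) (i : ι) (Y : SL2 (F i)) {u : G} (hu : u ∈ Ui i) : th i Y * u * (th i Y)⁻¹ ∈ Ui i := by
  exact ga_conj (th i) (Ui i) (D.Uup i) (D.Ulo i) Y u hu

theorem Dat.nV (D : Dat th h χ U V Ui Vi) (i : ι) (Y : SL2 (F i)) {v : G} (hv : v ∈ Vi i) : th i Y * v * (th i Y)⁻¹ ∈ Vi i := by
  exact ga_conj (th i) (Vi i) (D.Vup i) (D.Vlo i) Y v hv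

/-- `sl2_gen` (both sides are homomorphisms in `M`) and `D.aup`, `D.alo`, `cj_up`, `cj_lo` -/
theorem Dat.act (D : Dat th h χ U V Ui Vi) (i : ι) (z : ∀ i, (F i)ˣ) (M : SL2 (F i)) : h z * th i M * (h z)⁻¹ = th i (cj (χ i z) M) := by
  have hM : M ∈ Subgroup.closure {g : SL2 (F i) | ∃ a, g = up a ∨ g = lo a} := by
    rw [sl2_gen]
    exact Subgroup.mem_top M
  induction hM using Subgroup.closure_induction with
  | mem x hx =>
    obtain ⟨a, rfl | rfl⟩ := hx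
    · rw [D.aup, cj_up]
    · rw [D.alo, cj_lo]
  | one => simp
  | mul x y _ _ hx hy =>
    rw [map_mul, map_mul, map_mul, ← hx, ← hy]
    group
  | inv x _ hx =>
    rw [map_inv, map_inv, map_inv, ← hx]
    group
-- END ga

-- BEGIN gb
private theorem gb_one (D : Dat th h χ U V Ui Vi) : h 1 = 1 := by
  have := D.mul 1 1
  rw [mul_one] at this
  exact (mul_eq_left.mp this.symm)

private theorem gb_inv (D : Dat th h χ U V Ui Vi) (z : ∀ i, (F i)ˣ) : (h z)⁻¹ = h z⁻¹ := by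
  rw [inv_eq_iff_mul_eq_one, ← D.mul, mul_inv_cancel, gb_one D]

private theorem gb_lo (D : Dat th h χ U V Ui Vi) (i : ι) (a : F i) {g : G} (hg : ∃ u₁ ∈ U, ∃ v ∈ V, ∃ z, ∃ u₂ ∈ U, g = u₁ * v * h z * u₂) :
    ∃ u₁ ∈ U, ∃ v ∈ V, ∃ z, ∃ u₂ ∈ U, th i (lo a) * g = u₁ * v * h z * u₂ := by
  obtain ⟨u₁, hu₁, v, hv, z, u₂, hu₂, rfl⟩ := hg
  obtain ⟨b, u', hu', rfl⟩ := D.sU i u₁ hu₁
  obtain ⟨c, v', hv', rfl⟩ := D.sV i v hv
  obtain ⟨a', b', t, c', e⟩ := uldu (lo a * up b * lo c)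
  have e2 : th i (lo a) * th i (up b) * th i (lo c) = th i (up a') * th i (lo b') * th i (dg t) * th i (up c') := by
    rw [← map_mul, ← map_mul, e, map_mul, map_mul, map_mul]
  have hu'' := D.Uup i b u' hu'
  have hu3 := D.Ulo i a _ hu''
  have hv'' := D.nV i (dg t * up c') hv'
  have e3 := D.aup i z⁻¹ c'
  rw [← gb_inv D, inv_inv] at e3
  have e4 := D.upd i z t
  refine ⟨_, U.mul_mem (D.UiU i hu3) (D.upU i a'), _, V.mul_mem (D.loV i b') (D.ViV i hv''), Function.update z i (t * z i), _,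
    U.mul_mem (D.upU i (((χ i z⁻¹ : (F i)ˣ) : F i) * c')) hu₂, ?_⟩
  rw [← e3, ← e4, map_mul]
  have e5 : th i (up c') = (th i (dg t))⁻¹ * (th i (lo b'))⁻¹ * (th i (up a'))⁻¹ * (th i (lo a) * th i (up b) * th i (lo c)) := by
    rw [e2]
    group
  rw [e5]
  group

/-- MODULE gb. THE BIG CELL. The set of the `u₁ * v * h z * u₂` is stable under left multiplication by `th i (up a)` (trivial: `D.upU`) and by `th i (lo a)`: `u₁ = u' * th i (up b)` (`D.sU`, `D.nU`), `v = th i (lo c) * v'` (`D.sV`), and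
`th i (lo a) * u' * th i (up b) * th i (lo c) * v' * h z * u₂ = (th i (lo a) * u' * (th i (lo a))⁻¹) * th i (lo a * up b * lo c) * v' * h z * u₂`; `lo a * up b * lo c = up a' * lo b' * dg t * up c'` (`uldu`); move `th i (dg t * up c')` to the right of `v'`
(`D.nV`), then `th i (dg t * up c') * h z = th i (dg t) * h z * (h z⁻¹ * th i (up c') * (h z⁻¹)⁻¹)` and `D.upd`, `D.aup`.  `1` is in the set; `D.gen` (`Subgroup.closure_induction_left`, the inverses of the generators are generators). -/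
theorem Dat.big (D : Dat th h χ U V Ui Vi) (g : G) : ∃ u₁ ∈ U, ∃ v ∈ V, ∃ z, ∃ u₂ ∈ U, g = u₁ * v * h z * u₂ := by
  have key : ∀ i (a : F i), ∀ x, (x = th i (up a) ∨ x = th i (lo a)) → ∀ y, (∃ u₁ ∈ U, ∃ v ∈ V, ∃ z, ∃ u₂ ∈ U, y = u₁ * v * h z * u₂) →
      ∃ u₁ ∈ U, ∃ v ∈ V, ∃ z, ∃ u₂ ∈ U, x * y = u₁ * v * h z * u₂ := by
    rintro i a x (rfl | rfl) y hy
    · obtain ⟨u₁, hu₁, v, hv, z, u₂, hu₂, rfl⟩ := hy
      exact ⟨_, U.mul_mem (D.upU i a) hu₁, v, hv, z, u₂, hu₂, by group⟩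
    · exact gb_lo D i a hy
  have hg : g ∈ Subgroup.closure {g : G | ∃ i a, g = th i (up a) ∨ g = th i (lo a)} := by
    rw [D.gen]
    exact Subgroup.mem_top g
  induction hg using Subgroup.closure_induction_left with
  | one => exact ⟨1, U.one_mem, 1, V.one_mem, 1, 1, U.one_mem, by rw [gb_one D]; group⟩
  | mul_left x hx y hy ih =>
    obtain ⟨i, a, hx⟩ := hx
    exact key i a x hx y ih
  | inv_mul_cancel x hx y hy ih =>
    obtain ⟨i, a, hx⟩ := hx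
    refine key i (-a) x⁻¹ ?_ y ih
    rcases hx with rfl | rfl
    · left
      rw [← map_inv, up_inv]
    · right
      rw [← map_inv, lo_inv]

/-- conjugate with `u₁⁻¹` -/
theorem Dat.tri (D : Dat th h χ U V Ui Vi) (g : G) : ∃ (c : G), ∃ v ∈ V, ∃ z, ∃ u ∈ U, c * g * c⁻¹ = v * h z * u := by
  obtain ⟨u₁, hu₁, v, hv, z, u₂, hu₂, rfl⟩ := D.big g
  exact ⟨u₁⁻¹, v, hv, z, u₂ * u₁, U.mul_mem hu₂ hu₁, by group⟩
-- END gb

-- BEGIN gc
/-- MODULE gc. Conjugate `g = v * th i (lo c) * h z * th i (up b) * u` with `y = th i Y`, `Y` from `mat_move` (`χ := χ i z`, `τ = t / z i`): `y * v * y⁻¹ ∈ Vi i`, `y * u * y⁻¹ ∈ Ui i` (`D.nV`, `D.nU`) and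
`y * th i (lo c) * h z * th i (up b) * y⁻¹ = th i (Y * lo c * cj χ (up b * Y⁻¹)) * h z` (`D.act`) `= th i (lo c') * th i (dg τ) * th i (up (χ b')) * h z = th i (lo c') * h z' * th i (up b')` (`D.aup`, `D.upd`); `D.cup`. -/
theorem NS.move (D : Dat th h χ U V Ui Vi) {i : ι} {g : G} {z : ∀ i, (F i)ˣ} (hg : NS th h χ Ui Vi i g z) (t : (F i)ˣ) :
    ∃ c : G, NS th h χ Ui Vi i (c * g * c⁻¹) (Function.update z i t) := by
  obtain ⟨v, hv, u, hu, c, b, rfl, hn⟩ := hg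
  obtain ⟨Y, c', b', h1, h2⟩ := mat_move (χ i z) (t * (z i)⁻¹) c b hn
  have ht : t * (z i)⁻¹ * z i = t := inv_mul_cancel_right t (z i)
  refine ⟨th i Y, th i Y * v * (th i Y)⁻¹, D.nV i Y hv, th i Y * u * (th i Y)⁻¹, D.nU i Y hu,
    c', b', ?_, ?_⟩
  · have e1 : th i Y * (v * th i (lo c) * h z * th i (up b) * u) * (th i Y)⁻¹ =
        th i Y * v * (th i Y)⁻¹ * ((th i Y * th i (lo c) *
          (h z * (th i (up b) * (th i Y)⁻¹) * (h z)⁻¹)) * h z) * (th i Y * u * (th i Y)⁻¹) := by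
      group
    have e2 : th i (up b) * (th i Y)⁻¹ = th i (up b * Y⁻¹) := by rw [map_mul, map_inv]
    have e3 : th i Y * th i (lo c) * th i (cj (χ i z) (up b * Y⁻¹)) =
        th i (lo c') * th i (dg (t * (z i)⁻¹)) * th i (up ((χ i z : F i) * b')) := by
      rw [← map_mul, ← map_mul, h1, map_mul, map_mul]
    have e4 : th i (lo c') * th i (dg (t * (z i)⁻¹)) * (h z * th i (up b') * (h z)⁻¹) * h z =
        th i (lo c') * (th i (dg (t * (z i)⁻¹)) * h z) * th i (up b') := by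
      group
    have e5 : th i Y * v * (th i Y)⁻¹ * (th i (lo c') * h (Function.update z i t) * th i (up b')) *
        (th i Y * u * (th i Y)⁻¹) = th i Y * v * (th i Y)⁻¹ * th i (lo c') *
          h (Function.update z i t) * th i (up b') * (th i Y * u * (th i Y)⁻¹) := by
      group
    rw [e1, e2, D.act, e3, ← D.aup, e4, D.upd, ht, e5]
  · rintro ⟨h3, h4, h5⟩
    apply h2
    refine ⟨h3, h4, ?_⟩
    rw [← D.cup, ht]
    exact h5
-- END gc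

-- BEGIN gd
/-- MODULE gd. `v = v' * th i (lo c)` (`D.sV`, `D.nV`), `u = th i (up b) * u'` (`D.sU`). -/
theorem NS.of_tri (D : Dat th h χ U V Ui Vi) {j : ι} {v u : G} {z : ∀ i, (F i)ˣ} (hv : v ∈ V) (hu : u ∈ U) (hz : χ j z ≠ 1) : NS th h χ Ui Vi j (v * h z * u) z := by
  obtain ⟨a, v', hv', rfl⟩ := D.sV j v hv
  obtain ⟨b, u', hu', rfl⟩ := D.sU j u hu
  refine ⟨th j (lo a) * v' * (th j (lo a))⁻¹, D.Vlo j a v' hv', u', hu', a, b, ?_, fun h1 => hz h1.2.2⟩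
  group

/-- `D.ViV`, `D.UiU`, `D.loV`, `D.upU` and `NS.of_tri` -/
theorem NS.step (D : Dat th h χ U V Ui Vi) {i j : ι} {g : G} {z : ∀ i, (F i)ˣ} (hg : NS th h χ Ui Vi i g z) (hz : χ j z ≠ 1) : NS th h χ Ui Vi j g z := by
  obtain ⟨v, hv, u, hu, c, b, rfl, -⟩ := hg
  have e1 : v * th i (lo c) * h z * th i (up b) * u = (v * th i (lo c)) * h z * (th i (up b) * u) := by
    group
  rw [e1]
  exact NS.of_tri D (V.mul_mem (D.ViV i hv) (D.loV i c)) (U.mul_mem (D.upU i b) (D.UiU i hu)) hz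

/-- `h z` commutes with all `th i M` (`D.act`, `cj_one`), `D.gen` -/
theorem Dat.center (D : Dat th h χ U V Ui Vi) {z : ∀ i, (F i)ˣ} (hz : ∀ i, χ i z = 1) : h z ∈ Subgroup.center G := by
  have h1 : ∀ i (M : SL2 (F i)), h z * th i M = th i M * h z := by
    intro i M
    have h2 := D.act i z M
    rw [hz i, cj_one] at h2
    exact mul_inv_eq_iff_eq_mul.1 h2
  have h3 : Subgroup.closure {g : G | ∃ i a, g = th i (up a) ∨ g = th i (lo a)} ≤
      Subgroup.centralizer {h z} := by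
    rw [Subgroup.closure_le]
    rintro g ⟨i, a, rfl | rfl⟩
    · exact Subgroup.mem_centralizer_singleton_iff.2 (h1 i (up a)).symm
    · exact Subgroup.mem_centralizer_singleton_iff.2 (h1 i (lo a)).symm
  rw [D.gen] at h3
  rw [Subgroup.mem_center_iff]
  intro g
  exact Subgroup.mem_centralizer_singleton_iff.1 (h3 (Subgroup.mem_top g))
-- END gd

/-- the axioms for the root elements: `X r` is the set of the elements `≠ 1` of the root subgroup of the positive root `r`, `Y r` the same for `-r`; `a i` the simple roots, `w i` the reflections, `nn i` their representatives -/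
structure Let {R : Type*} (th : ∀ i, SL2 (F i) →* G) (h : (∀ i, (F i)ˣ) → G) (U V : Subgroup G) (Ui Vi : ι → Subgroup G) (pos : R → Prop) (ht : R → ℕ) (a : ι → R) (w : ι → R → R) (nn : ι → G)
    (X Y : R → Set G) : Prop where
  nfU : ∀ u ∈ U, ∃ L : List (R × G), (L.map Prod.fst).Nodup ∧ (∀ p ∈ L, pos p.1 ∧ p.2 ∈ X p.1) ∧ u = (L.map Prod.snd).prod
  nfV : ∀ v ∈ V, ∃ L : List (R × G), (L.map Prod.fst).Nodup ∧ (∀ p ∈ L, pos p.1 ∧ p.2 ∈ Y p.1) ∧ v = (L.map Prod.snd).prod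
  nX : ∀ i r, pos r → r ≠ a i → ∀ g ∈ X r, nn i * g * (nn i)⁻¹ ∈ X (w i r)
  nY : ∀ i r, pos r → r ≠ a i → ∀ g ∈ Y r, nn i * g * (nn i)⁻¹ ∈ Y (w i r)
  wp : ∀ i r, pos r → r ≠ a i → pos (w i r)
  wi : ∀ i r s, pos r → pos s → r ≠ a i → s ≠ a i → w i r = w i s → r = s
  wh : ∀ r, pos r → (∃ i, r = a i) ∨ ∃ i, ht (w i r) < ht r
  XU : ∀ i r, pos r → r ≠ a i → ∀ g ∈ X r, g ∈ Ui i
  YV : ∀ i r, pos r → r ≠ a i → ∀ g ∈ Y r, g ∈ Vi i
  Xa : ∀ i, ∀ g ∈ X (a i), ∃ b : F i, b ≠ 0 ∧ g = th i (up b)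
  Ya : ∀ i, ∀ g ∈ Y (a i), ∃ b : F i, b ≠ 0 ∧ g = th i (lo b)
  nh : ∀ i z, ∃ z', nn i * h z * (nn i)⁻¹ = h z'

variable {R : Type*} {pos : R → Prop} {ht : R → ℕ} {a : ι → R} {w : ι → R → R} {nn : ι → G} {X Y : R → Set G}

-- BEGIN ge
private theorem ge_prod {R' : Type*} {Q : Subgroup G} {L : List (R' × G)} (hL : ∀ p ∈ L, p.2 ∈ Q) :
    (L.map Prod.snd).prod ∈ Q := by
  refine Subgroup.list_prod_mem Q ?_
  intro x hx
  obtain ⟨p, hp, rfl⟩ := List.mem_map.1 hx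
  exact hL p hp

omit [Group G] in
private theorem ge_split {R' : Type*} {L : List (R' × G)} (h1 : (L.map Prod.fst).Nodup) {p : R' × G} (hp : p ∈ L) :
    ∃ L₁ L₂ : List (R' × G), L = L₁ ++ p :: L₂ ∧ (∀ q ∈ L₁, q.1 ≠ p.1) ∧ ∀ q ∈ L₂, q.1 ≠ p.1 := by
  obtain ⟨L₁, L₂, rfl⟩ := List.append_of_mem hp
  refine ⟨L₁, L₂, rfl, ?_, ?_⟩
  · intro q hq he
    rw [List.map_append, List.nodup_append] at h1
    refine h1.2.2 q.1 (List.mem_map.2 ⟨q, hq, rfl⟩) p.1 ?_ he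
    simp
  · intro q hq he
    rw [List.map_append, List.nodup_append] at h1
    have h3 := h1.2.1
    rw [List.map_cons, List.nodup_cons] at h3
    exact h3.1 (he ▸ List.mem_map.2 ⟨q, hq, rfl⟩)

/-- MODULE ge. `L = L₁ ++ p :: L₂`, the roots in `L₁`, `L₂` are not `a i`; the product of `L₁` is in `Ui i`, which is normalized by `p.2 = th i (up b)`. -/
theorem Let.simpleU (D : Dat th h χ U V Ui Vi) (E : Let th h U V Ui Vi pos ht a w nn X Y) {L : List (R × G)} (h1 : (L.map Prod.fst).Nodup) (h2 : ∀ p ∈ L, pos p.1 ∧ p.2 ∈ X p.1)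
    {i : ι} {p : R × G} (hp : p ∈ L) (hi : p.1 = a i) : ∃ b : F i, b ≠ 0 ∧ ∃ u ∈ Ui i, (L.map Prod.snd).prod = th i (up b) * u := by
  obtain ⟨L₁, L₂, rfl, h3, h4⟩ := ge_split h1 hp
  obtain ⟨b, hb, hpb⟩ := E.Xa i p.2 (hi ▸ (h2 p hp).2)
  have m1 : (L₁.map Prod.snd).prod ∈ Ui i := ge_prod fun q hq => by
    have h5 := h2 q (List.mem_append_left _ hq)
    exact E.XU i q.1 h5.1 (fun he => h3 q hq (he.trans hi.symm)) q.2 h5.2
  have m2 : (L₂.map Prod.snd).prod ∈ Ui i := ge_prod fun q hq => by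
    have h5 := h2 q (List.mem_append_right _ (List.mem_cons_of_mem _ hq))
    exact E.XU i q.1 h5.1 (fun he => h4 q hq (he.trans hi.symm)) q.2 h5.2
  have m3 := D.nU i (up b)⁻¹ m1
  rw [map_inv, inv_inv] at m3
  refine ⟨b, hb, _, mul_mem m3 m2, ?_⟩
  rw [List.map_append, List.prod_append, List.map_cons, List.prod_cons, hpb]
  group

theorem Let.simpleV (D : Dat th h χ U V Ui Vi) (E : Let th h U V Ui Vi pos ht a w nn X Y) {L : List (R × G)} (h1 : (L.map Prod.fst).Nodup) (h2 : ∀ p ∈ L, pos p.1 ∧ p.2 ∈ Y p.1)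
    {i : ι} {p : R × G} (hp : p ∈ L) (hi : p.1 = a i) : ∃ b : F i, b ≠ 0 ∧ ∃ v ∈ Vi i, (L.map Prod.snd).prod = v * th i (lo b) := by
  obtain ⟨L₁, L₂, rfl, h3, h4⟩ := ge_split h1 hp
  obtain ⟨b, hb, hpb⟩ := E.Ya i p.2 (hi ▸ (h2 p hp).2)
  have m1 : (L₁.map Prod.snd).prod ∈ Vi i := ge_prod fun q hq => by
    have h5 := h2 q (List.mem_append_left _ hq)
    exact E.YV i q.1 h5.1 (fun he => h3 q hq (he.trans hi.symm)) q.2 h5.2
  have m2 : (L₂.map Prod.snd).prod ∈ Vi i := ge_prod fun q hq => by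
    have h5 := h2 q (List.mem_append_right _ (List.mem_cons_of_mem _ hq))
    exact E.YV i q.1 h5.1 (fun he => h4 q hq (he.trans hi.symm)) q.2 h5.2
  have m3 := D.nV i (lo b) m2
  refine ⟨b, hb, _, mul_mem m1 m3, ?_⟩
  rw [List.map_append, List.prod_append, List.map_cons, List.prod_cons, hpb]
  group
-- END ge

-- BEGIN gf
private theorem gf_prod (g : G) (f : R → R) (L : List (R × G)) :
    ((L.map fun p => (f p.1, g * p.2 * g⁻¹)).map Prod.snd).prod = g * (L.map Prod.snd).prod * g⁻¹ := by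
  induction L with
  | nil => simp
  | cons p L ih =>
    simp only [List.map_cons, List.prod_cons]
    rw [ih]
    group

private theorem gf_nodup (g : G) (f : R → R) {L : List (R × G)} (h1 : (L.map Prod.fst).Nodup)
    (hf : ∀ p ∈ L, ∀ q ∈ L, f p.1 = f q.1 → p.1 = q.1) :
    ((L.map fun p => (f p.1, g * p.2 * g⁻¹)).map Prod.fst).Nodup := by
  have h2 : (L.map fun p => (f p.1, g * p.2 * g⁻¹)).map Prod.fst = (L.map Prod.fst).map f := by
    rw [List.map_map, List.map_map]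
    rfl
  rw [h2]
  refine List.Nodup.map_on ?_ h1
  intro r hr s hs hrs
  obtain ⟨p, hp, rfl⟩ := List.mem_map.1 hr
  obtain ⟨q, hq, rfl⟩ := List.mem_map.1 hs
  exact hf p hp q hq hrs

/-- MODULE gf. The list `L' = L.map fun p => (w i p.1, nn i * p.2 * (nn i)⁻¹)` (if no root of `L` is `a i`). -/
theorem Let.conj_listX (E : Let th h U V Ui Vi pos ht a w nn X Y) {L : List (R × G)} (h1 : (L.map Prod.fst).Nodup) (h2 : ∀ p ∈ L, pos p.1 ∧ p.2 ∈ X p.1) {i : ι} (h3 : ∀ p ∈ L, p.1 ≠ a i) :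
    ((L.map fun p => (w i p.1, nn i * p.2 * (nn i)⁻¹)).map Prod.fst).Nodup ∧ (∀ p ∈ L.map fun p => (w i p.1, nn i * p.2 * (nn i)⁻¹), pos p.1 ∧ p.2 ∈ X p.1) ∧
      ((L.map fun p => (w i p.1, nn i * p.2 * (nn i)⁻¹)).map Prod.snd).prod = nn i * (L.map Prod.snd).prod * (nn i)⁻¹ := by
  refine ⟨gf_nodup _ _ h1 fun p hp q hq => E.wi i p.1 q.1 (h2 p hp).1 (h2 q hq).1 (h3 p hp) (h3 q hq), ?_, gf_prod _ _ _⟩
  intro p hp
  obtain ⟨q, hq, rfl⟩ := List.mem_map.1 hp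
  exact ⟨E.wp i q.1 (h2 q hq).1 (h3 q hq), E.nX i q.1 (h2 q hq).1 (h3 q hq) q.2 (h2 q hq).2⟩

theorem Let.conj_listY (E : Let th h U V Ui Vi pos ht a w nn X Y) {L : List (R × G)} (h1 : (L.map Prod.fst).Nodup) (h2 : ∀ p ∈ L, pos p.1 ∧ p.2 ∈ Y p.1) {i : ι} (h3 : ∀ p ∈ L, p.1 ≠ a i) :
    ((L.map fun p => (w i p.1, nn i * p.2 * (nn i)⁻¹)).map Prod.fst).Nodup ∧ (∀ p ∈ L.map fun p => (w i p.1, nn i * p.2 * (nn i)⁻¹), pos p.1 ∧ p.2 ∈ Y p.1) ∧
      ((L.map fun p => (w i p.1, nn i * p.2 * (nn i)⁻¹)).map Prod.snd).prod = nn i * (L.map Prod.snd).prod * (nn i)⁻¹ := by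
  refine ⟨gf_nodup _ _ h1 fun p hp q hq => E.wi i p.1 q.1 (h2 p hp).1 (h2 q hq).1 (h3 p hp) (h3 q hq), ?_, gf_prod _ _ _⟩
  intro p hp
  obtain ⟨q, hq, rfl⟩ := List.mem_map.1 hp
  exact ⟨E.wp i q.1 (h2 q hq).1 (h3 q hq), E.nY i q.1 (h2 q hq).1 (h3 q hq) q.2 (h2 q hq).2⟩
-- END gf

-- BEGIN gg
private theorem gg_U (D : Dat th h χ U V Ui Vi) (E : Let th h U V Ui Vi pos ht a w nn X Y) {L : List (R × G)}
    (h2 : ∀ p ∈ L, pos p.1 ∧ p.2 ∈ X p.1) (i : ι) : (L.map Prod.snd).prod ∈ U := by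
  refine Subgroup.list_prod_mem _ fun g hg => ?_
  obtain ⟨p, hp, rfl⟩ := List.mem_map.1 hg
  obtain ⟨h3, h4⟩ := h2 p hp
  by_cases h5 : p.1 = a i
  · rw [h5] at h4
    obtain ⟨b, _, h6⟩ := E.Xa i p.2 h4
    rw [h6]
    exact D.upU i b
  · exact D.UiU i (E.XU i p.1 h3 h5 p.2 h4)

private theorem gg_V (D : Dat th h χ U V Ui Vi) (E : Let th h U V Ui Vi pos ht a w nn X Y) {L : List (R × G)}
    (h2 : ∀ p ∈ L, pos p.1 ∧ p.2 ∈ Y p.1) (i : ι) : (L.map Prod.snd).prod ∈ V := by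
  refine Subgroup.list_prod_mem _ fun g hg => ?_
  obtain ⟨p, hp, rfl⟩ := List.mem_map.1 hg
  obtain ⟨h3, h4⟩ := h2 p hp
  by_cases h5 : p.1 = a i
  · rw [h5] at h4
    obtain ⟨b, _, h6⟩ := E.Ya i p.2 h4
    rw [h6]
    exact D.loV i b
  · exact D.ViV i (E.YV i p.1 h3 h5 p.2 h4)

/-- MODULE gg. Induction on `m`.  If a root of `L` is some `a i`: `Let.simpleU` and `v = v' * th i (lo c)` (`D.sV`, `D.nV`) show `NS` for `c = 1` (the conjugating element).  If a root of `L'` is some `a i`: the same with `Let.simpleV`.  Otherwise (no simple root in `L`, `L'`) take the pair `p`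
with `ht p.1 ≤ m` and `i` with `ht (w i p.1) < ht p.1` (`E.wh`); conjugate with `nn i` (`Let.conj_listX`, `Let.conj_listY`, `E.nh`), the new lists have a root of height `< ht p.1`; for `m = 0` this is impossible. -/
theorem Let.start_aux (D : Dat th h χ U V Ui Vi) (E : Let th h U V Ui Vi pos ht a w nn X Y) (m : ℕ) :
    ∀ (L' L : List (R × G)) (z : ∀ i, (F i)ˣ), (L.map Prod.fst).Nodup → (L'.map Prod.fst).Nodup → (∀ p ∈ L, pos p.1 ∧ p.2 ∈ X p.1) → (∀ p ∈ L', pos p.1 ∧ p.2 ∈ Y p.1) →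
      ((∃ p ∈ L, ht p.1 ≤ m) ∨ ∃ p ∈ L', ht p.1 ≤ m) → ∃ (c : G) (i : ι) (z' : ∀ i, (F i)ˣ), NS th h χ Ui Vi i (c * ((L'.map Prod.snd).prod * h z * (L.map Prod.snd).prod) * c⁻¹) z' := by
  induction m with
  | zero =>
    intro L' L z n1 n2 h1 h2 hm
    -- a root of height zero is simple
    by_cases hA : ∃ p ∈ L, ∃ i, p.1 = a i
    · obtain ⟨p, hp, i, hi⟩ := hA
      obtain ⟨b, hb, u, hu, e1⟩ := E.simpleU D n1 h1 hp hi
      obtain ⟨c, v', hv', e2⟩ := D.sV i _ (gg_V D E h2 i)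
      refine ⟨1, i, z, th i (lo c) * v' * (th i (lo c))⁻¹, D.Vlo i c v' hv', u, hu, c, b, ?_, fun h => hb h.2.1⟩
      rw [e1, e2]
      group
    by_cases hB : ∃ p ∈ L', ∃ i, p.1 = a i
    · obtain ⟨p, hp, i, hi⟩ := hB
      obtain ⟨b, hb, v, hv, e1⟩ := E.simpleV D n2 h2 hp hi
      obtain ⟨c, u', hu', e2⟩ := D.sU i _ (gg_U D E h1 i)
      refine ⟨1, i, z, v, hv, u', hu', b, c, ?_, fun h => hb h.1⟩
      rw [e1, e2]
      group
    exfalso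
    rcases hm with ⟨p, hp, hm⟩ | ⟨p, hp, hm⟩
    · rcases E.wh p.1 (h1 p hp).1 with h3 | ⟨i, h3⟩
      · exact hA ⟨p, hp, h3⟩
      · omega
    · rcases E.wh p.1 (h2 p hp).1 with h3 | ⟨i, h3⟩
      · exact hB ⟨p, hp, h3⟩
      · omega
  | succ m ih =>
    intro L' L z n1 n2 h1 h2 hm
    by_cases hA : ∃ p ∈ L, ∃ i, p.1 = a i
    · obtain ⟨p, hp, i, hi⟩ := hA
      obtain ⟨b, hb, u, hu, e1⟩ := E.simpleU D n1 h1 hp hi
      obtain ⟨c, v', hv', e2⟩ := D.sV i _ (gg_V D E h2 i)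
      refine ⟨1, i, z, th i (lo c) * v' * (th i (lo c))⁻¹, D.Vlo i c v' hv', u, hu, c, b, ?_, fun h => hb h.2.1⟩
      rw [e1, e2]
      group
    by_cases hB : ∃ p ∈ L', ∃ i, p.1 = a i
    · obtain ⟨p, hp, i, hi⟩ := hB
      obtain ⟨b, hb, v, hv, e1⟩ := E.simpleV D n2 h2 hp hi
      obtain ⟨c, u', hu', e2⟩ := D.sU i _ (gg_U D E h1 i)
      refine ⟨1, i, z, v, hv, u', hu', b, c, ?_, fun h => hb h.1⟩
      rw [e1, e2]
      group
    have hA' : ∀ i, ∀ p ∈ L, p.1 ≠ a i := fun i p hp h => hA ⟨p, hp, i, h⟩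
    have hB' : ∀ i, ∀ p ∈ L', p.1 ≠ a i := fun i p hp h => hB ⟨p, hp, i, h⟩
    have key : ∃ i, (∃ p ∈ L, ht (w i p.1) ≤ m) ∨ ∃ p ∈ L', ht (w i p.1) ≤ m := by
      rcases hm with ⟨p, hp, hm⟩ | ⟨p, hp, hm⟩
      · rcases E.wh p.1 (h1 p hp).1 with h3 | ⟨i, h3⟩
        · exact absurd ⟨p, hp, h3⟩ hA
        · exact ⟨i, Or.inl ⟨p, hp, by omega⟩⟩
      · rcases E.wh p.1 (h2 p hp).1 with h3 | ⟨i, h3⟩
        · exact absurd ⟨p, hp, h3⟩ hB
        · exact ⟨i, Or.inr ⟨p, hp, by omega⟩⟩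
    obtain ⟨i, hi⟩ := key
    obtain ⟨z', hz'⟩ := E.nh i z
    obtain ⟨a1, a2, a3⟩ := E.conj_listX n1 h1 (hA' i)
    obtain ⟨b1, b2, b3⟩ := E.conj_listY n2 h2 (hB' i)
    obtain ⟨c, j, z'', h5⟩ := ih _ _ z' a1 b1 a2 b2 (by
      rcases hi with ⟨p, hp, h6⟩ | ⟨p, hp, h6⟩
      · exact Or.inl ⟨_, List.mem_map_of_mem hp, h6⟩
      · exact Or.inr ⟨_, List.mem_map_of_mem hp, h6⟩)
    refine ⟨c * nn i, j, z'', ?_⟩
    rw [a3, b3, ← hz'] at h5
    have h6 : c * nn i * ((L'.map Prod.snd).prod * h z * (L.map Prod.snd).prod) * (c * nn i)⁻¹ =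
        c * (nn i * (L'.map Prod.snd).prod * (nn i)⁻¹ * (nn i * h z * (nn i)⁻¹) *
          (nn i * (L.map Prod.snd).prod * (nn i)⁻¹)) * c⁻¹ := by group
    rw [h6]
    exact h5
-- END gg

-- BEGIN gh
/-- MODULE gh. `Dat.tri`, `E.nfU`, `E.nfV`; if both lists are empty the conjugate is `h z`: some `χ i z ≠ 1` (then `NS.of_tri` with `v = u = 1`), otherwise `h z` and `g` are central (`Dat.center`); if one of the lists is not empty: `Let.start_aux` with `m` the height of one of its roots. -/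
theorem Let.start (D : Dat th h χ U V Ui Vi) (E : Let th h U V Ui Vi pos ht a w nn X Y) {g : G} (hg : g ∉ Subgroup.center G) :
    ∃ (c : G) (i : ι) (z : ∀ i, (F i)ˣ), NS th h χ Ui Vi i (c * g * c⁻¹) z := by
  obtain ⟨c, v, hv, z, u, hu, h1⟩ := D.tri g
  obtain ⟨L, hL1, hL2, hL3⟩ := E.nfU u hu
  obtain ⟨L', hL1', hL2', hL3'⟩ := E.nfV v hv
  by_cases hne : (∃ p, p ∈ L) ∨ ∃ p, p ∈ L'
  · have key : ∃ m : ℕ, (∃ p ∈ L, ht p.1 ≤ m) ∨ ∃ p ∈ L', ht p.1 ≤ m := by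
      rcases hne with ⟨p, hp⟩ | ⟨p, hp⟩
      · exact ⟨ht p.1, Or.inl ⟨p, hp, le_refl _⟩⟩
      · exact ⟨ht p.1, Or.inr ⟨p, hp, le_refl _⟩⟩
    obtain ⟨m, hm⟩ := key
    obtain ⟨c', i, z', hc'⟩ := Let.start_aux D E m L' L z hL1 hL1' hL2 hL2' hm
    refine ⟨c' * c, i, z', ?_⟩
    have h2 : c' * c * g * (c' * c)⁻¹ = c' * ((L'.map Prod.snd).prod * h z * (L.map Prod.snd).prod) * c'⁻¹ := by
      rw [← hL3, ← hL3', ← h1]
      group
    rw [h2]
    exact hc'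
  · push Not at hne
    have e1 : L = [] := List.eq_nil_iff_forall_not_mem.2 hne.1
    have e2 : L' = [] := List.eq_nil_iff_forall_not_mem.2 hne.2
    have hu1 : u = 1 := by rw [hL3, e1]; simp
    have hv1 : v = 1 := by rw [hL3', e2]; simp
    by_cases hz : ∃ j, χ j z ≠ 1
    · obtain ⟨j, hj⟩ := hz
      refine ⟨c, j, z, ?_⟩
      rw [h1]
      exact NS.of_tri D hv hu hj
    · push Not at hz
      exfalso
      apply hg
      have h2 : c * g * c⁻¹ = h z := by rw [h1, hu1, hv1]; group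
      have h3 := D.center hz
      rw [← h2] at h3
      have h4 : c⁻¹ * (c * g * c⁻¹) * c = g := by group
      have h5 : c⁻¹ * (c * g * c⁻¹) * c = c * g * c⁻¹ := by
        rw [Subgroup.mem_center_iff] at h3
        rw [h3 c⁻¹]
        group
      rw [← h4, h5]
      exact h3

/-- `Let.start`, and `hP` for `S i z := ∃ c, NS i (c * g * c⁻¹) z` (`NS.move`, `NS.step`) -/
theorem reach (D : Dat th h χ U V Ui Vi) (E : Let th h U V Ui Vi pos ht a w nn X Y) {g : G} (hg : g ∉ Subgroup.center G) {P : ι → (∀ i, (F i)ˣ) → Prop}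
    (hP : ∀ S : ι → (∀ i, (F i)ˣ) → Prop, (∀ i z t, S i z → S i (Function.update z i t)) → (∀ i j z, S i z → χ j z ≠ 1 → S j z) → ∀ i z, S i z → ∃ j z', S j z' ∧ P j z') :
    ∃ (c : G) (j : ι) (z : ∀ i, (F i)ˣ), P j z ∧ NS th h χ Ui Vi j (c * g * c⁻¹) z := by
  obtain ⟨c, i, z, h0⟩ := Let.start D E hg
  obtain ⟨j, z', ⟨c', hc'⟩, hp⟩ := hP (fun i z => ∃ c : G, NS th h χ Ui Vi i (c * g * c⁻¹) z)
    (by
      rintro i z t ⟨c, hc⟩
      obtain ⟨c', hc'⟩ := NS.move D hc t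
      refine ⟨c' * c, ?_⟩
      have h2 : c' * c * g * (c' * c)⁻¹ = c' * (c * g * c⁻¹) * c'⁻¹ := by group
      rw [h2]
      exact hc')
    (by
      rintro i j z ⟨c, hc⟩ hz
      exact ⟨c, NS.step D hc hz⟩) i z ⟨c, h0⟩
  exact ⟨c', j, z', hp, hc'⟩
-- END gh

end ThG
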