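import Pool.Agent.ThK.LevG
import Pool.Agent.ThR.Seven
import Pool.Agent.ThPL.Main

/-! # The parts (B) (`LevG.lean`) and (D) (`ThR/Seven.lean`) for `n = 7, 8`, in the form used in `Fin.lean` -/

namespace ThK
open ThE Polynomial

variable {K : Type*} [Field K] {n : ℕ} {G : Type*} [Group G]

/-- the homomorphism `SL_n(K) → G` (it exists by `sta_yy` and `pres`) -/
def HomY (x : Root n → K → G) (f : Matrix.SpecialLinearGroup (Fin n) K →* G) : Prop := ∀ i j, i ≠ j → ∀ a, f (el K i j a) = yy x i j a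

/-- (B) -/
theorem gauss78 (hn : n = 7 ∨ n = 8) (hK : ∃ d : K, d ≠ 0 ∧ d ≠ 1) {x : Root n → K → G} (h : Stb K n x) {f : Matrix.SpecialLinearGroup (Fin n) K →* G} (hf : HomY x f)
    {z : G} (hz : z ∉ Subgroup.center G) :
    ∃ c : G, ∃ v ∈ Uk (op x) lev 1, ∃ M : Matrix.SpecialLinearGroup (Fin n) K, (∀ t : K, M.1 ≠ t • 1) ∧ ∃ u ∈ Uk x lev 1, c * z * c⁻¹ = v * f M * u :=
  gaussE (Or.inr hn) hK h hf hz

/-- (D) -/
theorem exists_w78 (hn : n = 7 ∨ n = 8) (K : Type*) [Field K] [Finite K] (hK : ∃ d : K, d ≠ 0 ∧ d ≠ 1) :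
    ∃ (w : Matrix.SpecialLinearGroup (Fin n) K) (l : K) (f0 : K[X]), Irreducible f0 ∧ f0.Monic ∧ 2 ≤ f0.natDegree ∧ w.1.charpoly = (X - C l) * f0 ∧
      ∀ (G : Type*) [Group G] (x : Root n → K → G) (f : Matrix.SpecialLinearGroup (Fin n) K →* G), Stb K n x → HomY x f →
        ∀ k, 1 ≤ k → Sur x lev (f w) k ∧ Sur (op x) lev (f w) k :=
  Pool.Agent.ThR.exists_w78 hn K hK

end ThK
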