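import Pool.Agent.ThK.Uni
import Pool.Agent.ThK.Gau

/-! # The groups of type `E_n` as an instance of the abstract systems of `Gau.lean` -/

namespace ThK
open ThE ThG

variable {K : Type*} [Field K] {n : ℕ} {G : Type*} [Group G]

/-- the root elements `≠ 1` -/
def Xr (x : Root n → K → G) (r : Root n) : Set G := {g | ∃ b : K, b ≠ 0 ∧ g = x r b}

-- BEGIN wa
private theorem wa_Sg_op (x : Root n → K → G) (p : Root n → Prop) : Sg (op x) p = Sg x fun r => p (-r) := by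
  unfold Sg
  congr 1
  ext g
  constructor
  · rintro ⟨r, a, hr, rfl⟩
    exact ⟨-r, a, by show p (- -r); rwa [neg_neg'], rfl⟩
  · rintro ⟨r, a, hr, rfl⟩
    exact ⟨-r, a, hr, by show x r a = x (- -r) a; rw [neg_neg']⟩

/-- MODULE wa. `gen`: `gen_simple` (`lo a ↦ x (-α_i) (-a)`); `Uup`, `Ulo`, `Vup`, `Vlo`: `Ui_pos`, `Ui_neg` for `x` and `op x` (`Stb.op`; `op x r a = x (-r) a`); `Uh`, `Vh`: `Sg_hz` (for `V`: `Sg (op x) p = Sg x (fun r => p (-r))`, or prove the action of `hz` on `op x r b` by `hz_conj`);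
`UiU`, `ViV`: `Sg.mono`; `sU`, `sV`: `Up_split`; `mul`: `hz_mul`; `aup`, `alo`: `hz_conj`, `chi_neg`; `upd`: `hh_hz`; `cup`: `chi_update`. -/
theorem datE (hn : n = 6 ∨ n = 7 ∨ n = 8) {x : Root n → K → G} (h : Stb K n x) {th : Fin n → SL2 K →* G} (hth : ∀ i, IsTh x (sr hn i) (th i)) :
    Dat (ι := Fin n) (F := fun _ => K) th (hz hn x) (fun i z => chi hn (sr hn i) z) (Up x) (Up (op x)) (Ui hn x) (Ui hn (op x)) := by
  have hpos : ∀ i, 0 < ht (sr hn i).1 := fun i => by rw [sr_ht hn i]; exact one_pos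
  have eup : ∀ i a, th i (up a) = op x (-sr hn i) a := fun i a => by
    rw [(hth i).up]; show _ = x (- -sr hn i) a; rw [neg_neg']
  refine
    { gen := ?_
      Uup := fun i a u hu => by rw [(hth i).up]; exact Ui_pos hn h i a hu
      Ulo := fun i a u hu => by rw [(hth i).lo]; exact Ui_neg hn h i (-a) hu
      Vup := fun i a v hv => by rw [eup i a]; exact Ui_neg hn h.op i a hv
      Vlo := fun i a v hv => by rw [(hth i).lo]; exact Ui_pos hn h.op i (-a) hv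
      Uh := fun i z u hu => Sg_hz hn h _ z hu
      Vh := fun i z v hv => ?_
      UiU := fun i => Subgroup.closure_mono (by rintro _ ⟨r, a, hr, rfl⟩; exact ⟨r, a, hr.1, rfl⟩)
      ViV := fun i => Subgroup.closure_mono (by rintro _ ⟨r, a, hr, rfl⟩; exact ⟨r, a, hr.1, rfl⟩)
      upU := fun i a => by rw [(hth i).up]; exact Subgroup.subset_closure ⟨_, a, hpos i, rfl⟩
      loV := fun i a => by rw [(hth i).lo]; exact Subgroup.subset_closure ⟨sr hn i, -a, hpos i, rfl⟩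
      sU := fun i u hu => ?_
      sV := fun i v hv => ?_
      mul := fun z w => hz_mul hn h z w
      aup := fun i z a => by rw [(hth i).up, (hth i).up]; exact hz_conj hn h z _ a
      alo := fun i z a => ?_
      upd := fun i z t => by rw [(hth i).dg]; exact hh_hz hn h i t z
      cup := fun i z t => chi_update hn i t z }
  · rw [eq_top_iff, ← gen_simple hn h, Subgroup.closure_le]
    rintro _ ⟨i, a, rfl | rfl⟩
    · exact Subgroup.subset_closure ⟨i, a, Or.inl ((hth i).up a).symm⟩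
    · exact Subgroup.subset_closure ⟨i, -a, Or.inr (by rw [(hth i).lo, neg_neg])⟩
  · have e := wa_Sg_op x (fun r => 0 < ht r.1 ∧ r ≠ sr hn i)
    have hv' : v ∈ Sg x fun r => 0 < ht (-r).1 ∧ -r ≠ sr hn i := by
      rw [← e]; exact hv
    have := Sg_hz hn h _ z hv'
    rw [← e] at this
    exact this
  · obtain ⟨a, u', hu', rfl⟩ := Up_split hn h i hu
    exact ⟨a, u', hu', by rw [(hth i).up]⟩
  · obtain ⟨a, u', hu', rfl⟩ := Up_split hn h.op i hv
    exact ⟨-a, u', hu', by rw [(hth i).lo, neg_neg]; rfl⟩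
  · rw [(hth i).lo, (hth i).lo, hz_conj hn h z _ (-a), chi_neg hn, mul_neg]
-- END wa

-- BEGIN wb
private theorem wb_nf (hn : n = 6 ∨ n = 7 ∨ n = 8) {x : Root n → K → G} (h : Stb K n x) {u : G} (hu : u ∈ Up x) :
    ∃ L : List (Root n × G), (L.map Prod.fst).Nodup ∧ (∀ p ∈ L, 0 < ThE.ht p.1.1 ∧ p.2 ∈ Xr x p.1) ∧ u = (L.map Prod.snd).prod := by
  obtain ⟨L, h1, h2, h3⟩ := Up_list hn h hu
  refine ⟨L.map fun p => (p.1, x p.1 p.2), ?_, ?_, ?_⟩
  · rw [List.map_map]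
    exact h1
  · intro q hq
    obtain ⟨p, hp, rfl⟩ := List.mem_map.1 hq
    exact ⟨(h2 p hp).1, p.2, (h2 p hp).2, rfl⟩
  · rw [List.map_map]
    exact h3

private theorem wb_conj (hn : n = 6 ∨ n = 7 ∨ n = 8) {x : Root n → K → G} (h : Stb K n x) (r s : Root n) {b : K} (hb : b ≠ 0) :
    ∃ c : K, c ≠ 0 ∧ nn x r 1 * x s b * (nn x r 1)⁻¹ = x (rf r s) c := by
  refine ⟨_, ?_, nn_conj hn h r s one_ne_zero b⟩
  rw [one_zpow, mul_one]
  exact mul_ne_zero (zpow_ne_zero _ (Units.ne_zero _)) hb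

/-- MODULE wb. `nfU`, `nfV`: `Up_list` for `x` and `op x` (the pairs `(r, x r b)`); `nX`, `nY`: `nn_conj` with `a = 1` (for `-r`: `rf_neg`), the coefficient is not `0`; `wp`: `rf_pos`; `wi`: `rf_rf`; `wh`: `ht r = 1`: `eq_sr`; otherwise `exists_sr`, `ht_rf`, `sr_ht`;
`XU`, `YV`: `Sg.mem`; `Xa`, `Ya`: `hth`; `nh`: `nn_hz`. -/
theorem letE (hn : n = 6 ∨ n = 7 ∨ n = 8) {x : Root n → K → G} (h : Stb K n x) {th : Fin n → SL2 K →* G} (hth : ∀ i, IsTh x (sr hn i) (th i)) :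
    Let (ι := Fin n) (F := fun _ => K) (R := Root n) th (hz hn x) (Up x) (Up (op x)) (Ui hn x) (Ui hn (op x)) (fun r => 0 < ThE.ht r.1) (fun r => (ThE.ht r.1).toNat) (sr hn)
      (fun i r => rf (sr hn i) r) (fun i => nn x (sr hn i) 1) (Xr x) (Xr (op x)) where
  nfU := fun u hu => wb_nf hn h hu
  nfV := fun v hv => wb_nf hn h.op hv
  nX := by
    rintro i r _ _ g ⟨b, hb, rfl⟩
    obtain ⟨c, hc, h1⟩ := wb_conj hn h (sr hn i) r hb
    exact ⟨c, hc, h1⟩
  nY := by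
    rintro i r _ _ g ⟨b, hb, rfl⟩
    obtain ⟨c, hc, h1⟩ := wb_conj hn h (sr hn i) (-r) hb
    refine ⟨c, hc, ?_⟩
    rw [rf_neg] at h1
    exact h1
  wp := fun i r h1 h2 => (rf_pos hn i h1 h2).1
  wi := by
    intro i r s _ _ _ _ h1
    have h2 := congrArg (rf (sr hn i)) h1
    simp only [rf_rf] at h2
    exact h2
  wh := by
    intro r hr
    by_cases h1 : ThE.ht r.1 = 1
    · obtain ⟨i, hi⟩ := eq_sr hn h1
      exact Or.inl ⟨i, hi⟩
    · right
      obtain ⟨i, hi⟩ := exists_sr hn (r := r) (by omega)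
      refine ⟨i, ?_⟩
      show (ThE.ht (rf (sr hn i) r).1).toNat < (ThE.ht r.1).toNat
      have h2 := ht_rf (sr hn i) r
      rw [hi, sr_ht hn i, mul_one] at h2
      rw [h2]
      omega
  XU := by
    rintro i r h1 h2 g ⟨b, _, rfl⟩
    exact Sg.mem ⟨h1, h2⟩ b
  YV := by
    rintro i r h1 h2 g ⟨b, _, rfl⟩
    exact Sg.mem ⟨h1, h2⟩ b
  Xa := by
    rintro i g ⟨b, hb, rfl⟩
    exact ⟨b, hb, ((hth i).up b).symm⟩
  Ya := by
    rintro i g ⟨b, hb, rfl⟩
    refine ⟨-b, neg_ne_zero.2 hb, ?_⟩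
    rw [(hth i).lo (-b), neg_neg]
    rfl
  nh := fun i z => nn_hz hn h i z
-- END wb

/-- the element `v * x_(-α_j)(c) * h(z) * x_(α_j)(b) * u` is not scalar at the node `j` -/
def NE (hn : n = 6 ∨ n = 7 ∨ n = 8) (x : Root n → K → G) (j : Fin n) (g : G) (z : Fin n → Kˣ) : Prop :=
  ∃ v ∈ Ui hn (op x) j, ∃ u ∈ Ui hn x j, ∃ c b : K, g = v * x (-sr hn j) c * hz hn x z * x (sr hn j) b * u ∧ ¬ (c = 0 ∧ b = 0 ∧ chi hn (sr hn j) z = 1)

-- BEGIN wc
/-- MODULE wc. `exists_th` (`choose`), `datE`, `letE`, `reach`; `NS` gives `NE` (`th i (lo c) = x (-α_i) (-c)`). -/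
theorem reachE (hn : n = 6 ∨ n = 7 ∨ n = 8) {x : Root n → K → G} (h : Stb K n x) {g : G} (hg : g ∉ Subgroup.center G) {P : Fin n → (Fin n → Kˣ) → Prop}
    (hP : ∀ S : Fin n → (Fin n → Kˣ) → Prop, (∀ i z t, S i z → S i (Function.update z i t)) → (∀ i j z, S i z → chi hn (sr hn j) z ≠ 1 → S j z) →
      ∀ i z, S i z → ∃ j z', S j z' ∧ P j z') : ∃ (c : G) (j : Fin n) (z : Fin n → Kˣ), P j z ∧ NE hn x j (c * g * c⁻¹) z := by
  choose th hth using fun i => exists_th hn h (sr hn i)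
  obtain ⟨c, j, z, hp, v, hv, u, hu, c', b, e, hne⟩ := reach (datE hn h hth) (letE hn h hth) hg (P := P) hP
  refine ⟨c, j, z, hp, v, hv, u, hu, -c', b, ?_, fun hh => hne ⟨neg_eq_zero.mp hh.1, hh.2.1, hh.2.2⟩⟩
  rw [e, (hth j).lo, (hth j).up]
-- END wc

end ThK
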