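import Pool.Agent.ThK.Rel

/-! # Levi subgroup and filtration of the unipotent radical, for an additive level function `l` -/

namespace ThK
open ThE

variable {K : Type*} [Field K] {n : ℕ} {G : Type*} [Group G]

-- BEGIN la
/-- MODULE la. (`Subgroup.subset_closure`, `Subgroup.closure_mono`.)  Compare `ThE.Sg.mem`, `ThE.Sg.mono`, `ThE.Sg.conj` in Pool/Agent/ThE/Bir.lean. -/
theorem Sg.mem {x : Root n → K → G} {p : Root n → Prop} {r : Root n} (h : p r) (a : K) : x r a ∈ Sg x p := by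
  exact Subgroup.subset_closure ⟨r, a, h, rfl⟩

theorem Sg.mono (x : Root n → K → G) {p q : Root n → Prop} (h : ∀ r, p r → q r) : Sg x p ≤ Sg x q := by
  refine Subgroup.closure_mono ?_
  rintro _ ⟨r, a, hr, rfl⟩
  exact ⟨r, a, h r hr, rfl⟩

/-- if `p s` implies `s ≠ -r` and `p t` for every root `t = r + s`, then `x r a` normalizes `Sg x p`: for a generator `x s b` either `r + s` is a root `t` (`conj_add`) or they commute (`h.comm`) -/
theorem Sg.conj {x : Root n → K → G} (h : Stb K n x) {p : Root n → Prop} {r : Root n} (h1 : ∀ s, p s → s ≠ -r)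
    (h2 : ∀ s t : Root n, p s → t.1 = r.1 + s.1 → p t) (a : K) {g : G} (hg : g ∈ Sg x p) : x r a * g * (x r a)⁻¹ ∈ Sg x p := by
  refine Subgroup.closure_induction (p := fun g _ => x r a * g * (x r a)⁻¹ ∈ Sg x p) ?_ ?_ ?_ ?_ hg
  · rintro _ ⟨s, b, hs', rfl⟩
    by_cases h3 : ∃ t : Root n, t.1 = r.1 + s.1
    · obtain ⟨t, ht⟩ := h3
      have h6 := h.sum r s t ht a b
      have h7 : x r a * x s b * (x r a)⁻¹ = x t (ep K r.1 s.1 * a * b) * x s b := by
        rw [← h6]; group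
      rw [h7]
      exact mul_mem (Sg.mem (h2 s t hs' ht) _) (Sg.mem hs' _)
    · have h4 : r.1 + s.1 ≠ 0 := by
        intro h5
        apply h1 s hs'
        apply Subtype.ext
        rw [neg_val]
        exact (neg_eq_of_add_eq_zero_right h5).symm
      have h5 := h.comm r s h4 (fun t ht => h3 ⟨t, ht⟩) a b
      rw [mul_inv_eq_one] at h5
      rw [h5]
      exact Sg.mem hs' _
  · rw [mul_one, mul_inv_cancel]
    exact one_mem _
  · intro u v _ _ hu hv
    have h3 := mul_mem hu hv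
    have h4 : x r a * u * (x r a)⁻¹ * (x r a * v * (x r a)⁻¹) = x r a * (u * v) * (x r a)⁻¹ := by group
    rwa [h4] at h3
  · intro u _ hu
    have h3 := inv_mem hu
    have h4 : (x r a * u * (x r a)⁻¹)⁻¹ = x r a * u⁻¹ * (x r a)⁻¹ := by group
    rwa [h4] at h3

/-- a subgroup generated by the `x r a`, `q r`, which normalizes: from the generators to the whole group (`(x r a)⁻¹ = x r (-a)`) -/
theorem Sg.conj_all {x : Root n → K → G} (h : Stb K n x) {p q : Root n → Prop} (h1 : ∀ r, q r → ∀ a, ∀ g ∈ Sg x p, x r a * g * (x r a)⁻¹ ∈ Sg x p)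
    {u g : G} (hu : u ∈ Sg x q) (hg : g ∈ Sg x p) : u * g * u⁻¹ ∈ Sg x p := by
  have key : u ∈ Sg x q → (∀ g ∈ Sg x p, u * g * u⁻¹ ∈ Sg x p) ∧ ∀ g ∈ Sg x p, u⁻¹ * g * u ∈ Sg x p := by
    intro hu
    refine Subgroup.closure_induction (p := fun u _ => (∀ g ∈ Sg x p, u * g * u⁻¹ ∈ Sg x p) ∧ ∀ g ∈ Sg x p, u⁻¹ * g * u ∈ Sg x p) ?_ ?_ ?_ ?_ hu
    · rintro _ ⟨r, a, hr, rfl⟩
      refine ⟨h1 r hr a, fun g hg => ?_⟩
      have h0 : x r 0 = 1 := by
        have h2 := h.add r 0 0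
        rw [add_zero] at h2
        exact mul_eq_left.1 h2.symm
      have h3 : (x r a)⁻¹ = x r (-a) := by
        refine inv_eq_of_mul_eq_one_right ?_
        rw [← h.add, add_neg_cancel, h0]
      have h4 := h1 r hr (-a) g hg
      rw [← h3, inv_inv] at h4
      exact h4
    · refine ⟨fun g hg => ?_, fun g hg => ?_⟩
      · rwa [one_mul, inv_one, mul_one]
      · rwa [inv_one, one_mul, mul_one]
    · rintro u v _ _ ⟨hu1, hu2⟩ ⟨hv1, hv2⟩
      refine ⟨fun g hg => ?_, fun g hg => ?_⟩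
      · have h2 := hu1 _ (hv1 g hg)
        have h3 : u * (v * g * v⁻¹) * u⁻¹ = u * v * g * (u * v)⁻¹ := by group
        rwa [h3] at h2
      · have h2 := hv2 _ (hu2 g hg)
        have h3 : v⁻¹ * (u⁻¹ * g * u) * v = (u * v)⁻¹ * g * (u * v) := by group
        rwa [h3] at h2
    · rintro u _ ⟨hu1, hu2⟩
      refine ⟨fun g hg => ?_, fun g hg => ?_⟩
      · rw [inv_inv]; exact hu2 g hg
      · rw [inv_inv]; exact hu1 g hg
  exact (key hu).1 g hg
-- END la

-- BEGIN lb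
private theorem lb_zero {l : Vec n → ℤ} (hl : ∀ v w, l (v + w) = l v + l w) : l 0 = 0 := by
  have h := hl 0 0
  rw [add_zero] at h
  linarith

private theorem lb_neg {l : Vec n → ℤ} (hl : ∀ v w, l (v + w) = l v + l w) (v : Vec n) : l (-v) = - l v := by
  have h := hl v (-v)
  rw [add_neg_cancel, lb_zero hl] at h
  linarith

/-- MODULE lb. (Compare `ThE.Uk.anti`, `Uk.conj_root`, `Uk.conj_Lv`, `Uk.conj_U`, `Uk.comm` in Pool/Agent/ThE/Lev.lean.) -/
theorem Uk.anti (x : Root n → K → G) (l : Vec n → ℤ) {j k : ℕ} (h : j ≤ k) : Uk x l k ≤ Uk x l j := by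
  unfold Uk
  exact Sg.mono x fun r hr => le_trans (by exact_mod_cast h) hr

theorem Uk.conj_root {x : Root n → K → G} (h : Stb K n x) {l : Vec n → ℤ} (hl : ∀ v w, l (v + w) = l v + l w) {k : ℕ} (hk : 1 ≤ k) {s : Root n} (hs : 0 ≤ l s.1) (a : K)
    {g : G} (hg : g ∈ Uk x l k) : x s a * g * (x s a)⁻¹ ∈ Uk x l k := by
  have hk' : (1 : ℤ) ≤ (k : ℤ) := by exact_mod_cast hk
  unfold Uk at hg ⊢
  refine Sg.conj h (fun s' hs' he => ?_) (fun s' t hs' ht => ?_) a hg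
  · rw [he, neg_val, lb_neg hl] at hs'
    linarith
  · rw [ht, hl]
    linarith

theorem Uk.conj_Lv {x : Root n → K → G} (h : Stb K n x) {l : Vec n → ℤ} (hl : ∀ v w, l (v + w) = l v + l w) {k : ℕ} (hk : 1 ≤ k) {b g : G} (hb : b ∈ Lv x l)
    (hg : g ∈ Uk x l k) : b * g * b⁻¹ ∈ Uk x l k := by
  unfold Lv at hb
  unfold Uk at hg ⊢
  refine Sg.conj_all h (fun r hr a g hg => ?_) hb hg
  exact Uk.conj_root h hl hk (le_of_eq (Eq.symm hr)) a hg

theorem Uk.conj_U {x : Root n → K → G} (h : Stb K n x) {l : Vec n → ℤ} (hl : ∀ v w, l (v + w) = l v + l w) {k : ℕ} (hk : 1 ≤ k) {u g : G} (hu : u ∈ Uk x l 1)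
    (hg : g ∈ Uk x l k) : u * g * u⁻¹ ∈ Uk x l k := by
  unfold Uk at hu hg ⊢
  refine Sg.conj_all h (fun r hr a g hg => ?_) hu hg
  have hr' : ((1 : ℕ) : ℤ) ≤ l r.1 := hr
  refine Uk.conj_root h hl hk ?_ a hg
  have : ((1 : ℕ) : ℤ) = 1 := Nat.cast_one
  linarith

/-- `[Uk 1, Uk k] ≤ Uk (k + 1)` (for generators: `x t (..)` with `l t ≥ k + 1`, or `1`) -/
theorem Uk.comm {x : Root n → K → G} (h : Stb K n x) {l : Vec n → ℤ} (hl : ∀ v w, l (v + w) = l v + l w) {k : ℕ} (hk : 1 ≤ k) {u v : G} (hu : u ∈ Uk x l 1)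
    (hv : v ∈ Uk x l k) : u * v * u⁻¹ * v⁻¹ ∈ Uk x l (k + 1) := by
  have hk' : (1 : ℤ) ≤ (k : ℤ) := by exact_mod_cast hk
  have key : ∀ s : Root n, 1 ≤ l s.1 → ∀ c : K, ∀ v ∈ Uk x l k, x s c * v * (x s c)⁻¹ * v⁻¹ ∈ Uk x l (k + 1) := by
    intro s hs c v hv
    refine Subgroup.closure_induction (p := fun v _ => x s c * v * (x s c)⁻¹ * v⁻¹ ∈ Uk x l (k + 1)) ?_ ?_ ?_ ?_ hv
    · rintro _ ⟨r, a, hr, rfl⟩
      have hr' : (k : ℤ) ≤ l r.1 := hr
      by_cases ht : ∃ t : Root n, t.1 = s.1 + r.1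
      · obtain ⟨t, ht⟩ := ht
        rw [h.sum s r t ht]
        refine Sg.mem ?_ _
        rw [ht, hl]
        push_cast
        linarith
      · push Not at ht
        rw [h.comm s r ?_ ht]
        · exact Subgroup.one_mem _
        · intro h0
          have h1 : l (s.1 + r.1) = 0 := by
            rw [h0]
            exact lb_zero hl
          rw [hl] at h1
          linarith
    · rw [mul_one, inv_one, mul_one, mul_inv_cancel]
      exact Subgroup.one_mem _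
    · intro a b ha _ iha ihb
      have haU : a ∈ Uk x l 1 := Uk.anti x l hk ha
      have e : x s c * (a * b) * (x s c)⁻¹ * (a * b)⁻¹ = (x s c * a * (x s c)⁻¹ * a⁻¹) * (a * (x s c * b * (x s c)⁻¹ * b⁻¹) * a⁻¹) := by
        group
      rw [e]
      exact Subgroup.mul_mem _ iha (Uk.conj_U h hl (by omega) haU ihb)
    · intro a ha iha
      have haU : a⁻¹ ∈ Uk x l 1 := Subgroup.inv_mem _ (Uk.anti x l hk ha)
      have e : x s c * a⁻¹ * (x s c)⁻¹ * a⁻¹⁻¹ = a⁻¹ * (x s c * a * (x s c)⁻¹ * a⁻¹)⁻¹ * a⁻¹⁻¹ := by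
        group
      rw [e]
      exact Uk.conj_U h hl (by omega) haU (Subgroup.inv_mem _ iha)
  refine Subgroup.closure_induction (p := fun u _ => u * v * u⁻¹ * v⁻¹ ∈ Uk x l (k + 1)) ?_ ?_ ?_ ?_ hu
  · rintro _ ⟨r, a, hr, rfl⟩
    have hr' : ((1 : ℕ) : ℤ) ≤ l r.1 := hr
    exact key r (by simpa using hr') a v hv
  · rw [one_mul, inv_one, mul_one, mul_inv_cancel]
    exact Subgroup.one_mem _
  · intro a b ha _ iha ihb
    have e : a * b * v * (a * b)⁻¹ * v⁻¹ = (a * (b * v * b⁻¹ * v⁻¹) * a⁻¹) * (a * v * a⁻¹ * v⁻¹) := by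
      group
    rw [e]
    exact Subgroup.mul_mem _ (Uk.conj_U h hl (by omega) ha ihb) iha
  · intro a ha iha
    have e : a⁻¹ * v * a⁻¹⁻¹ * v⁻¹ = a⁻¹ * (a * v * a⁻¹ * v⁻¹)⁻¹ * a⁻¹⁻¹ := by
      group
    rw [e]
    exact Uk.conj_U h hl (by omega) (Subgroup.inv_mem _ ha) (Subgroup.inv_mem _ iha)

theorem Uk.top {x : Root n → K → G} {l : Vec n → ℤ} {k : ℕ} (hk : ∀ r : Root n, l r.1 < k) : Uk x l k = ⊥ := by
  unfold Uk Sg
  rw [Subgroup.closure_eq_bot_iff]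
  rintro _ ⟨r, a, hr, rfl⟩
  exfalso
  have hr' : (k : ℤ) ≤ l r.1 := hr
  have h1 := hk r
  linarith
-- END lb

-- BEGIN lc
/-- MODULE lc. For `v ∈ Uk k` apply `Sur` to `c⁻¹ v c` and conjugate the result with `c` (`Uk.conj_Lv`). -/
theorem Sur.conj {x : Root n → K → G} (h : Stb K n x) {l : Vec n → ℤ} (hl : ∀ v w, l (v + w) = l v + l w) {k : ℕ} (hk : 1 ≤ k) {b c : G} (hc : c ∈ Lv x l)
    (hs : Sur x l b k) : Sur x l (c * b * c⁻¹) k := by
  intro v hv
  have hc' : c⁻¹ ∈ Lv x l := Subgroup.inv_mem _ hc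
  have h1 : c⁻¹ * v * c ∈ Uk x l k := by
    have h2 := Uk.conj_Lv h hl hk hc' hv
    rwa [inv_inv] at h2
  obtain ⟨y, hy, hw⟩ := hs _ h1
  refine ⟨c * y * c⁻¹, Uk.conj_Lv h hl hk hc hy, ?_⟩
  have h3 := Uk.conj_Lv h hl (by omega : 1 ≤ k + 1) hc hw
  have e : (c * y * c⁻¹)⁻¹ * v * (c * b * c⁻¹ * (c * y * c⁻¹) * (c * b * c⁻¹)⁻¹) =
      c * (y⁻¹ * (c⁻¹ * v * c) * (b * y * b⁻¹)) * c⁻¹ := by
    group
  rw [e]
  exact h3

/-- in the section, written additively: for all `v` there is `y` with `v = (1 - b) y`; so `v = (1 - b⁻¹) (- b y)`. -/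
theorem Sur.inv {x : Root n → K → G} (h : Stb K n x) {l : Vec n → ℤ} (hl : ∀ v w, l (v + w) = l v + l w) {k : ℕ} (hk : 1 ≤ k) {b : G} (hb : b ∈ Lv x l)
    (hs : Sur x l b k) : Sur x l b⁻¹ k := by
  intro v hv
  obtain ⟨z, hz, hw⟩ := hs v hv
  have hg : b * z * b⁻¹ ∈ Uk x l k := Uk.conj_Lv h hl hk hb hz
  have h1 : Uk x l k ≤ Uk x l 1 := Uk.anti x l hk
  refine ⟨(b * z * b⁻¹)⁻¹, Subgroup.inv_mem _ hg, ?_⟩
  have h2 := Uk.comm h hl hk (h1 hg) hv
  have h3 := Uk.conj_U h hl (by omega : 1 ≤ k + 1) (h1 hz) hw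
  have e : (b * z * b⁻¹)⁻¹⁻¹ * v * (b⁻¹ * (b * z * b⁻¹)⁻¹ * b⁻¹⁻¹) =
      (b * z * b⁻¹ * v * (b * z * b⁻¹)⁻¹ * v⁻¹) * (z * (z⁻¹ * v * (b * z * b⁻¹)) * z⁻¹) := by
    group
  rw [e]
  exact Subgroup.mul_mem _ h2 h3
-- END lc

-- BEGIN ld
/-- MODULE ld. Descending induction on `k` (`Uk N = 1` for large `N`): for `k ≥ 1` and `v ∈ Uk k` there is `y ∈ Uk k` with `y⁻¹ (v b) y = b`.  `y` from `Sur`: `y⁻¹ (v b) y = (y⁻¹ v (b y b⁻¹)) b`, the first factor is in `Uk (k + 1)`. -/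
theorem conj_left {x : Root n → K → G} {l : Vec n → ℤ} {m : ℕ} (hm : ∀ r : Root n, l r.1 < m) {b : G} (hs : ∀ k, 1 ≤ k → Sur x l b k) {v : G}
    (hv : v ∈ Uk x l 1) : ∃ y ∈ Uk x l 1, y⁻¹ * (v * b) * y = b := by
  have key : ∀ j k : ℕ, 1 ≤ k → m ≤ k + j → ∀ v ∈ Uk x l k, ∃ y ∈ Uk x l k, y⁻¹ * (v * b) * y = b := by
    intro j
    induction j with
    | zero =>
      intro k _ hmk v hv
      have h0 : Uk x l k = ⊥ := Uk.top fun r => lt_of_lt_of_le (hm r) (by exact_mod_cast hmk)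
      rw [h0, Subgroup.mem_bot] at hv
      exact ⟨1, Subgroup.one_mem _, by rw [hv]; group⟩
    | succ j ih =>
      intro k hk hmk v hv
      obtain ⟨y, hy, hw⟩ := hs k hk v hv
      obtain ⟨y', hy', he⟩ := ih (k + 1) (by omega) (by omega) _ hw
      refine ⟨y * y', Subgroup.mul_mem _ hy (Uk.anti x l (Nat.le_succ k) hy'), ?_⟩
      refine Eq.trans ?_ he
      group
  exact key m 1 le_rfl (by omega) v hv

/-- `b v = (b v b⁻¹) b` and `conj_left` -/
theorem conj_right {x : Root n → K → G} (h : Stb K n x) {l : Vec n → ℤ} (hl : ∀ v w, l (v + w) = l v + l w) {m : ℕ} (hm : ∀ r : Root n, l r.1 < m) {b : G}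
    (hb : b ∈ Lv x l) (hs : ∀ k, 1 ≤ k → Sur x l b k) {v : G} (hv : v ∈ Uk x l 1) : ∃ y ∈ Uk x l 1, y⁻¹ * (b * v) * y = b := by
  obtain ⟨y, hy, he⟩ := conj_left hm hs (Uk.conj_Lv h hl le_rfl hb hv)
  refine ⟨y, hy, ?_⟩
  have h1 : b * v = b * v * b⁻¹ * b := by group
  rw [h1]
  exact he
-- END ld

-- BEGIN le
/-- MODULE le. The relabelled system: `Lv (op x) l = Lv x l`. -/
theorem Lv_op (x : Root n → K → G) {l : Vec n → ℤ} (hl : ∀ v w, l (v + w) = l v + l w) : Lv (op x) l = Lv x l := by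
  have h0 : l 0 = 0 := by
    have h := hl 0 0
    rw [add_zero] at h
    omega
  have hneg : ∀ v : Vec n, l (-v) = -l v := by
    intro v
    have h := hl v (-v)
    rw [add_neg_cancel, h0] at h
    omega
  have hr : ∀ r : Root n, (-r).1 = -r.1 := fun r => rfl
  have hrr : ∀ r : Root n, -(-r) = r := fun r => Subtype.ext (by rw [hr, hr, neg_neg])
  unfold Lv Sg
  congr 1
  ext g
  constructor
  · rintro ⟨r, a, h, rfl⟩
    refine ⟨-r, a, ?_, rfl⟩
    show l (-r).1 = 0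
    rw [hr, hneg, h, neg_zero]
  · rintro ⟨r, a, h, rfl⟩
    refine ⟨-r, a, ?_, ?_⟩
    · show l (-r).1 = 0
      rw [hr, hneg, h, neg_zero]
    · show x r a = x (-(-r)) a
      rw [hrr]
-- END le

-- BEGIN lf
universe uQ

/-- MODULE lf. The section as a quotient: an abelian group `A` and a surjective homomorphism `π : Uk k → Multiplicative A` with kernel `Uk (k + 1)` (the quotient of `Uk k` by the normal subgroup `(Uk (k + 1)).subgroupOf (Uk k)`, commutative by `Uk.comm`; `Additive` of it; compare `ThE.Uk.quo`).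
`A` lives in the universe of `G` (with `A : Type _` the stub quantified over all universes, which is false for large `K`). -/
theorem Uk.quo {G : Type uQ} [Group G] {x : Root n → K → G} (h : Stb K n x) {l : Vec n → ℤ} (hl : ∀ v w, l (v + w) = l v + l w) {k : ℕ} (hk : 1 ≤ k) :
    ∃ (A : Type uQ) (_ : AddCommGroup A) (π : Uk x l k →* Multiplicative A), Function.Surjective π ∧ ∀ g : Uk x l k, π g = 1 ↔ (g : G) ∈ Uk x l (k + 1) := by
  have hnor : ((Uk x l (k + 1)).subgroupOf (Uk x l k)).Normal := by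
    constructor
    intro n hn g
    rw [Subgroup.mem_subgroupOf] at hn ⊢
    exact Uk.conj_U h hl (by omega) (Uk.anti x l hk g.2) hn
  have hcm : ∀ a b : Uk x l k ⧸ (Uk x l (k + 1)).subgroupOf (Uk x l k), a * b = b * a := by
    intro a b
    obtain ⟨a, rfl⟩ := QuotientGroup.mk_surjective a
    obtain ⟨b, rfl⟩ := QuotientGroup.mk_surjective b
    rw [← QuotientGroup.mk_mul, ← QuotientGroup.mk_mul, QuotientGroup.eq, Subgroup.mem_subgroupOf]
    have h1 := Uk.comm h hl hk (u := ((b⁻¹ : Uk x l k) : G)) (v := ((a⁻¹ : Uk x l k) : G)) (Uk.anti x l hk (b⁻¹).2) (a⁻¹).2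
    have e : ((b⁻¹ : Uk x l k) : G) * ((a⁻¹ : Uk x l k) : G) * ((b⁻¹ : Uk x l k) : G)⁻¹ * ((a⁻¹ : Uk x l k) : G)⁻¹ =
        (((a * b)⁻¹ * (b * a) : Uk x l k) : G) := by
      push_cast
      group
    rwa [e] at h1
  let gq : CommGroup (Uk x l k ⧸ (Uk x l (k + 1)).subgroupOf (Uk x l k)) :=
    { (inferInstance : Group (Uk x l k ⧸ (Uk x l (k + 1)).subgroupOf (Uk x l k))) with mul_comm := hcm }
  let f : (Uk x l k ⧸ (Uk x l (k + 1)).subgroupOf (Uk x l k)) →*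
      Multiplicative (Additive (Uk x l k ⧸ (Uk x l (k + 1)).subgroupOf (Uk x l k))) :=
    { toFun := fun a => Multiplicative.ofAdd (Additive.ofMul a), map_one' := rfl, map_mul' := fun _ _ => rfl }
  refine ⟨Additive (Uk x l k ⧸ (Uk x l (k + 1)).subgroupOf (Uk x l k)), inferInstance,
    f.comp (QuotientGroup.mk' ((Uk x l (k + 1)).subgroupOf (Uk x l k))), ?_, ?_⟩
  · intro a
    obtain ⟨b, hb⟩ := QuotientGroup.mk_surjective (Additive.toMul (Multiplicative.toAdd a))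
    exact ⟨b, by
      show Multiplicative.ofAdd (Additive.ofMul (QuotientGroup.mk b)) = a
      rw [hb]; rfl⟩
  · intro g
    show (QuotientGroup.mk g : Uk x l k ⧸ (Uk x l (k + 1)).subgroupOf (Uk x l k)) = 1 ↔ _
    rw [QuotientGroup.eq_one_iff, Subgroup.mem_subgroupOf]
-- END lf

/-- the index type of the roots of level `k` -/
abbrev Rk (n : ℕ) (l : Vec n → ℤ) (k : ℕ) : Type := {r : Root n // l r.1 = k}

variable (K) in
/-- the operator of `x_r(a)`, `l r = 0`, on the functions on the roots of level `k`: `e_s ↦ e_s + ep r s a e_(r+s)`; on coordinates `(E f)_t = f_t + ep r (t - r) a f_(t-r)` if `t - r` is a root -/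
noncomputable def Eop {l : Vec n → ℤ} {k : ℕ} (r : Root n) (a : K) (f : Rk n l k → K) : Rk n l k → K := by
  classical
  exact fun t => f t + if h : ∃ s : Rk n l k, t.1.1 = r.1 + s.1.1 then (ep K r.1 h.choose.1.1 : K) * a * f h.choose else 0

end ThK
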