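import Mathlib

/-! # The group `SL_2(F)`: matrices for the rank one computations -/

namespace ThG

variable {F : Type*} [Field F]

/-- `SL_2(F)` -/
abbrev SL2 (F : Type*) [Field F] : Type _ := Matrix.SpecialLinearGroup (Fin 2) F

/-- `1 + a e_01` -/
def up (a : F) : SL2 F := ⟨!![1, a; 0, 1], by simp [Matrix.det_fin_two]⟩

/-- `1 + a e_10` -/
def lo (a : F) : SL2 F := ⟨!![1, 0; a, 1], by simp [Matrix.det_fin_two]⟩

/-- `diag (t, t⁻¹)` -/
def dg (t : Fˣ) : SL2 F := ⟨!![(t : F), 0; 0, ((t⁻¹ : Fˣ) : F)], by simp [Matrix.det_fin_two]⟩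

/-- conjugation with `diag (χ, 1)` -/
def cj (χ : Fˣ) : SL2 F →* SL2 F where
  toFun M := ⟨!![M.1 0 0, (χ : F) * M.1 0 1; ((χ⁻¹ : Fˣ) : F) * M.1 1 0, M.1 1 1], by
    have h := M.2
    rw [Matrix.det_fin_two] at h
    rw [Matrix.det_fin_two_of]
    have h2 : (χ : F) * ((χ⁻¹ : Fˣ) : F) = 1 := Units.mul_inv χ
    linear_combination h - M.1 0 1 * M.1 1 0 * h2⟩
  map_one' := by
    ext i j
    fin_cases i <;> fin_cases j <;> simp
  map_mul' M N := by
    have h2 : (χ : F) * ((χ⁻¹ : Fˣ) : F) = 1 := Units.mul_inv χ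
    ext i j
    fin_cases i <;> fin_cases j <;> simp only [Matrix.SpecialLinearGroup.coe_mul, Matrix.mul_apply, Fin.sum_univ_two, Fin.zero_eta, Fin.mk_one, Fin.isValue,
      Matrix.of_apply, Matrix.cons_val', Matrix.cons_val_zero, Matrix.cons_val_one, Matrix.cons_val_fin_one]
    · linear_combination (- (M.1 0 1 * N.1 1 0)) * h2
    · ring
    · ring
    · linear_combination (- (M.1 1 0 * N.1 0 1)) * h2

-- BEGIN ma
private theorem ma_ext {M N : SL2 F} (h0 : M.1 0 0 = N.1 0 0) (h1 : M.1 0 1 = N.1 0 1) (h2 : M.1 1 0 = N.1 1 0) (h3 : M.1 1 1 = N.1 1 1) : M = N := by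
  apply Subtype.ext
  ext i j
  fin_cases i <;> fin_cases j
  · exact h0
  · exact h1
  · exact h2
  · exact h3

/-- MODULE ma. Identities in `SL_2(F)` (`ext i j; fin_cases i <;> fin_cases j <;> simp [up, ..]`, or compare the four entries). -/
theorem up_add (a b : F) : up (a + b) = up a * up b := by
  apply ma_ext <;> simp [up, Matrix.mul_apply, Fin.sum_univ_two, add_comm]

theorem lo_add (a b : F) : lo (a + b) = lo a * lo b := by
  apply ma_ext <;> simp [lo, Matrix.mul_apply, Fin.sum_univ_two]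

theorem up_zero : up (0 : F) = 1 := by
  apply ma_ext <;> simp [up]

theorem lo_zero : lo (0 : F) = 1 := by
  apply ma_ext <;> simp [lo]

theorem up_inv (a : F) : (up a)⁻¹ = up (-a) := by
  rw [inv_eq_iff_mul_eq_one, ← up_add, add_neg_cancel, up_zero]

theorem lo_inv (a : F) : (lo a)⁻¹ = lo (-a) := by
  rw [inv_eq_iff_mul_eq_one, ← lo_add, add_neg_cancel, lo_zero]

theorem dg_one : dg (1 : Fˣ) = 1 := by
  apply ma_ext <;> simp [dg]

theorem dg_mul (s t : Fˣ) : dg (s * t) = dg s * dg t := by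
  apply ma_ext <;> simp [dg, Matrix.mul_apply, Fin.sum_univ_two, mul_comm]

theorem cj_up (χ : Fˣ) (a : F) : cj χ (up a) = up ((χ : F) * a) := by
  apply ma_ext <;> simp [cj, up]

theorem cj_lo (χ : Fˣ) (a : F) : cj χ (lo a) = lo (((χ⁻¹ : Fˣ) : F) * a) := by
  apply ma_ext <;> simp [cj, lo]

theorem cj_dg (χ t : Fˣ) : cj χ (dg t) = dg t := by
  apply ma_ext <;> simp [cj, dg]

theorem cj_one (M : SL2 F) : cj (1 : Fˣ) M = M := by
  apply ma_ext <;> simp [cj]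

/-- `n(t) n(-1)`, `n(t) = [[0, t], [-t⁻¹, 0]]` -/
theorem dg_eq (t : Fˣ) : dg t = up (t : F) * lo (-((t⁻¹ : Fˣ) : F)) * up (t : F) * (up (-1) * lo 1 * up (-1)) := by
  have ht : (t : F) ≠ 0 := t.ne_zero
  apply ma_ext <;> simp [up, lo, dg, Matrix.mul_apply, Fin.sum_univ_two]
-- END ma

-- BEGIN mb
/-- MODULE mb. If the entry `(0, 0)` is `t ≠ 0` then `g = lo b * dg t * up c` (`b = g_10 / t`, `c = g_01 / t`, `g_11 = (1 + g_01 g_10) / t`). -/
theorem ldu (g : SL2 F) {t : Fˣ} (h : g.1 0 0 = t) : ∃ b c : F, g = lo b * dg t * up c := by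
  have hd := g.2
  rw [Matrix.det_fin_two, h] at hd
  have ht : (t : F) ≠ 0 := t.ne_zero
  refine ⟨g.1 1 0 / t, g.1 0 1 / t, ?_⟩
  apply Subtype.ext
  ext i j
  fin_cases i <;> fin_cases j <;> simp only [lo, dg, up, Matrix.SpecialLinearGroup.coe_mul, Matrix.mul_apply, Fin.sum_univ_two, Fin.zero_eta, Fin.mk_one, Fin.isValue,
      Matrix.of_apply, Matrix.cons_val', Matrix.cons_val_zero, Matrix.cons_val_one, Matrix.cons_val_fin_one, Units.val_inv_eq_inv_val]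
  · rw [h]; ring
  · field_simp
    ring
  · field_simp
    ring
  · field_simp
    linear_combination hd

/-- the entry `(0, 0)` of `up (-a) * g` is `g_00 - a g_10`, not `0` for `a = 0` or `a = -1`; then `ldu` -/
theorem uldu (g : SL2 F) : ∃ (a b : F) (t : Fˣ) (c : F), g = up a * lo b * dg t * up c := by
  have key : ∀ a : F, (up (-a) * g).1 0 0 ≠ 0 → ∃ (a b : F) (t : Fˣ) (c : F), g = up a * lo b * dg t * up c := by
    intro a ha
    obtain ⟨b, c, h⟩ := ldu (up (-a) * g) (t := Units.mk0 _ ha) rfl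
    refine ⟨a, b, Units.mk0 _ ha, c, ?_⟩
    have h1 : g = up a * (up (-a) * g) := by
      rw [← mul_assoc, ← up_add, add_neg_cancel, up_zero, one_mul]
    rw [h] at h1
    exact h1.trans (by simp only [mul_assoc])
  by_cases h0 : g.1 0 0 = 0
  · refine key (-1) ?_
    have hd := g.2
    rw [Matrix.det_fin_two, h0] at hd
    have h1 : (up (-(-1 : F)) * g).1 0 0 = g.1 0 0 + g.1 1 0 := by
      simp [up, Matrix.SpecialLinearGroup.coe_mul, Matrix.mul_apply, Fin.sum_univ_two]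
    rw [h1, h0, zero_add]
    intro h2
    rw [h2] at hd
    simp at hd
  · refine key 0 ?_
    rw [neg_zero, up_zero, one_mul]
    exact h0

/-- from `uldu` and `dg_eq` -/
theorem sl2_gen : Subgroup.closure {g : SL2 F | ∃ a, g = up a ∨ g = lo a} = ⊤ := by
  rw [Subgroup.eq_top_iff']
  intro g
  have hu : ∀ a : F, up a ∈ Subgroup.closure {g : SL2 F | ∃ a, g = up a ∨ g = lo a} := fun a =>
    Subgroup.subset_closure ⟨a, Or.inl rfl⟩
  have hl : ∀ a : F, lo a ∈ Subgroup.closure {g : SL2 F | ∃ a, g = up a ∨ g = lo a} := fun a =>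
    Subgroup.subset_closure ⟨a, Or.inr rfl⟩
  have hd : ∀ t : Fˣ, dg t ∈ Subgroup.closure {g : SL2 F | ∃ a, g = up a ∨ g = lo a} := by
    intro t
    rw [dg_eq]
    exact mul_mem (mul_mem (mul_mem (hu _) (hl _)) (hu _)) (mul_mem (mul_mem (hu _) (hl _)) (hu _))
  obtain ⟨a, b, t, c, h⟩ := uldu g
  rw [h]
  exact mul_mem (mul_mem (mul_mem (hu _) (hl _)) (hd _)) (hu _)
-- END mb

-- BEGIN mc
theorem mc_aux (Y : SL2 F) (m : Matrix (Fin 2) (Fin 2) F) (s p q r u : F) (h0 : Y.1 0 0 = p)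
    (h1 : Y.1 0 1 = q) (h2 : Y.1 1 0 = r) (h3 : Y.1 1 1 = u)
    (h : (p * m 0 0 + q * m 1 0) * u - (p * m 0 1 + q * m 1 1) * r = s) :
    (Y.1 * m * (Y⁻¹).1) 0 0 = s := by
  have hinv : (Y⁻¹).1 = !![Y.1 1 1, -Y.1 0 1; -Y.1 1 0, Y.1 0 0] := by
    rw [show (Y⁻¹).1 = Y.1.adjugate from rfl, Matrix.adjugate_fin_two]
  rw [hinv]
  simp only [Matrix.mul_apply, Fin.sum_univ_two, Matrix.of_apply, Matrix.cons_val',
    Matrix.cons_val_zero, Matrix.cons_val_one, Matrix.cons_val_fin_one, Fin.isValue]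
  rw [h0, h1, h2, h3, ← h]
  ring

/-- MODULE mc. A matrix `m` (`2 × 2`) which is not scalar: for every `s` there is `Y ∈ SL_2(F)` such that the entry `(0, 0)` of `Y m Y⁻¹` is `s`.  There is a vector `v` such that `v`, `m v` are linearly independent (`v` is one of `e_0`, `e_1`, `e_0 + e_1`:
if all three are eigenvectors then `m` is scalar); `v' = m v - s v`, `λ = 1 / det(v, v')`, and `Y⁻¹` is the matrix with the columns `v`, `λ v'` (then `m v = s v + λ⁻¹ (λ v')`). -/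
theorem conj_entry (m : Matrix (Fin 2) (Fin 2) F) (hm : ∀ c : F, m ≠ c • (1 : Matrix (Fin 2) (Fin 2) F)) (s : F) :
    ∃ Y : SL2 F, (Y.1 * m * (Y⁻¹).1) 0 0 = s := by
  by_cases h1 : m 1 0 = 0
  · by_cases h2 : m 0 1 = 0
    · have h3 : m 1 1 - m 0 0 ≠ 0 := by
        intro h3
        refine hm (m 0 0) ?_
        have h4 : m 1 1 = m 0 0 := sub_eq_zero.1 h3
        ext i j
        fin_cases i <;> fin_cases j <;> simp [h1, h2, h4]
      have hdet : Matrix.det !![(m 1 1 - s) / (m 1 1 - m 0 0), -((m 0 0 - s) / (m 1 1 - m 0 0)); -1, 1] = 1 := by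
        rw [Matrix.det_fin_two_of]
        field_simp
        ring
      refine ⟨⟨_, hdet⟩, mc_aux _ m s ((m 1 1 - s) / (m 1 1 - m 0 0))
        (-((m 0 0 - s) / (m 1 1 - m 0 0))) (-1) 1 rfl rfl rfl rfl ?_⟩
      rw [h1, h2]
      field_simp
      ring
    · have hdet : Matrix.det !![1, 0; (m 0 0 - s) / m 0 1, 1] = 1 := by
        rw [Matrix.det_fin_two_of]
        ring
      refine ⟨⟨_, hdet⟩, mc_aux _ m s 1 0 ((m 0 0 - s) / m 0 1) 1 rfl rfl rfl rfl ?_⟩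
      field_simp
      ring
  · have hdet : Matrix.det !![1, (s - m 0 0) / m 1 0; 0, 1] = 1 := by
      rw [Matrix.det_fin_two_of]
      ring
    refine ⟨⟨_, hdet⟩, mc_aux _ m s 1 ((s - m 0 0) / m 1 0) 0 1 rfl rfl rfl rfl ?_⟩
    field_simp
    ring
-- END mc

-- BEGIN md
/-- `cj χ M = D M D⁻¹`, `D = diag (χ, 1)` -/
theorem md_cj (χ : Fˣ) (M : SL2 F) :
    (cj χ M).1 = !![(χ : F), 0; 0, 1] * M.1 * !![((χ⁻¹ : Fˣ) : F), 0; 0, 1] := by
  have hχi : (χ : F) * ((χ⁻¹ : Fˣ) : F) = 1 := Units.mul_inv χ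
  have h1 : (cj χ M).1 = !![M.1 0 0, (χ : F) * M.1 0 1; ((χ⁻¹ : Fˣ) : F) * M.1 1 0, M.1 1 1] := rfl
  rw [h1]
  ext i j
  fin_cases i <;> fin_cases j <;> simp only [Matrix.mul_apply, Fin.sum_univ_two, Fin.zero_eta,
    Fin.mk_one, Fin.isValue, Matrix.of_apply, Matrix.cons_val', Matrix.cons_val_zero,
    Matrix.cons_val_one, Matrix.cons_val_fin_one]
  · linear_combination (-(M.1 0 0)) * hχi
  · ring
  · ring
  · ring

/-- MODULE md. THE MOVE. Let `D = diag (χ, 1)`, `m = lo c * D * up b`; it is scalar iff `c = 0`, `b = 0`, `χ = 1`.  `Y` from `conj_entry` with `s = χ τ`.  `N = Y m Y⁻¹ D⁻¹ = Y * lo c * cj χ (up b * Y⁻¹)` (`cj χ M = D M D⁻¹`) is in `SL_2(F)`, with entry `(0, 0)` equal to `τ`;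
`N = lo c' * dg τ * up (χ b')` by `ldu`.  If `c' = 0`, `b' = 0`, `χ τ τ = 1` then `N D = dg τ * D` is the scalar matrix `χ τ = τ⁻¹`, so `m` is scalar. -/
theorem mat_move (χ τ : Fˣ) (c b : F) (h : ¬ (c = 0 ∧ b = 0 ∧ χ = 1)) :
    ∃ (Y : SL2 F) (c' b' : F), Y * lo c * cj χ (up b * Y⁻¹) = lo c' * dg τ * up ((χ : F) * b') ∧ ¬ (c' = 0 ∧ b' = 0 ∧ τ * τ * χ = 1) := by
  have hχ : (χ : F) ≠ 0 := χ.ne_zero
  have hχi : (χ : F) * ((χ⁻¹ : Fˣ) : F) = 1 := Units.mul_inv χ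
  -- the matrix `m = lo c * D * up b`
  set D : Matrix (Fin 2) (Fin 2) F := !![(χ : F), 0; 0, 1] with hD
  set Di : Matrix (Fin 2) (Fin 2) F := !![((χ⁻¹ : Fˣ) : F), 0; 0, 1] with hDi
  have hDD' : Di * D = 1 := by
    ext i j
    fin_cases i <;> fin_cases j <;> simp [hD, hDi, Matrix.mul_apply, Fin.sum_univ_two]
  have hcj : ∀ M : SL2 F, (cj χ M).1 = D * M.1 * Di := fun M => md_cj χ M
  set m : Matrix (Fin 2) (Fin 2) F := (lo c).1 * D * (up b).1 with hm
  have e1 : m 0 0 = χ := by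
    simp [hm, hD, lo, up]
  have e2 : m 0 1 = (χ : F) * b := by
    simp [hm, hD, lo, up]
  have e3 : m 1 0 = c * χ := by
    simp [hm, hD, lo, up]
  have e4 : m 1 1 = c * χ * b + 1 := by
    simp [hm, hD, lo, up]
  have hsc : ∀ k : F, m ≠ k • (1 : Matrix (Fin 2) (Fin 2) F) := by
    intro k hk
    rw [hk] at e1 e2 e3 e4
    simp only [Matrix.smul_apply, smul_eq_mul, Matrix.one_apply, Fin.isValue, if_true,
      mul_one, one_ne_zero, zero_ne_one, if_false, mul_zero] at e1 e2 e3 e4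
    have hb : b = 0 := by
      rcases mul_eq_zero.1 e2.symm with h1 | h1
      · exact absurd h1 hχ
      · exact h1
    have hc : c = 0 := by
      rcases mul_eq_zero.1 e3.symm with h1 | h1
      · exact h1
      · exact absurd h1 hχ
    refine h ⟨hc, hb, ?_⟩
    ext
    rw [hc, hb] at e4
    rw [← e1, e4]
    simp
  obtain ⟨Y, hY⟩ := conj_entry m hsc ((χ : F) * τ)
  have hYY : (Y⁻¹).1 * Y.1 = 1 := by
    have h1 : Y⁻¹ * Y = 1 := inv_mul_cancel Y
    rw [← Matrix.SpecialLinearGroup.coe_mul, h1, Matrix.SpecialLinearGroup.coe_one]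
  set N : SL2 F := Y * lo c * cj χ (up b * Y⁻¹) with hN
  have hNm : N.1 * D = Y.1 * m * (Y⁻¹).1 := by
    rw [hN, Matrix.SpecialLinearGroup.coe_mul, Matrix.SpecialLinearGroup.coe_mul, hcj,
      Matrix.SpecialLinearGroup.coe_mul, hm]
    calc Y.1 * (lo c).1 * (D * ((up b).1 * (Y⁻¹).1) * Di) * D
        = Y.1 * (lo c).1 * (D * ((up b).1 * (Y⁻¹).1)) * (Di * D) := by
          simp only [Matrix.mul_assoc]
      _ = Y.1 * ((lo c).1 * D * (up b).1) * (Y⁻¹).1 := by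
          rw [hDD', Matrix.mul_one]
          simp only [Matrix.mul_assoc]
  have hN0 : N.1 0 0 = τ := by
    have h1 : (N.1 * D) 0 0 = (χ : F) * τ := by rw [hNm, hY]
    have h2 : (N.1 * D) 0 0 = N.1 0 0 * χ := by
      simp [hD, Matrix.mul_apply, Fin.sum_univ_two]
    rw [h2] at h1
    exact mul_left_cancel₀ hχ (by rw [← h1, mul_comm])
  obtain ⟨c', b'', hL⟩ := ldu N hN0
  refine ⟨Y, c', ((χ⁻¹ : Fˣ) : F) * b'', ?_, ?_⟩
  · rw [← mul_assoc (χ : F), hχi, one_mul, ← hL]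
  · rintro ⟨h1, h2, h3⟩
    have hb : b'' = 0 := by
      rcases mul_eq_zero.1 h2 with h4 | h4
      · exact absurd h4 (χ⁻¹).ne_zero
      · exact h4
    rw [h1, hb, lo_zero, up_zero, one_mul, mul_one] at hL
    have h3' : (τ : F) * χ = ((τ⁻¹ : Fˣ) : F) := by
      have h5 : τ * χ = τ⁻¹ := by
        rw [eq_inv_iff_mul_eq_one, ← h3]
        rw [mul_comm (τ * χ) τ, ← mul_assoc]
      rw [← h5, Units.val_mul]
    have h5 : N.1 * D = ((τ⁻¹ : Fˣ) : F) • (1 : Matrix (Fin 2) (Fin 2) F) := by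
      rw [hL]
      ext i j
      fin_cases i <;> fin_cases j <;> simp [dg, hD, Matrix.mul_apply, Fin.sum_univ_two, h3']
    refine hsc ((τ⁻¹ : Fˣ) : F) ?_
    calc m = ((Y⁻¹).1 * Y.1) * m * ((Y⁻¹).1 * Y.1) := by rw [hYY, Matrix.one_mul, Matrix.mul_one]
      _ = (Y⁻¹).1 * (Y.1 * m * (Y⁻¹).1) * Y.1 := by simp only [Matrix.mul_assoc]
      _ = (Y⁻¹).1 * (((τ⁻¹ : Fˣ) : F) • (1 : Matrix (Fin 2) (Fin 2) F)) * Y.1 := by
        rw [← hNm, h5]
      _ = ((τ⁻¹ : Fˣ) : F) • (1 : Matrix (Fin 2) (Fin 2) F) := by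
        rw [Matrix.mul_smul, Matrix.mul_one, Matrix.smul_mul, hYY]
-- END md

end ThG
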