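import Pool.Agent.ThK.Defs

/-! # Relations in the Steinberg group of type `E_n` -/

namespace ThK
open ThE

variable {K : Type*} [Field K] {n : ℕ} {G : Type*} [Group G]

-- BEGIN ra
private theorem ra_bl_add_left (u v w : Vec n) : bl (u + v) w = bl u w + bl v w := by
  unfold bl
  simp only [← Finset.sum_add_distrib]
  refine Finset.sum_congr rfl fun i _ => Finset.sum_congr rfl fun j _ => ?_
  split_ifs
  · simp only [Prod.snd_add, Pi.add_apply]
    ring
  · rfl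

private theorem ra_bl_add_right (u v w : Vec n) : bl u (v + w) = bl u v + bl u w := by
  unfold bl
  simp only [← Finset.sum_add_distrib]
  refine Finset.sum_congr rfl fun i _ => Finset.sum_congr rfl fun j _ => ?_
  split_ifs
  · simp only [Prod.snd_add, Pi.add_apply]
    ring
  · rfl

private theorem ra_sq (k : ℤ) : ((-1 : Kˣ) ^ k) * (-1) ^ k = 1 := by
  rw [← mul_zpow]
  simp

private theorem ra_inv (k : ℤ) : ((-1 : Kˣ) ^ (-k)) = (-1) ^ k := by
  rw [zpow_neg]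
  exact inv_eq_of_mul_eq_one_left (ra_sq k)

/-- MODULE ra. `bl` is additive in both arguments (`Finset.sum_add_distrib`), so `ep` is multiplicative (`zpow_add`); `((-1)^k)^2 = 1`. -/
theorem ep_add_left (u v w : Vec n) : ep K (u + v) w = ep K u w * ep K v w := by
  unfold ep
  rw [ra_bl_add_left, zpow_add]

theorem ep_add_right (u v w : Vec n) : ep K u (v + w) = ep K u v * ep K u w := by
  unfold ep
  rw [ra_bl_add_right, zpow_add]

theorem ep_neg_left (u w : Vec n) : ep K (-u) w = ep K u w := by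
  unfold ep
  have h : bl (-u) w = - bl u w := by
    unfold bl
    simp only [← Finset.sum_neg_distrib]
    refine Finset.sum_congr rfl fun i _ => Finset.sum_congr rfl fun j _ => ?_
    split_ifs
    · simp only [Prod.snd_neg, Pi.neg_apply]
      ring
    · rfl
  rw [h, ra_inv]

theorem ep_neg_right (u w : Vec n) : ep K u (-w) = ep K u w := by
  unfold ep
  have h : bl u (-w) = - bl u w := by
    unfold bl
    simp only [← Finset.sum_neg_distrib]
    refine Finset.sum_congr rfl fun i _ => Finset.sum_congr rfl fun j _ => ?_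
    split_ifs
    · simp only [Prod.snd_neg, Pi.neg_apply]
      ring
    · rfl
  rw [h, ra_inv]

theorem ep_sq (u w : Vec n) : ep K u w * ep K u w = 1 := by
  unfold ep
  exact ra_sq _
-- END ra

-- BEGIN rb
private theorem rb_bl (v w : Vec n) : bl v w + bl w v = (∑ i, v.2 i) * (∑ i, w.2 i) - ∑ i, v.2 i * w.2 i := by
  have h1 : bl w v = ∑ i, ∑ j, if j < i then v.2 i * w.2 j else 0 := by
    unfold bl
    rw [Finset.sum_comm]
    refine Finset.sum_congr rfl fun i _ => Finset.sum_congr rfl fun j _ => ?_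
    split_ifs
    · ring
    · rfl
  have h2 : ∑ i, v.2 i * w.2 i = ∑ i, ∑ j, if i = j then v.2 i * w.2 j else 0 := by
    refine Finset.sum_congr rfl fun i _ => ?_
    rw [Finset.sum_ite_eq Finset.univ i fun j => v.2 i * w.2 j]
    simp
  rw [h1, h2, Finset.sum_mul_sum, ← Finset.sum_sub_distrib]
  unfold bl
  rw [← Finset.sum_add_distrib]
  refine Finset.sum_congr rfl fun i _ => ?_
  rw [← Finset.sum_add_distrib, ← Finset.sum_sub_distrib]
  refine Finset.sum_congr rfl fun j _ => ?_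
  rcases lt_trichotomy i j with h | h | h
  · rw [if_pos h, if_neg (not_lt.mpr h.le), if_neg h.ne]
    ring
  · subst h
    simp
  · rw [if_neg (not_lt.mpr h.le), if_pos h, if_neg h.ne']
    ring

/-- MODULE rb. `bl v v = ∑_(i<j) m_i m_j`, `2 bl r r = (∑ m)^2 - ∑ m^2 = 9 d^2 - d^2 - 2`, so `bl r r = 4 d^2 - 1` is odd. -/
theorem ep_self (r : Root n) : ep K r.1 r.1 = -1 := by
  have h1 := rb_bl r.1 r.1
  have h2 : ∑ i, r.1.2 i * r.1.2 i = r.1.1 ^ 2 + 2 := by
    rw [← r.2.2]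
    exact Finset.sum_congr rfl fun i _ => (sq _).symm
  rw [h2, r.2.1] at h1
  have h3 : bl r.1 r.1 = 2 * (2 * r.1.1 ^ 2 - 1) + 1 := by
    linarith [h1]
  unfold ep
  rw [h3, zpow_add, zpow_mul]
  simp

/-- `bl r s + bl s r = (∑ m) (∑ m') - ∑ m m' = 9 d d' - (bf r s + d d') = 8 d d' - bf r s`. -/
theorem ep_comm (r s : Root n) : ep K r.1 s.1 * ep K s.1 r.1 = (-1) ^ bf r.1 s.1 := by
  have h1 := rb_bl r.1 s.1
  have h2 : ∑ i, r.1.2 i * s.1.2 i = bf r.1 s.1 + r.1.1 * s.1.1 := by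
    unfold bf
    ring
  rw [h2, r.2.1, s.2.1] at h1
  have h3 : bl r.1 s.1 + bl s.1 r.1 = 2 * (4 * (r.1.1 * s.1.1) - bf r.1 s.1) + bf r.1 s.1 := by
    linarith [h1]
  unfold ep
  rw [← zpow_add, h3, zpow_add, zpow_mul]
  simp
-- END rb

-- BEGIN rc
/-- MODULE rc. -/
theorem Stb.zero {x : Root n → K → G} (h : Stb K n x) (r : Root n) : x r 0 = 1 := by
  have h1 := h.add r 0 0
  rw [add_zero] at h1
  exact (left_eq_mul.1 h1)

theorem Stb.inv {x : Root n → K → G} (h : Stb K n x) (r : Root n) (a : K) : (x r a)⁻¹ = x r (-a) := by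
  have h1 := h.add r a (-a)
  rw [add_neg_cancel, h.zero] at h1
  exact inv_eq_of_mul_eq_one_right h1.symm

/-- from `h.sum` -/
theorem Stb.conj_add {x : Root n → K → G} (h : Stb K n x) {r s t : Root n} (ht : t.1 = r.1 + s.1) (a b : K) :
    x r a * x s b * (x r a)⁻¹ = x t (ep K r.1 s.1 * a * b) * x s b := by
  rw [← h.sum r s t ht a b, inv_mul_cancel_right]

/-- if `bf r s ≥ 0` then `r + s ≠ 0` (`add_ne_zero'`) and `r + s` is not a root (`bf_of_add`) -/
theorem Stb.commute {x : Root n → K → G} (h : Stb K n x) {r s : Root n} (hb : 0 ≤ bf r.1 s.1) (a b : K) :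
    x r a * x s b = x s b * x r a := by
  have h1 := h.comm r s (add_ne_zero' (by omega)) (fun t ht => by
    have := bf_of_add ht
    omega) a b
  rw [mul_inv_eq_one, mul_inv_eq_iff_eq_mul] at h1
  exact h1

/-- `n_r(a)⁻¹ = n_r(-a)` -/
theorem nn_inv {x : Root n → K → G} (h : Stb K n x) (r : Root n) (a : K) : (nn x r a)⁻¹ = nn x r (-a) := by
  unfold nn
  rw [mul_inv_rev, mul_inv_rev, h.inv, h.inv, inv_neg, mul_assoc]

theorem hh_one {x : Root n → K → G} (h : Stb K n x) (r : Root n) : hh x r 1 = 1 := by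
  unfold hh
  rw [← nn_inv h, mul_inv_cancel]
-- END rc

-- BEGIN rd
/-- MODULE rd. The opposite system: `ep (-r) (-s) = ep r s`, `nn (op x) r a = nn x (-r) a`, `hh (op x) r a = hh x (-r) a`. -/
theorem Stb.op {x : Root n → K → G} (h : Stb K n x) : Stb K n (op x) := by
  refine ⟨fun r a b => h.add (-r) a b, ?_, ?_, fun r a b ha hb => h.tor (-r) a b ha hb, ?_⟩
  · intro r s t ht a b
    have h1 := h.sum (-r) (-s) (-t) (by
      rw [neg_val, neg_val, neg_val, ht, neg_add]) a b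
    rw [neg_val, neg_val, ep_neg_left, ep_neg_right] at h1
    exact h1
  · intro r s h0 h1 a b
    refine h.comm (-r) (-s) ?_ ?_ a b
    · intro h2
      apply h0
      rw [neg_val, neg_val, ← neg_add, neg_eq_zero] at h2
      exact h2
    · intro t ht
      apply h1 (-t)
      rw [neg_val, ht, neg_val, neg_val, ← neg_add, neg_neg]
  · rw [← h.gen]
    congr 1
    ext g
    constructor
    · rintro ⟨r, a, rfl⟩
      exact ⟨-r, a, rfl⟩
    · rintro ⟨r, a, rfl⟩
      refine ⟨-r, a, ?_⟩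
      show x r a = x (-(-r)) a
      rw [neg_neg']
-- END rd

-- BEGIN re
theorem re_comm {x : Root n → K → G} (h : Stb K n x) {r s : Root n} (hb : 0 ≤ bf r.1 s.1) (a b : K) :
    x r a * x s b * (x r a)⁻¹ = x s b := by
  rw [h.commute hb, mul_inv_cancel_right]

theorem re_nn {x : Root n → K → G} (r : Root n) (a : K) (g : G) :
    nn x r a * g * (nn x r a)⁻¹ =
      x r a * (x (-r) a⁻¹ * (x r a * g * (x r a)⁻¹) * (x (-r) a⁻¹)⁻¹) * (x r a)⁻¹ := by
  unfold nn
  group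

theorem re_ep (r s t : Root n) (ht : t.1 = r.1 + s.1) :
    (ep K r.1 t.1 : K) = -(ep K r.1 s.1 : K) := by
  have h1 : ep K r.1 t.1 = -ep K r.1 s.1 := by
    rw [ht, ep_add_right, ep_self, neg_one_mul]
  rw [h1, Units.val_neg]

theorem re_sq (u w : Vec n) : (ep K u w : K) * (ep K u w : K) = 1 := by
  have h1 := congrArg (fun z : Kˣ => (z : K)) (ep_sq (K := K) u w)
  simpa using h1

/-- MODULE re. `bf r s = 0`: both `x r`, `x (-r)` commute with `x s`. -/
theorem nn_conj_zero (hn : n ≤ 8) {x : Root n → K → G} (h : Stb K n x) {r s : Root n} (hb : bf r.1 s.1 = 0) (a b : K) :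
    nn x r a * x s b * (nn x r a)⁻¹ = x s b := by
  have h1 : 0 ≤ bf r.1 s.1 := by rw [hb]
  have h2 : 0 ≤ bf (-r).1 s.1 := by rw [neg_val, bf_neg_left, hb, neg_zero]
  rw [re_nn, re_comm h h1, re_comm h h2, re_comm h h1]

/-- `bf r s = -1`, `t = r + s`, `a ≠ 0`.  Conjugation by `x r a`: `x s b ↦ x t (v) x s b`, `v = ep r s a b`.  By `x (-r) a⁻¹`: `x t v ↦ x s (ep (-r) t a⁻¹ v) x t v`, `ep (-r) t = - ep r s` (`ep_add_right`, `ep_self`), so the first factor
is `x s (-b)`; `x s` is fixed (`bf (-r) s = 1`); `x s`, `x t` commute (`bf s t = 1`): the result is `x t v`; by `x r a`: fixed (`bf r t = 1`). -/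
theorem nn_conj_neg_one (hn : n ≤ 8) {x : Root n → K → G} (h : Stb K n x) {r s t : Root n} (ht : t.1 = r.1 + s.1) {a : K} (ha : a ≠ 0) (b : K) :
    nn x r a * x s b * (nn x r a)⁻¹ = x t (ep K r.1 s.1 * a * b) := by
  have hb : bf r.1 s.1 = -1 := bf_of_add ht
  have hb' : bf s.1 r.1 = -1 := by rw [bf_comm]; exact hb
  have h1 : 0 ≤ bf (-r).1 s.1 := by rw [neg_val, bf_neg_left, hb]; norm_num
  have h2 : 0 ≤ bf s.1 t.1 := by rw [ht, bf_add_right, hb', bf_root]; norm_num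
  have h3 : 0 ≤ bf r.1 t.1 := by rw [ht, bf_add_right, hb, bf_root]; norm_num
  have h4 : s.1 = (-r).1 + t.1 := by rw [ht, neg_val, neg_add_cancel_left]
  have e1 : (ep K (-r).1 t.1 : K) * a⁻¹ * (ep K r.1 s.1 * a * b) = -b := by
    rw [neg_val, ep_neg_left, re_ep r s t ht]
    have e2 := re_sq (K := K) r.1 s.1
    calc -(ep K r.1 s.1 : K) * a⁻¹ * (ep K r.1 s.1 * a * b)
        = -((ep K r.1 s.1 : K) * ep K r.1 s.1) * (a⁻¹ * a) * b := by ring
      _ = -b := by rw [e2, inv_mul_cancel₀ ha]; ring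
  have e3 : x (-r) a⁻¹ * (x t (ep K r.1 s.1 * a * b) * x s b) * (x (-r) a⁻¹)⁻¹ =
      (x (-r) a⁻¹ * x t (ep K r.1 s.1 * a * b) * (x (-r) a⁻¹)⁻¹) *
        (x (-r) a⁻¹ * x s b * (x (-r) a⁻¹)⁻¹) := by group
  rw [re_nn, h.conj_add ht, e3, h.conj_add h4, re_comm h h1, e1, h.commute h2, ← h.inv s b,
    inv_mul_cancel_right, re_comm h h3]

/-- `bf r s = 1`, `t = s - r`: from the previous case for `t` (`r + t = s`), `nn_inv`, `ep r t = - ep r s`. -/
theorem nn_conj_one (hn : n ≤ 8) {x : Root n → K → G} (h : Stb K n x) {r s t : Root n} (ht : s.1 = r.1 + t.1) {a : K} (ha : a ≠ 0) (b : K) :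
    nn x r a * x s b * (nn x r a)⁻¹ = x t (ep K r.1 s.1 * a⁻¹ * b) := by
  have h1 := nn_conj_neg_one hn h ht (neg_ne_zero.2 ha) (ep K r.1 s.1 * a⁻¹ * b)
  have e1 : (ep K r.1 t.1 : K) * (-a) * (ep K r.1 s.1 * a⁻¹ * b) = b := by
    have e2 := re_ep (K := K) r t s ht
    have e3 := re_sq (K := K) r.1 t.1
    rw [e2]
    calc (ep K r.1 t.1 : K) * (-a) * (-(ep K r.1 t.1 : K) * a⁻¹ * b)
        = ((ep K r.1 t.1 : K) * ep K r.1 t.1) * (a * a⁻¹) * b := by ring
      _ = b := by rw [e3, mul_inv_cancel₀ ha]; ring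
  rw [e1, ← nn_inv h, inv_inv] at h1
  rw [← h1]
  group
-- END re

-- BEGIN rf
private theorem rf_five : ∀ i : Fin 6, ∑ k : Fin 6, (if k = i then (0 : ℤ) else 1) = 5 := by
  decide

private theorem rf_third : ∀ i j : Fin 6, ∃ k : Fin 6, k ≠ i ∧ k ≠ j := by
  decide

private theorem rf_pos (r : Root 6) (hd : 1 ≤ r.1.1) : ∃ p : Root 6, bf p.1 r.1 = 1 := by
  have hb := (d_bound (by norm_num) r).2
  have hs : ∑ i, r.1.2 i = 3 * r.1.1 := r.2.1
  have hc : r.1.1 = 1 ∨ r.1.1 = 2 ∨ r.1.1 = 3 := by omega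
  rcases hc with hd1 | hd2 | hd3
  · have h01 := cls_one_two r (Or.inl hd1)
    rw [hd1] at hs
    obtain ⟨i, hi⟩ : ∃ i, r.1.2 i = 1 := by
      by_contra hno
      push Not at hno
      have h0 : ∀ i, r.1.2 i = 0 := fun i => (h01 i).resolve_right (hno i)
      rw [Finset.sum_eq_zero fun i _ => h0 i] at hs
      omega
    obtain ⟨j, hj⟩ : ∃ j, r.1.2 j = 0 := by
      by_contra hno
      push Not at hno
      have h1 : ∀ i, r.1.2 i = 1 := fun i => (h01 i).resolve_left (hno i)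
      rw [Finset.sum_congr rfl fun i _ => h1 i] at hs
      simp at hs
    have hij : i ≠ j := by
      intro h
      rw [h, hj] at hi
      omega
    refine ⟨eroot hij, ?_⟩
    rw [bf_eroot, hi, hj]
    norm_num
  · have h01 := cls_one_two r (Or.inr hd2)
    rw [hd2] at hs
    have h1 : ∀ i, r.1.2 i = 1 := by
      intro i
      rcases h01 i with h | h
      · exfalso
        have hle : ∑ k, r.1.2 k ≤ ∑ k : Fin 6, (if k = i then (0 : ℤ) else 1) := by
          refine Finset.sum_le_sum fun k _ => ?_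
          by_cases hk : k = i
          · rw [if_pos hk, hk, h]
          · rw [if_neg hk]
            rcases h01 k with h' | h' <;> omega
        have h5 := rf_five i
        omega
      · exact h
    refine ⟨⟨(1, fun k => if (k : ℕ) < 3 then 1 else 0), by decide⟩, ?_⟩
    show ∑ k : Fin 6, (if (k : ℕ) < 3 then (1 : ℤ) else 0) * r.1.2 k - 1 * r.1.1 = 1
    rw [hd2, Finset.sum_congr rfl fun k _ => by rw [h1 k]]
    decide
  · have h8 := (cls_three (by norm_num) r hd3).1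
    omega

private theorem rf_six (r : Root 6) : ∃ p : Root 6, bf p.1 r.1 = 1 := by
  rcases lt_trichotomy r.1.1 0 with hd | hd | hd
  · have h1 : 1 ≤ (-r).1.1 := by
      rw [neg_val, Prod.fst_neg]; omega
    obtain ⟨a, ha⟩ := rf_pos (-r) h1
    refine ⟨-a, ?_⟩
    rw [neg_val, bf_neg_right] at ha
    rw [neg_val, bf_neg_left]
    exact ha
  · obtain ⟨i, j, hij, h⟩ := cls_zero r hd
    obtain ⟨k, hki, hkj⟩ := rf_third i j
    refine ⟨eroot (Ne.symm hki), ?_⟩
    rw [bf_eroot, h i, h k]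
    simp [hij, hki, hkj]
  · exact rf_pos r (by omega)

/-- MODULE rf. For every root `r` there is a root `p` with `bf p r = 1` (`n = 6, 7, 8`).  `ThE.exists_one` is the case `n = 4 + 3, 4 + 4`; for `n = 6` the same proof, or classification (`cls_zero`, `cls_one_two`, `d_bound`): `r = e_i - e_j`: `p = e_i - e_k`;
`d = 1, 2`: `p = e_i - e_j` with `m_i = 1`, `m_j = 0` (`n = 6`, `d = 2`: `r = (2; 1,..,1)`, `p = (1; 1,1,1,0,0,0)`); negative roots: `-p`. -/
theorem exists_one' (hn : n = 6 ∨ n = 7 ∨ n = 8) (r : Root n) : ∃ p : Root n, bf p.1 r.1 = 1 := by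
  rcases hn with rfl | rfl | rfl
  · exact rf_six r
  · exact exists_one (m := 3) (Or.inl rfl) r
  · exact exists_one (m := 4) (Or.inr rfl) r
-- END rf

-- BEGIN rg
/-- MODULE rg. `p` from `exists_one'`, `q = r - p`, `bf p q = -1`, `bf r p = bf r q = 1`.  `x r (ep p q a b) = x p a x q b (x p a)⁻¹ (x q b)⁻¹`; conjugation by `nn x r c`: `x p a ↦ x (-q) (ep r p c⁻¹ a)`, `x q b ↦ x (-p) (ep r q c⁻¹ b)` (`nn_conj_one`), the commutator is
`x (-r) (ep (-q) (-p) ep r p ep r q c⁻² a b)`, `ep r p ep r q = ep r r = -1`, `ep q p = - ep p q`.  Take `a = 1`, `b = ep p q * u`. -/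
theorem nn_conj_self (hn : n = 6 ∨ n = 7 ∨ n = 8) {x : Root n → K → G} (h : Stb K n x) (r : Root n) {a : K} (ha : a ≠ 0) (b : K) :
    nn x r a * x r b * (nn x r a)⁻¹ = x (-r) (a⁻¹ * a⁻¹ * b) := by
  have hn8 : n ≤ 8 := by omega
  obtain ⟨p, hp⟩ := exists_one' hn r
  obtain ⟨q, hq⟩ := root_sub hp
  have hr : r.1 = p.1 + q.1 := by rw [hq]; exact (add_sub_cancel p.1 r.1).symm
  have hb : bf q.1 p.1 = -1 := by
    rw [hq, bf_sub_left, bf_comm r.1 p.1, hp, bf_root]; norm_num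
  have h1 : p.1 = r.1 + (-q).1 := by rw [neg_val, hr, add_neg_cancel_right]
  have h2 : q.1 = r.1 + (-p).1 := by rw [neg_val, hr, add_comm p.1 q.1, add_neg_cancel_right]
  have h3 : (-r).1 = (-q).1 + (-p).1 := by rw [neg_val, neg_val, neg_val, hr, neg_add_rev]
  have e1 := re_sq (K := K) p.1 q.1
  have e2 : (ep K r.1 p.1 : K) * ep K r.1 q.1 = -1 := by
    have e3 : ep K r.1 p.1 * ep K r.1 q.1 = -1 := by
      rw [← ep_add_right, ← hr, ep_self]
    have e4 := congrArg (fun z : Kˣ => (z : K)) e3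
    simpa using e4
  have e5 : (ep K q.1 p.1 : K) = -(ep K p.1 q.1 : K) := by
    have e6 : ep K q.1 p.1 * ep K p.1 q.1 = -1 := by
      rw [ep_comm, hb]
      simp
    have e7 : (ep K q.1 p.1 : K) * (ep K p.1 q.1 : K) = -1 := by
      have := congrArg (fun z : Kˣ => (z : K)) e6
      simpa using this
    calc (ep K q.1 p.1 : K) = (ep K q.1 p.1 : K) * ((ep K p.1 q.1 : K) * (ep K p.1 q.1 : K)) := by
          rw [e1, mul_one]
      _ = ((ep K q.1 p.1 : K) * (ep K p.1 q.1 : K)) * (ep K p.1 q.1 : K) := by ring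
      _ = -(ep K p.1 q.1 : K) := by rw [e7]; ring
  have k1 := h.sum p q r hr 1 ((ep K p.1 q.1 : K) * b)
  have k2 : (ep K p.1 q.1 : K) * 1 * ((ep K p.1 q.1 : K) * b) = b := by
    calc (ep K p.1 q.1 : K) * 1 * ((ep K p.1 q.1 : K) * b)
        = ((ep K p.1 q.1 : K) * (ep K p.1 q.1 : K)) * b := by ring
      _ = b := by rw [e1, one_mul]
  rw [k2] at k1
  have k3 := nn_conj_one hn8 h h1 ha 1
  have k4 := nn_conj_one hn8 h h2 ha ((ep K p.1 q.1 : K) * b)
  have k5 := h.sum (-q) (-p) (-r) h3 ((ep K r.1 p.1 : K) * a⁻¹ * 1)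
    ((ep K r.1 q.1 : K) * a⁻¹ * ((ep K p.1 q.1 : K) * b))
  have k6 : (ep K (-q).1 (-p).1 : K) * ((ep K r.1 p.1 : K) * a⁻¹ * 1) *
      ((ep K r.1 q.1 : K) * a⁻¹ * ((ep K p.1 q.1 : K) * b)) = a⁻¹ * a⁻¹ * b := by
    rw [neg_val, neg_val, ep_neg_left, ep_neg_right, e5]
    calc -(ep K p.1 q.1 : K) * ((ep K r.1 p.1 : K) * a⁻¹ * 1) *
          ((ep K r.1 q.1 : K) * a⁻¹ * ((ep K p.1 q.1 : K) * b))
        = -(((ep K r.1 p.1 : K) * ep K r.1 q.1) * ((ep K p.1 q.1 : K) * (ep K p.1 q.1 : K))) *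
            (a⁻¹ * a⁻¹ * b) := by ring
      _ = a⁻¹ * a⁻¹ * b := by rw [e1, e2]; ring
  rw [k6, ← k3, ← k4] at k5
  rw [← k1, ← k5]
  group

/-- from the previous one and `nn_inv` -/
theorem nn_conj_neg_self (hn : n = 6 ∨ n = 7 ∨ n = 8) {x : Root n → K → G} (h : Stb K n x) (r : Root n) {a : K} (ha : a ≠ 0) (b : K) :
    nn x r a * x (-r) b * (nn x r a)⁻¹ = x r (a * a * b) := by
  have h1 := nn_conj_self hn h r (neg_ne_zero.2 ha) (a * a * b)
  have e1 : (-a)⁻¹ * (-a)⁻¹ * (a * a * b) = b := by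
    rw [inv_neg]
    calc -a⁻¹ * -a⁻¹ * (a * a * b) = (a⁻¹ * a) * (a⁻¹ * a) * b := by ring
      _ = b := by rw [inv_mul_cancel₀ ha]; ring
  rw [e1, ← nn_inv h, inv_inv] at h1
  rw [← h1]
  group
-- END rg

-- BEGIN rh
/-- MODULE rh. All cases together (`bf_cases`, `bf_ge`, `bf_le`, `rf_val`; `ep r r = -1`, `ep r (-r) = -1`, squares are `1`). -/
theorem nn_conj (hn : n = 6 ∨ n = 7 ∨ n = 8) {x : Root n → K → G} (h : Stb K n x) (r s : Root n) {a : K} (ha : a ≠ 0) (b : K) :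
    nn x r a * x s b * (nn x r a)⁻¹ = x (rf r s) ((ep K r.1 s.1 : K) ^ bf r.1 s.1 * a ^ (-bf r.1 s.1) * b) := by
  have hn8 : n ≤ 8 := by omega
  have hval : (rf r s).1 = s.1 - sv (bf r.1 s.1) r.1 := rf_val r s
  have he : (ep K r.1 s.1 : K) * (ep K r.1 s.1 : K) = 1 := by
    rw [← Units.val_mul, ep_sq, Units.val_one]
  have hei : ((ep K r.1 s.1 : K))⁻¹ = (ep K r.1 s.1 : K) := inv_eq_of_mul_eq_one_left he
  have hsv1 : sv (1 : ℤ) r.1 = r.1 := by
    ext <;> simp [sv]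
  have hsv0 : sv (0 : ℤ) r.1 = 0 := by
    ext <;> simp [sv]
  have hsvm : sv (-1 : ℤ) r.1 = -r.1 := by
    ext <;> simp [sv]
  by_cases h1 : s = r
  · subst h1
    have hb : bf s.1 s.1 = 2 := bf_root s
    have ht : rf s s = -s := by
      apply Subtype.ext
      rw [rf_val, hb, neg_val]
      have : sv (2 : ℤ) s.1 = s.1 + s.1 := by
        ext <;> simp [sv] <;> ring
      rw [this]
      abel
    rw [ht, hb, nn_conj_self hn h s ha b]
    congr 1
    rw [zpow_two, he, zpow_neg, zpow_two, mul_inv]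
    ring
  by_cases h2 : s = -r
  · subst h2
    have hb : bf r.1 (-r).1 = -2 := by rw [neg_val, bf_neg_right, bf_root]
    have ht : rf r (-r) = r := by
      apply Subtype.ext
      rw [rf_val, hb, neg_val]
      have : sv (-2 : ℤ) r.1 = -r.1 - r.1 := by
        ext <;> simp [sv] <;> ring
      rw [this]
      abel
    rw [ht, hb, nn_conj_neg_self hn h r ha b]
    congr 1
    rw [zpow_neg, zpow_two, he, neg_neg, zpow_two]
    ring
  rcases bf_cases hn8 h1 h2 with hb | hb | hb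
  all_goals rw [hb] at hval ⊢
  · rw [nn_conj_neg_one hn8 h (r := r) (s := s) (t := rf r s) (by rw [hval, hsvm]; abel) ha b]
    congr 1
    rw [zpow_neg_one, hei, neg_neg, zpow_one]
  · have ht : rf r s = s := Subtype.ext (by rw [hval, hsv0, sub_zero])
    rw [nn_conj_zero hn8 h hb a b, ht]
    congr 1
    simp
  · rw [nn_conj_one hn8 h (r := r) (s := s) (t := rf r s) (by rw [hval, hsv1]; abel) ha b]
    congr 1
    rw [zpow_one, zpow_neg_one]
-- END rh

-- BEGIN ri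
/-- MODULE ri. `nn x (-r) a = nn x r a⁻¹`: conjugate `x r (a⁻¹) x (-r) a x r (a⁻¹)` .. : `nn x (-r) a` commutes with itself, and by `nn_conj_self` for `r` conjugation by `nn x r a⁻¹` maps
`nn x (-r) a = x (-r) a x r a⁻¹ x (-r) a` to `x r (a⁻¹) x (-r) a x r a⁻¹ = nn x r a⁻¹`; this is an identity `g u g⁻¹ = g` with `g = nn x r a⁻¹`, so `u = g`. -/
theorem nn_neg (hn : n = 6 ∨ n = 7 ∨ n = 8) {x : Root n → K → G} (h : Stb K n x) (r : Root n) {a : K} (ha : a ≠ 0) :
    nn x (-r) a = nn x r a⁻¹ := by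
  have h1 := nn_conj_self hn h r (inv_ne_zero ha) a⁻¹
  have h2 := nn_conj_neg_self hn h r (inv_ne_zero ha) a
  have e1 : (a⁻¹)⁻¹ * (a⁻¹)⁻¹ * a⁻¹ = a := by field_simp
  have e2 : a⁻¹ * a⁻¹ * a = a⁻¹ := by field_simp
  rw [e1] at h1
  rw [e2] at h2
  have hu : nn x (-r) a = x (-r) a * x r a⁻¹ * x (-r) a := by
    show x (-r) a * x (- -r) a⁻¹ * x (-r) a = _
    rw [neg_neg']
  have hg : nn x r a⁻¹ = x r a⁻¹ * x (-r) a * x r a⁻¹ := by
    show x r a⁻¹ * x (-r) (a⁻¹)⁻¹ * x r a⁻¹ = _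
    rw [inv_inv]
  have h3 : nn x r a⁻¹ * nn x (-r) a * (nn x r a⁻¹)⁻¹ = nn x r a⁻¹ := by
    have : nn x r a⁻¹ * (x (-r) a * x r a⁻¹ * x (-r) a) * (nn x r a⁻¹)⁻¹
        = (nn x r a⁻¹ * x (-r) a * (nn x r a⁻¹)⁻¹) * (nn x r a⁻¹ * x r a⁻¹ * (nn x r a⁻¹)⁻¹)
          * (nn x r a⁻¹ * x (-r) a * (nn x r a⁻¹)⁻¹) := by group
    rw [hu, this, h1, h2, ← hg]
  have h4 : nn x r a⁻¹ * nn x (-r) a = nn x r a⁻¹ * nn x r a⁻¹ := by
    rw [← mul_inv_eq_iff_eq_mul]
    exact h3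
  exact mul_left_cancel h4

/-- `nn_conj` for the three factors of `nn x s b` (`rf r (-s) = - rf r s`, the coefficient for `-s` is the inverse of that for `s`). -/
theorem nn_nn (hn : n = 6 ∨ n = 7 ∨ n = 8) {x : Root n → K → G} (h : Stb K n x) (r s : Root n) {a b : K} (ha : a ≠ 0) (hb : b ≠ 0) :
    nn x r a * nn x s b * (nn x r a)⁻¹ = nn x (rf r s) ((ep K r.1 s.1 : K) ^ bf r.1 s.1 * a ^ (-bf r.1 s.1) * b) := by
  have h1 := nn_conj hn h r s ha b
  have h2 := nn_conj hn h r (-s) ha b⁻¹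
  have e1 : (ep K r.1 (-s).1 : K) ^ bf r.1 (-s).1 * a ^ (-bf r.1 (-s).1) * b⁻¹
      = ((ep K r.1 s.1 : K) ^ bf r.1 s.1 * a ^ (-bf r.1 s.1) * b)⁻¹ := by
    rw [neg_val, ep_neg_right, bf_neg_right, mul_inv, mul_inv, ← zpow_neg, ← zpow_neg]
  rw [e1, rf_neg] at h2
  have : nn x r a * nn x s b * (nn x r a)⁻¹
      = (nn x r a * x s b * (nn x r a)⁻¹) * (nn x r a * x (-s) b⁻¹ * (nn x r a)⁻¹)
        * (nn x r a * x s b * (nn x r a)⁻¹) := by
    show nn x r a * (x s b * x (-s) b⁻¹ * x s b) * (nn x r a)⁻¹ = _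
    group
  rw [this, h1, h2]
  rfl
-- END ri

-- BEGIN rj
private theorem rj_ep_sv (u w : Vec n) (k : ℤ) : ep K u (sv k w) = (ep K u w) ^ k := by
  have h : bl u (sv k w) = bl u w * k := by
    unfold bl
    rw [Finset.sum_mul]
    refine Finset.sum_congr rfl fun i _ => ?_
    rw [Finset.sum_mul]
    refine Finset.sum_congr rfl fun j _ => ?_
    split_ifs with hij
    · show u.2 i * (k * w.2 j) = u.2 i * w.2 j * k
      ring
    · rw [zero_mul]
  unfold ep
  rw [h, zpow_mul]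

private theorem rj_sign (k : ℤ) : (((-1 : K) ^ k) ^ (-k)) = (-1) ^ k := by
  rcases Int.even_or_odd k with hk | hk
  · rw [hk.neg_one_zpow, one_zpow]
  · rw [hk.neg_one_zpow, hk.neg.neg_one_zpow]

private theorem rj_coe {e b : K} (he : e ≠ 0) (k : ℤ) (a : K) :
    (e * (-1) ^ k) ^ (-k) * a ^ k * (e ^ k * (-1) ^ (-k) * b) = a ^ k * b := by
  have h1 : e ^ (-k) * e ^ k = 1 := by rw [← zpow_add₀ he, neg_add_cancel, zpow_zero]
  have h2 : ((-1 : K)) ^ k * (-1) ^ (-k) = 1 := by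
    rw [← zpow_add₀ (neg_ne_zero.2 one_ne_zero), add_neg_cancel, zpow_zero]
  rw [mul_zpow, rj_sign]
  calc e ^ (-k) * (-1) ^ k * a ^ k * (e ^ k * (-1) ^ (-k) * b)
      = (e ^ (-k) * e ^ k) * ((-1) ^ k * (-1) ^ (-k)) * (a ^ k * b) := by ring
    _ = a ^ k * b := by rw [h1, h2, one_mul, one_mul]

/-- MODULE rj. `h_r(a)` acts on the root subgroups: `nn_conj` twice (`rf_rf`, `bf r (rf r s) = - bf r s`, `ep r (rf r s) = ep r s (-1)^(bf r s)`). -/
theorem hh_conj (hn : n = 6 ∨ n = 7 ∨ n = 8) {x : Root n → K → G} (h : Stb K n x) (r s : Root n) {a : K} (ha : a ≠ 0) (b : K) :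
    hh x r a * x s b * (hh x r a)⁻¹ = x s (a ^ bf r.1 s.1 * b) := by
  have hb : bf r.1 (rf r s).1 = -bf r.1 s.1 := by
    rw [rf_val, bf_sub_right, bf_sv_right, bf_root]
    ring
  have he : ep K r.1 (rf r s).1 = ep K r.1 s.1 * (-1) ^ bf r.1 s.1 := by
    rw [rf_val, sub_eq_add_neg, ep_add_right, ep_neg_right, rj_ep_sv, ep_self]
  have h1 := nn_conj hn h r s (a := -1) (neg_ne_zero.2 one_ne_zero) b
  have h2 := nn_conj hn h r (rf r s) ha
    ((ep K r.1 s.1 : K) ^ bf r.1 s.1 * (-1) ^ (-bf r.1 s.1) * b)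
  rw [rf_rf, hb, he, neg_neg, Units.val_mul, Units.val_zpow_eq_zpow_val, Units.val_neg, Units.val_one,
    rj_coe (Units.ne_zero _)] at h2
  calc hh x r a * x s b * (hh x r a)⁻¹
      = nn x r a * (nn x r (-1) * x s b * (nn x r (-1))⁻¹) * (nn x r a)⁻¹ := by
        unfold hh
        group
    _ = x s (a ^ bf r.1 s.1 * b) := by rw [h1, h2]

theorem hh_inv {x : Root n → K → G} (h : Stb K n x) (r : Root n) {a : K} (ha : a ≠ 0) : (hh x r a)⁻¹ = hh x r a⁻¹ := by
  have h1 := h.tor r a a⁻¹ ha (inv_ne_zero ha)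
  rw [mul_inv_cancel₀ ha, hh_one h] at h1
  exact inv_eq_of_mul_eq_one_right h1.symm

private theorem rj_quo {x : Root n → K → G} (h : Stb K n x) (s : Root n) {c b : K} (hc : c ≠ 0) (hb : b ≠ 0) :
    nn x s (c * b) * nn x s (-c) = hh x s b := by
  have h1 : hh x s (c * b) = hh x s b * hh x s c := by rw [mul_comm, h.tor s b c hb hc]
  have h2 : nn x s (c * b) = hh x s (c * b) * (nn x s (-1))⁻¹ := by
    unfold hh
    group
  have h3 : hh x s c = nn x s c * nn x s (-1) := rfl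
  rw [h2, h1, h3, ← nn_inv h s c]
  group

/-- `h_r(a) n_s(b) h_r(a)⁻¹ = n_s(a^(r,s) b)`; `h_s(a^k b) = h_s(a^k) h_s(b)` by `h.tor`, so `h_r(a)` and `h_s(b) = n_s(b) n_s(-1)` commute. -/
theorem hh_comm (hn : n = 6 ∨ n = 7 ∨ n = 8) {x : Root n → K → G} (h : Stb K n x) (r s : Root n) {a b : K} (ha : a ≠ 0) (hb : b ≠ 0) :
    hh x r a * hh x s b = hh x s b * hh x r a := by
  have hc : a ^ bf r.1 s.1 ≠ 0 := zpow_ne_zero _ ha
  have key : ∀ u : K, hh x r a * nn x s u * (hh x r a)⁻¹ = nn x s (a ^ bf r.1 s.1 * u) := fun u => by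
    have h1 := hh_conj hn h r s ha u
    have h2 := hh_conj hn h r (-s) ha u⁻¹
    rw [neg_val, bf_neg_right, zpow_neg, ← mul_inv] at h2
    unfold nn
    rw [← h1, ← h2]
    group
  have h3 : hh x r a * hh x s b * (hh x r a)⁻¹ = hh x s b := by
    have h4 := key b
    have h5 := key (-1)
    rw [mul_neg, mul_one] at h5
    have h7 : hh x s b = nn x s b * nn x s (-1) := rfl
    calc hh x r a * hh x s b * (hh x r a)⁻¹
        = (hh x r a * nn x s b * (hh x r a)⁻¹) * (hh x r a * nn x s (-1) * (hh x r a)⁻¹) := by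
          rw [h7]
          group
      _ = nn x s (a ^ bf r.1 s.1 * b) * nn x s (-a ^ bf r.1 s.1) := by rw [h4, h5]
      _ = hh x s b := rj_quo h s hc hb
  exact mul_inv_eq_iff_eq_mul.1 h3

/-- `nn x r a * hh x s b * (nn x r a)⁻¹ = nn x (rf r s) (c b) * nn x (rf r s) (-c) = hh (c b) hh (c)⁻¹ = hh x (rf r s) b` -/
theorem nn_hh (hn : n = 6 ∨ n = 7 ∨ n = 8) {x : Root n → K → G} (h : Stb K n x) (r s : Root n) {a b : K} (ha : a ≠ 0) (hb : b ≠ 0) :
    nn x r a * hh x s b * (nn x r a)⁻¹ = hh x (rf r s) b := by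
  have hc : (ep K r.1 s.1 : K) ^ bf r.1 s.1 * a ^ (-bf r.1 s.1) ≠ 0 :=
    mul_ne_zero (zpow_ne_zero _ (Units.ne_zero _)) (zpow_ne_zero _ ha)
  have h1 := nn_nn hn h r s ha hb
  have h2 := nn_nn hn h r s ha (neg_ne_zero.2 (one_ne_zero (α := K)))
  rw [mul_neg, mul_one] at h2
  rw [← rj_quo h (rf r s) hc hb, ← h1, ← h2]
  unfold hh
  group

/-- `hh x (-r) a = hh x r a⁻¹` (`nn_neg`, `tor`) -/
theorem hh_neg (hn : n = 6 ∨ n = 7 ∨ n = 8) {x : Root n → K → G} (h : Stb K n x) (r : Root n) {a : K} (ha : a ≠ 0) :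
    hh x (-r) a = hh x r a⁻¹ := by
  unfold hh
  rw [nn_neg hn h r ha, nn_neg hn h r (neg_ne_zero.2 (one_ne_zero (α := K))), inv_neg, inv_one]
-- END rj

-- BEGIN rk
/-- MODULE rk. `t = r + s`: `h_t(a) = h_r(a) h_s(a)`.  `nn x r 1 * hh x s a * (nn x r 1)⁻¹ = hh x t a` (`nn_hh`, `rf r s = t`); on the other hand `hh x s a * nn x r 1 * (hh x s a)⁻¹ = nn x r (a⁻¹)` (`hh_conj`, `bf s r = -1`), so
`nn x r 1 * hh x s a * (nn x r 1)⁻¹ = nn x r 1 * (nn x r a⁻¹)⁻¹ * hh x s a = (nn x r a⁻¹ * nn x r (-1))⁻¹ .. = hh x r a * hh x s a` (`nn x r 1 * nn x r (-a⁻¹) = (hh x r a⁻¹)⁻¹` up to conjugation by elements that commute with it). -/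
theorem hh_add (hn : n = 6 ∨ n = 7 ∨ n = 8) {x : Root n → K → G} (h : Stb K n x) {r s t : Root n} (ht : t.1 = r.1 + s.1) {a : K} (ha : a ≠ 0) :
    hh x t a = hh x r a * hh x s a := by
  have hb : bf r.1 s.1 = -1 := bf_of_add ht
  have hb' : bf s.1 r.1 = -1 := by rw [bf_comm]; exact hb
  have hrf : rf r s = t := by
    apply Subtype.ext
    rw [rf_val, hb, ht]
    ext i
    · simp only [sv, Prod.fst_sub, Prod.fst_add]; ring
    · simp only [sv, Prod.snd_sub, Prod.snd_add, Pi.sub_apply, Pi.add_apply]; ring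
  have h1 := nn_hh hn h r s (a := 1) (b := a) one_ne_zero ha
  rw [hrf] at h1
  have h2 : hh x s a * nn x r 1 * (hh x s a)⁻¹ = nn x r a⁻¹ := by
    have e1 := hh_conj hn h s r ha 1
    have e2 := hh_conj hn h s (-r) ha 1
    rw [hb', zpow_neg_one, mul_one] at e1
    rw [neg_val, bf_neg_right, hb', neg_neg, zpow_one, mul_one] at e2
    unfold nn
    rw [inv_one, inv_inv, ← e1, ← e2]
    group
  have h3 : (hh x r a⁻¹)⁻¹ = hh x r a := by
    rw [hh_inv h r (inv_ne_zero ha), inv_inv]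
  have h4 : nn x r 1 * (nn x r a⁻¹)⁻¹ = hh x r a := by
    rw [← h3, hh, mul_inv_rev, nn_inv h r (-1), neg_neg]
  rw [← h1, ← h4, ← h2]
  group
-- END rk

-- BEGIN rl
private theorem rl_nA {x : Root n → K → G} {k : ℕ} (ρ : Fin k → Fin k → Root n) (c : Fin k → Fin k → K)
    (h1 : ∀ i j, i ≠ j → ρ j i = -ρ i j) (c1 : ∀ i j, c i j * c i j = 1) (c2 : ∀ i j, i ≠ j → c j i = -c i j) {i j : Fin k} (hij : i ≠ j) (a : K) : nA (fun i j a => x (ρ i j) (c i j * a)) i j a = nn x (ρ i j) (c i j * a) := by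
  have hc : (c i j)⁻¹ = c i j := inv_eq_of_mul_eq_one_right (c1 i j)
  show x (ρ i j) (c i j * a) * x (ρ j i) (c j i * -a⁻¹) * x (ρ i j) (c i j * a) =
    x (ρ i j) (c i j * a) * x (-ρ i j) (c i j * a)⁻¹ * x (ρ i j) (c i j * a)
  rw [h1 i j hij, c2 i j hij, neg_mul_neg, mul_inv, hc]

private theorem rl_hA {x : Root n → K → G} (h : Stb K n x) {k : ℕ} (ρ : Fin k → Fin k → Root n) (c : Fin k → Fin k → K)
    (h1 : ∀ i j, i ≠ j → ρ j i = -ρ i j) (c1 : ∀ i j, c i j * c i j = 1) (c2 : ∀ i j, i ≠ j → c j i = -c i j) {i j : Fin k} (hij : i ≠ j) {a : K}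
    (ha : a ≠ 0) : hA (fun i j a => x (ρ i j) (c i j * a)) i j a = hh x (ρ i j) a := by
  have hc0 : c i j ≠ 0 := fun e => by
    have := c1 i j
    rw [e, mul_zero] at this
    exact zero_ne_one this
  have e1 : hA (fun i j a => x (ρ i j) (c i j * a)) i j a = nn x (ρ i j) (c i j * a) * nn x (ρ i j) (c i j * -1) := by
    unfold hA
    rw [rl_nA ρ c h1 c1 c2 hij, rl_nA ρ c h1 c1 c2 hij]
  have e2 : nn x (ρ i j) (c i j * a) = hh x (ρ i j) (c i j * a) * (nn x (ρ i j) (-1))⁻¹ := by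
    unfold hh
    group
  have e3 : nn x (ρ i j) (c i j * -1) = nn x (ρ i j) (-1) * (hh x (ρ i j) (c i j))⁻¹ := by
    unfold hh
    rw [mul_neg_one, ← nn_inv h]
    group
  have e4 : hh x (ρ i j) (c i j * a) = hh x (ρ i j) a * hh x (ρ i j) (c i j) := by
    rw [mul_comm, h.tor _ _ _ ha hc0]
  rw [e1, e2, e3, e4]
  group

/-- MODULE rl. Subsystems of type `A_(k-1)`: roots `ρ i j` (`i ≠ j`), `ρ j i = - ρ i j`, `ρ i j + ρ j l = ρ i l`, the other pairs have form `≥ 0`, and signs `c i j`: then `z i j a = x (ρ i j) (c i j a)` satisfies the relations `StA`.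
`nA z i j a = nn x (ρ i j) (c i j a)` (`- c j i = c i j = (c i j)⁻¹`); `wz`: `nn_conj_self`; `tor`: `hA z i j a = nn (c a) nn (-c) = hh (c a) hh (c)⁻¹ = hh a`. -/
theorem StA_of (hn : n = 6 ∨ n = 7 ∨ n = 8) {x : Root n → K → G} (h : Stb K n x) {k : ℕ} (ρ : Fin k → Fin k → Root n) (c : Fin k → Fin k → K)
    (h1 : ∀ i j, i ≠ j → ρ j i = -ρ i j) (h2 : ∀ i j l, i ≠ j → j ≠ l → i ≠ l → (ρ i l).1 = (ρ i j).1 + (ρ j l).1)
    (h3 : ∀ i j a b, i ≠ j → a ≠ b → j ≠ a → i ≠ b → 0 ≤ bf (ρ i j).1 (ρ a b).1) (c1 : ∀ i j, c i j * c i j = 1) (c2 : ∀ i j, i ≠ j → c j i = -c i j)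
    (c3 : ∀ i j l, i ≠ j → j ≠ l → i ≠ l → (ep K (ρ i j).1 (ρ j l).1 : K) * c i j * c j l = c i l) :
    StA K k (fun i j a => x (ρ i j) (c i j * a)) := by
  have hn8 : n ≤ 8 := by omega
  refine ⟨fun i j _ a b => ?_, fun i j l hij hjl hil a b => ?_, fun i j a' b' hij hab hja hib a b => ?_, fun i j hij a b ha => ?_,
    fun i j hij a b ha hb => ?_⟩
  · show x (ρ i j) (c i j * (a + b)) = x (ρ i j) (c i j * a) * x (ρ i j) (c i j * b)
    rw [mul_add, h.add]
  · show x (ρ i j) (c i j * a) * x (ρ j l) (c j l * b) * (x (ρ i j) (c i j * a))⁻¹ * (x (ρ j l) (c j l * b))⁻¹ = x (ρ i l) (c i l * (a * b))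
    rw [h.sum _ _ _ (h2 i j l hij hjl hil), ← c3 i j l hij hjl hil]
    congr 1
    ring
  · exact h.commute (h3 i j a' b' hij hab hja hib) _ _
  · rw [rl_nA ρ c h1 c1 c2 hij]
    have hc0 : c i j ≠ 0 := fun e => by
      have := c1 i j
      rw [e, mul_zero] at this
      exact zero_ne_one this
    have hc : (c i j)⁻¹ = c i j := inv_eq_of_mul_eq_one_right (c1 i j)
    show nn x (ρ i j) (c i j * a) * x (ρ i j) (c i j * b) * (nn x (ρ i j) (c i j * a))⁻¹ = x (ρ j i) (c j i * -(a⁻¹ * a⁻¹ * b))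
    rw [nn_conj_self hn h (ρ i j) (mul_ne_zero hc0 ha), h1 i j hij, c2 i j hij, neg_mul_neg, mul_inv, hc]
    congr 1
    linear_combination c i j * a⁻¹ * a⁻¹ * b * c1 i j
  · rw [rl_hA h ρ c h1 c1 c2 hij (mul_ne_zero ha hb), rl_hA h ρ c h1 c1 c2 hij ha, rl_hA h ρ c h1 c1 c2 hij hb, h.tor _ _ _ ha hb]
-- END rl

-- BEGIN rm
private theorem rm_bl {i j l : Fin n} (hij : i ≠ j) (hjl : j ≠ l) : bl (er hij).1 (er hjl).1 =
    (if i < j then 1 else 0) - (if i < l then 1 else 0) + (if j < l then 1 else 0) := by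
  have e : ∀ p q : Fin n, (if p < q then ((if p = i then 1 else 0) - (if p = j then 1 else 0) : ℤ) *
      ((if q = j then 1 else 0) - (if q = l then 1 else 0) : ℤ) else 0) =
      (if q = j then (if p = i then (if p < q then 1 else 0) else 0) else 0) - (if q = l then (if p = i then (if p < q then 1 else 0) else 0) else 0)
        - (if q = j then (if p = j then (if p < q then 1 else 0) else 0) else 0)
        + (if q = l then (if p = j then (if p < q then 1 else 0) else 0) else 0) := by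
    intro p q
    split_ifs <;> simp
  show ∑ p, ∑ q, (if p < q then ((if p = i then 1 else 0) - (if p = j then 1 else 0) : ℤ) *
      ((if q = j then 1 else 0) - (if q = l then 1 else 0) : ℤ) else 0) = _
  simp only [e, Finset.sum_add_distrib, Finset.sum_sub_distrib, Finset.sum_ite_eq', Finset.mem_univ, if_true, lt_irrefl, if_false, sub_zero]

/-- the roots -/
private def rm_rt (hn : n = 6 ∨ n = 7 ∨ n = 8) (i j : Fin n) : Root n :=
  if h : i ≠ j then er h else er (i := (⟨0, by omega⟩ : Fin n)) (j := ⟨1, by omega⟩) (by simp)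

/-- the signs -/
private def rm_c (K : Type*) [Field K] {n : ℕ} (i j : Fin n) : K := if i < j then -1 else 1

private theorem rm_rt_of (hn : n = 6 ∨ n = 7 ∨ n = 8) {i j : Fin n} (h : i ≠ j) : rm_rt hn i j = er h := dif_pos h

private theorem rm_c2 {i j : Fin n} (h : i ≠ j) : rm_c K j i = -rm_c K i j := by
  unfold rm_c
  rcases lt_or_gt_of_ne h with h1 | h1
  · rw [if_neg (not_lt.2 h1.le), if_pos h1, neg_neg]
  · rw [if_pos h1, if_neg (not_lt.2 h1.le)]

private theorem rm_c1 (i j : Fin n) : rm_c K i j * rm_c K i j = 1 := by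
  unfold rm_c
  split_ifs <;> ring

private theorem rm_h1 (hn : n = 6 ∨ n = 7 ∨ n = 8) {i j : Fin n} (h : i ≠ j) : rm_rt hn j i = -rm_rt hn i j := by
  rw [rm_rt_of hn h, rm_rt_of hn h.symm]
  apply Subtype.ext
  refine Prod.ext ?_ (funext fun k => ?_)
  · show (0 : ℤ) = -0
    rw [neg_zero]
  · show ((if k = j then 1 else 0) - (if k = i then 1 else 0) : ℤ) = -((if k = i then 1 else 0) - (if k = j then 1 else 0))
    ring

private theorem rm_c3 (hn : n = 6 ∨ n = 7 ∨ n = 8) {i j l : Fin n} (hij : i ≠ j) (hjl : j ≠ l) :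
    (ep K (rm_rt hn i j).1 (rm_rt hn j l).1 : K) * rm_c K i j * rm_c K j l = rm_c K i l := by
  rw [rm_rt_of hn hij, rm_rt_of hn hjl]
  unfold ep
  rw [rm_bl hij hjl]
  unfold rm_c
  push_cast
  by_cases h1 : i < j <;> by_cases h2 : i < l <;> by_cases h3 : j < l <;> simp [h1, h2, h3]

private theorem rm_StA (hn : n = 6 ∨ n = 7 ∨ n = 8) {x : Root n → K → G} (h : Stb K n x) :
    StA K n (fun i j a => x (rm_rt hn i j) (rm_c K i j * a)) := by
  refine StA_of hn h (rm_rt hn) (rm_c K) (fun i j hij => rm_h1 hn hij) (fun i j l hij hjl hil => ?_) (fun i j a b hij hab hja hib => ?_)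
    rm_c1 (fun i j hij => rm_c2 hij) (fun i j l hij hjl _ => rm_c3 hn hij hjl)
  · rw [rm_rt_of hn hij, rm_rt_of hn hjl, rm_rt_of hn hil]
    refine Prod.ext ?_ (funext fun k => ?_)
    · show (0 : ℤ) = 0 + 0
      rw [add_zero]
    · show ((if k = i then 1 else 0) - (if k = l then 1 else 0) : ℤ) =
        ((if k = i then 1 else 0) - (if k = j then 1 else 0)) + ((if k = j then 1 else 0) - (if k = l then 1 else 0))
      ring
  · rw [rm_rt_of hn hij, rm_rt_of hn hab]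
    show 0 ≤ bf (eroot hij).1 (eroot hab).1
    rw [bf_eroot]
    show (0 : ℤ) ≤ ((if i = a then 1 else 0) - (if i = b then 1 else 0)) - ((if j = a then 1 else 0) - (if j = b then 1 else 0))
    rw [if_neg hib, if_neg hja]
    split_ifs <;> norm_num

private theorem rm_yy (hn : n = 6 ∨ n = 7 ∨ n = 8) {x : Root n → K → G} {i j : Fin n} (hij : i ≠ j) (a : K) :
    yy x i j a = x (rm_rt hn i j) (rm_c K i j * a) := by
  unfold yy rm_c
  rw [dif_pos hij, rm_rt_of hn hij]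
  split_ifs
  · rw [neg_one_mul]
  · rw [one_mul]

private theorem rm_nA (hn : n = 6 ∨ n = 7 ∨ n = 8) {x : Root n → K → G} {i j : Fin n} (hij : i ≠ j) (a : K) :
    nA (yy x) i j a = nA (fun i j a => x (rm_rt hn i j) (rm_c K i j * a)) i j a := by
  unfold nA
  rw [rm_yy hn hij, rm_yy hn hij.symm]

private theorem rm_hA (hn : n = 6 ∨ n = 7 ∨ n = 8) {x : Root n → K → G} {i j : Fin n} (hij : i ≠ j) (a : K) :
    hA (yy x) i j a = hA (fun i j a => x (rm_rt hn i j) (rm_c K i j * a)) i j a := by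
  unfold hA
  rw [rm_nA hn hij, rm_nA hn hij]

/-- MODULE rm. The system `yy`: roots `e_i - e_j`, signs `-1` for `i < j`, `1` for `i > j`: `bl (e_i - e_j) (e_j - e_l) = [i<j] - [i<l] + [j<l]`. (`StA_of` for any choice at `i = j`, e.g. `ρ i i = ` some root, `c i i = 1`;
`bf (e_i - e_j) v = m_i - m_j`.) -/
theorem sta_yy (hn : n = 6 ∨ n = 7 ∨ n = 8) {x : Root n → K → G} (h : Stb K n x) : StA K n (yy x) := by
  have h0 := rm_StA hn h
  refine ⟨fun i j hij a b => ?_, fun i j l hij hjl hil a b => ?_, fun i j k l hij hkl hjk hil a b => ?_, fun i j hij a b ha => ?_,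
    fun i j hij a b ha hb => ?_⟩
  · rw [rm_yy hn hij, rm_yy hn hij, rm_yy hn hij]
    exact h0.add i j hij a b
  · rw [rm_yy hn hij, rm_yy hn hjl, rm_yy hn hil]
    exact h0.mul i j l hij hjl hil a b
  · rw [rm_yy hn hij, rm_yy hn hkl]
    exact h0.cm i j k l hij hkl hjk hil a b
  · rw [rm_nA hn hij, rm_yy hn hij, rm_yy hn hij.symm]
    exact h0.wz i j hij a b ha
  · rw [rm_hA hn hij, rm_hA hn hij, rm_hA hn hij]
    exact h0.tor i j hij a b ha hb

/-- the torus elements agree: `hA (yy x) i j a = hh x (e_i - e_j) a` -/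
theorem hA_yy (hn : n = 6 ∨ n = 7 ∨ n = 8) {x : Root n → K → G} (h : Stb K n x) {i j : Fin n} (hij : i ≠ j) {a : K} (ha : a ≠ 0) :
    hA (yy x) i j a = hh x (er hij) a := by
  have hc0 : rm_c K i j ≠ 0 := fun e => by
    have := rm_c1 (K := K) i j
    rw [e, mul_zero] at this
    exact zero_ne_one this
  have hc : (rm_c K i j)⁻¹ = rm_c K i j := inv_eq_of_mul_eq_one_right (rm_c1 i j)
  have e0 : ∀ b : K, b ≠ 0 → nA (yy x) i j b = nn x (er hij) (rm_c K i j * b) := by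
    intro b hb
    rw [rm_nA hn hij]
    show x (rm_rt hn i j) (rm_c K i j * b) * x (rm_rt hn j i) (rm_c K j i * -b⁻¹) * x (rm_rt hn i j) (rm_c K i j * b) =
      x (er hij) (rm_c K i j * b) * x (-er hij) (rm_c K i j * b)⁻¹ * x (er hij) (rm_c K i j * b)
    rw [rm_h1 hn hij, rm_c2 hij, neg_mul_neg, mul_inv, hc, rm_rt_of hn hij]
  have e1 : hA (yy x) i j a = nn x (er hij) (rm_c K i j * a) * nn x (er hij) (rm_c K i j * -1) := by
    unfold hA
    rw [e0 a ha, e0 (-1) (neg_ne_zero.2 one_ne_zero)]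
  have e2 : nn x (er hij) (rm_c K i j * a) = hh x (er hij) (rm_c K i j * a) * (nn x (er hij) (-1))⁻¹ := by
    unfold hh
    group
  have e3 : nn x (er hij) (rm_c K i j * -1) = nn x (er hij) (-1) * (hh x (er hij) (rm_c K i j))⁻¹ := by
    unfold hh
    rw [mul_neg_one, ← nn_inv h]
    group
  have e4 : hh x (er hij) (rm_c K i j * a) = hh x (er hij) a * hh x (er hij) (rm_c K i j) := by
    rw [mul_comm, h.tor _ _ _ ha hc0]
  rw [e1, e2, e3, e4]
  group
-- END rm

end ThK
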