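import Pool.Agent.ThK.Defs

/-! # The root systems `E_6`, `E_7`, `E_8`: simple roots -/

namespace ThK
open ThE

variable {n : ℕ}

theorem le6 (hn : n = 6 ∨ n = 7 ∨ n = 8) : 6 ≤ n := by
  rcases hn with h | h | h <;> omega

theorem le8 (hn : n = 6 ∨ n = 7 ∨ n = 8) : n ≤ 8 := by
  rcases hn with h | h | h <;> omega

/-- the simple roots: `α_0 = (1; 1, 1, 1, 0, …)`, `α_i = e_i - e_(i-1)` for `1 ≤ i < n` (the indices of the `e` from `0` to `n - 1`) -/
def sr (hn : n = 6 ∨ n = 7 ∨ n = 8) (i : Fin n) : Root n :=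
  if hi : (i : ℕ) = 0 then ⟨(1, fun j => if (j : ℕ) < 3 then 1 else 0), by
      obtain ⟨m, rfl⟩ := Nat.exists_eq_add_of_le (le6 hn)
      have h3 : (Finset.univ.filter fun j : Fin (6 + m) => (j : ℕ) < 3).card = 3 := by
        have : (Finset.univ.filter fun j : Fin (6 + m) => (j : ℕ) < 3) =
            {⟨0, by omega⟩, ⟨1, by omega⟩, ⟨2, by omega⟩} := by
          ext j
          simp only [Finset.mem_filter, Finset.mem_univ, true_and, Finset.mem_insert, Finset.mem_singleton, Fin.ext_iff]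
          omega
        rw [this]
        rfl
      constructor
      · simp only [Finset.sum_ite, Finset.sum_const_zero, add_zero, Finset.sum_const, h3]
        norm_num
      · simp only [ite_pow, one_pow, zero_pow (two_ne_zero), Finset.sum_ite, Finset.sum_const_zero, add_zero,
          Finset.sum_const, h3]
        norm_num⟩
  else er (i := i) (j := ⟨(i : ℕ) - 1, by omega⟩) (by
      intro e
      have := congrArg Fin.val e
      simp only at this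
      omega)

/-- the value of the character of `r` at the torus element `h(z)`: `χ_r(z) = ∏ z_i ^ (α_i, r)` -/
def chi {K : Type*} [Field K] (hn : n = 6 ∨ n = 7 ∨ n = 8) (r : Root n) (z : Fin n → Kˣ) : Kˣ := ∏ i, z i ^ bf (sr hn i).1 r.1

/-- the embedding of the roots of `E_6` into those of `E_7` -/
def emb (r : Root 6) : Root 7 := ⟨(r.1.1, Fin.snoc (α := fun _ => ℤ) r.1.2 0), by
  have h := r.2
  constructor
  · rw [Fin.sum_univ_castSucc]
    simp only [Fin.snoc_castSucc, Fin.snoc_last, add_zero]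
    exact h.1
  · rw [Fin.sum_univ_castSucc]
    simp only [Fin.snoc_castSucc, Fin.snoc_last]
    rw [h.2]
    ring⟩

-- BEGIN ua
/-- MODULE ua. -/
theorem sr_zero (hn : n = 6 ∨ n = 7 ∨ n = 8) {i : Fin n} (hi : (i : ℕ) = 0) : (sr hn i).1 = ((1, fun j : Fin n => if (j : ℕ) < 3 then 1 else 0) : ℤ × (Fin n → ℤ)) := by
  unfold sr
  rw [dif_pos hi]

theorem sr_succ (hn : n = 6 ∨ n = 7 ∨ n = 8) {i j : Fin n} (hij : (j : ℕ) + 1 = i) (h : i ≠ j) : sr hn i = er h := by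
  have hi : ¬ (i : ℕ) = 0 := by omega
  have hlt : (i : ℕ) - 1 < n := lt_of_le_of_lt (Nat.sub_le _ _) i.2
  have hj : (⟨(i : ℕ) - 1, hlt⟩ : Fin n) = j := Fin.ext (by simp only; omega)
  subst hj
  unfold sr
  rw [dif_neg hi]

theorem emb_ht (r : Root 6) : ht (emb r).1 = ht r.1 := by
  unfold ht emb
  simp only
  rw [Fin.sum_univ_castSucc]
  simp only [Fin.snoc_castSucc, Fin.snoc_last, mul_zero, add_zero, Fin.val_castSucc]

theorem emb_bf (r s : Root 6) : bf (emb r).1 (emb s).1 = bf r.1 s.1 := by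
  unfold bf emb
  simp only
  rw [Fin.sum_univ_castSucc]
  simp only [Fin.snoc_castSucc, Fin.snoc_last, mul_zero, add_zero]

theorem emb_neg (r : Root 6) : emb (-r) = -(emb r) := by
  apply Subtype.ext
  unfold emb
  simp only [neg_val]
  refine Prod.ext rfl (funext fun i => ?_)
  refine Fin.lastCases ?_ (fun j => ?_) i
  · simp only [Fin.snoc_last, Prod.snd_neg, Pi.neg_apply, neg_zero]
  · simp only [Fin.snoc_castSucc, Prod.snd_neg, Pi.neg_apply]

/-- `n = 6`: `emb_ht` and `ThE.ht_ne` (`7 = 4 + 3`); `n = 7, 8`: `ThE.ht_ne` -/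
theorem htne (hn : n = 6 ∨ n = 7 ∨ n = 8) (r : Root n) : ht r.1 ≠ 0 := by
  rcases hn with rfl | rfl | rfl
  · rw [← emb_ht]
    exact ThE.ht_ne (m := 3) (Or.inl rfl) (emb r)
  · exact ThE.ht_ne (m := 3) (Or.inl rfl) r
  · exact ThE.ht_ne (m := 4) (Or.inr rfl) r

/-- the same with `ThE.d_nonneg` -/
theorem dnonneg (hn : n = 6 ∨ n = 7 ∨ n = 8) (r : Root n) (h : 0 < ht r.1) : 0 ≤ r.1.1 := by
  rcases hn with rfl | rfl | rfl
  · rw [← emb_ht] at h
    exact ThE.d_nonneg (m := 3) (Or.inl rfl) (emb r) h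
  · exact ThE.d_nonneg (m := 3) (Or.inl rfl) r h
  · exact ThE.d_nonneg (m := 4) (Or.inr rfl) r h
-- END ua

-- BEGIN ub
private theorem ub_ht6 (v : Vec 6) : ht v = v.2 0 + 2 * v.2 1 + 3 * v.2 2 + 4 * v.2 3 + 5 * v.2 4 +
    6 * v.2 5 - 5 * v.1 := by
  unfold ht
  rw [Fin.sum_univ_six]
  have e0 : (((0 : Fin 6) : ℕ) : ℤ) = 0 := rfl
  have e1 : (((1 : Fin 6) : ℕ) : ℤ) = 1 := rfl
  have e2 : (((2 : Fin 6) : ℕ) : ℤ) = 2 := rfl
  have e3 : (((3 : Fin 6) : ℕ) : ℤ) = 3 := rfl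
  have e4 : (((4 : Fin 6) : ℕ) : ℤ) = 4 := rfl
  have e5 : (((5 : Fin 6) : ℕ) : ℤ) = 5 := rfl
  rw [e0, e1, e2, e3, e4, e5]
  ring

private theorem ub_ht7 (v : Vec 7) : ht v = v.2 0 + 2 * v.2 1 + 3 * v.2 2 + 4 * v.2 3 + 5 * v.2 4 +
    6 * v.2 5 + 7 * v.2 6 - 5 * v.1 := by
  unfold ht
  rw [Fin.sum_univ_seven]
  have e0 : (((0 : Fin 7) : ℕ) : ℤ) = 0 := rfl
  have e1 : (((1 : Fin 7) : ℕ) : ℤ) = 1 := rfl
  have e2 : (((2 : Fin 7) : ℕ) : ℤ) = 2 := rfl
  have e3 : (((3 : Fin 7) : ℕ) : ℤ) = 3 := rfl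
  have e4 : (((4 : Fin 7) : ℕ) : ℤ) = 4 := rfl
  have e5 : (((5 : Fin 7) : ℕ) : ℤ) = 5 := rfl
  have e6 : (((6 : Fin 7) : ℕ) : ℤ) = 6 := rfl
  rw [e0, e1, e2, e3, e4, e5, e6]
  ring

private theorem ub_ht8 (v : Vec 8) : ht v = v.2 0 + 2 * v.2 1 + 3 * v.2 2 + 4 * v.2 3 + 5 * v.2 4 +
    6 * v.2 5 + 7 * v.2 6 + 8 * v.2 7 - 5 * v.1 := by
  unfold ht
  rw [Fin.sum_univ_eight]
  have e0 : (((0 : Fin 8) : ℕ) : ℤ) = 0 := rfl
  have e1 : (((1 : Fin 8) : ℕ) : ℤ) = 1 := rfl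
  have e2 : (((2 : Fin 8) : ℕ) : ℤ) = 2 := rfl
  have e3 : (((3 : Fin 8) : ℕ) : ℤ) = 3 := rfl
  have e4 : (((4 : Fin 8) : ℕ) : ℤ) = 4 := rfl
  have e5 : (((5 : Fin 8) : ℕ) : ℤ) = 5 := rfl
  have e6 : (((6 : Fin 8) : ℕ) : ℤ) = 6 := rfl
  have e7 : (((7 : Fin 8) : ℕ) : ℤ) = 7 := rfl
  rw [e0, e1, e2, e3, e4, e5, e6, e7]
  ring

/-- the arithmetic of `d = 1` and `d = 2` -/
private theorem ub_int {x0 x1 x2 x3 x4 x5 x6 x7 d : ℤ}
    (hs : x0 + x1 + x2 + x3 + x4 + x5 + x6 + x7 = 3 * d)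
    (h : x0 + 2 * x1 + 3 * x2 + 4 * x3 + 5 * x4 + 6 * x5 + 7 * x6 + 8 * x7 - 5 * d = 1)
    (b0 : 0 ≤ x0 ∧ x0 ≤ 1) (b1 : 0 ≤ x1 ∧ x1 ≤ 1) (b2 : 0 ≤ x2 ∧ x2 ≤ 1) (b3 : 0 ≤ x3 ∧ x3 ≤ 1)
    (b4 : 0 ≤ x4 ∧ x4 ≤ 1) (b5 : 0 ≤ x5 ∧ x5 ≤ 1) (b6 : 0 ≤ x6) (b7 : 0 ≤ x7)
    (hd : d = 1 ∨ d = 2) :
    d = 1 ∧ x0 = 1 ∧ x1 = 1 ∧ x2 = 1 ∧ x3 = 0 ∧ x4 = 0 ∧ x5 = 0 ∧ x6 = 0 ∧ x7 = 0 := by
  obtain ⟨l0, u0⟩ := b0
  obtain ⟨l1, u1⟩ := b1
  obtain ⟨l2, u2⟩ := b2
  obtain ⟨l3, u3⟩ := b3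
  obtain ⟨l4, u4⟩ := b4
  obtain ⟨l5, u5⟩ := b5
  rcases hd with rfl | rfl
  · have a3 : x3 = 0 := le_antisymm (by linarith) l3
    have a4 : x4 = 0 := le_antisymm (by linarith) l4
    have a5 : x5 = 0 := le_antisymm (by linarith) l5
    have a6 : x6 = 0 := le_antisymm (by linarith) b6
    have a7 : x7 = 0 := le_antisymm (by linarith) b7
    have a0 : x0 = 1 := le_antisymm u0 (by linarith)
    have a1 : x1 = 1 := le_antisymm u1 (by linarith)
    have a2 : x2 = 1 := le_antisymm u2 (by linarith)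
    exact ⟨rfl, a0, a1, a2, a3, a4, a5, a6, a7⟩
  · exfalso
    linarith

private theorem ub_key (hn : n = 6 ∨ n = 7 ∨ n = 8) {r : Root n} (h : ht r.1 = 1)
    (hd : r.1.1 = 1 ∨ r.1.1 = 2) :
    r.1.1 = 1 ∧ ∀ k : Fin n, r.1.2 k = if (k : ℕ) < 3 then 1 else 0 := by
  have hc : ∀ i : Fin n, 0 ≤ r.1.2 i ∧ r.1.2 i ≤ 1 := fun i => by
    rcases cls_one_two r hd i with h1 | h1 <;> rw [h1] <;> norm_num
  have hs := r.2.1
  rcases hn with rfl | rfl | rfl
  · rw [Fin.sum_univ_six] at hs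
    rw [ub_ht6] at h
    obtain ⟨h0, a0, a1, a2, a3, a4, a5, -, -⟩ := ub_int (x6 := 0) (x7 := 0)
      (by linarith) (by linarith) (hc 0) (hc 1) (hc 2) (hc 3) (hc 4) (hc 5) le_rfl le_rfl hd
    refine ⟨h0, fun k => ?_⟩
    fin_cases k
    · exact a0
    · exact a1
    · exact a2
    · exact a3
    · exact a4
    · exact a5
  · rw [Fin.sum_univ_seven] at hs
    rw [ub_ht7] at h
    obtain ⟨h0, a0, a1, a2, a3, a4, a5, a6, -⟩ := ub_int (x7 := 0)
      (by linarith) (by linarith) (hc 0) (hc 1) (hc 2) (hc 3) (hc 4) (hc 5) (hc 6).1 le_rfl hd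
    refine ⟨h0, fun k => ?_⟩
    fin_cases k
    · exact a0
    · exact a1
    · exact a2
    · exact a3
    · exact a4
    · exact a5
    · exact a6
  · rw [Fin.sum_univ_eight] at hs
    rw [ub_ht8] at h
    obtain ⟨h0, a0, a1, a2, a3, a4, a5, a6, a7⟩ := ub_int
      hs h (hc 0) (hc 1) (hc 2) (hc 3) (hc 4) (hc 5) (hc 6).1 (hc 7).1 hd
    refine ⟨h0, fun k => ?_⟩
    fin_cases k
    · exact a0
    · exact a1
    · exact a2
    · exact a3
    · exact a4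
    · exact a5
    · exact a6
    · exact a7

/-- MODULE ub. `i = 0`: `1 + 2 + 3 - 5 = 1`; `i ≥ 1`: `ht_eroot`. -/
theorem sr_ht (hn : n = 6 ∨ n = 7 ∨ n = 8) (i : Fin n) : ht (sr hn i).1 = 1 := by
  by_cases hi : (i : ℕ) = 0
  · rw [sr_zero hn hi]
    rcases hn with rfl | rfl | rfl
    · rw [ub_ht6]
      decide
    · rw [ub_ht7]
      decide
    · rw [ub_ht8]
      decide
  · have hj : (i : ℕ) - 1 < n := by omega
    have hij : ((⟨(i : ℕ) - 1, hj⟩ : Fin n) : ℕ) + 1 = i := by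
      show (i : ℕ) - 1 + 1 = i
      omega
    have hne : i ≠ ⟨(i : ℕ) - 1, hj⟩ := by
      intro e
      rw [← e] at hij
      omega
    rw [sr_succ hn hij hne]
    have h1 : ht (er hne).1 = (i : ℤ) - (((⟨(i : ℕ) - 1, hj⟩ : Fin n) : ℕ) : ℤ) := ht_eroot hne
    rw [h1]
    omega

/-- If `d = 0` then `r = e_i - e_j` (`cls_zero`) and `ht = i - j = 1`. If `d ≥ 1` (`dnonneg`): the entries are `0`, `1` (`cls_one_two`) for `d ≤ 2`, `2, 1, …, 1` for `d = 3` (`cls_three`, `d_bound`); the height `∑ (i + 1) m_i - 5 d` is `1` only for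
`(1; 1, 1, 1, 0, …)`: for `d = 1` three different places, the sum of the `i + 1` is at least `6` with equality only for the first three; `d = 2`: six places, `≥ 21 - 10`; `d = 3`: `n = 8`, `≥ 37 - 15`. -/
theorem eq_sr (hn : n = 6 ∨ n = 7 ∨ n = 8) {r : Root n} (h : ht r.1 = 1) : ∃ i : Fin n, r = sr hn i := by
  have hd0 := dnonneg hn r (by omega)
  have hd3 := (d_bound (le8 hn) r).2
  rcases (by clear h; omega : r.1.1 = 0 ∨ (r.1.1 = 1 ∨ r.1.1 = 2) ∨ r.1.1 = 3) with hd | hd | hd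
  · obtain ⟨i, j, hij, hk⟩ := cls_zero r hd
    have h1 := ht_of_zero r hd hk
    have hji : (j : ℕ) + 1 = i := by omega
    refine ⟨i, ?_⟩
    rw [sr_succ hn hji hij]
    exact Subtype.ext (Prod.ext hd (funext hk))
  · obtain ⟨h1, h2⟩ := ub_key hn h hd
    have h0 : 0 < n := by
      have := le6 hn
      omega
    refine ⟨⟨0, h0⟩, Subtype.ext ?_⟩
    rw [sr_zero hn rfl]
    exact Prod.ext h1 (funext h2)
  · exfalso
    have hb := fun i => (cls_nonneg (le8 hn) r (by rw [hd]; norm_num) i).2.2.2 hd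
    obtain ⟨h8, -⟩ := cls_three (le8 hn) r hd
    subst h8
    rw [ub_ht8, hd] at h
    linarith [hb 0, hb 1, hb 2, hb 3, hb 4, hb 5, hb 6, hb 7]

theorem sr_inj (hn : n = 6 ∨ n = 7 ∨ n = 8) {i j : Fin n} (h : sr hn i = sr hn j) : i = j := by
  -- the first coordinate is `1` only for `i = 0`
  have hA : ∀ i : Fin n, (i : ℕ) = 0 → (sr hn i).1.1 = 1 := fun i hi => by rw [sr_zero hn hi]
  have hB : ∀ i : Fin n, (i : ℕ) ≠ 0 → (sr hn i).1.1 = 0 ∧
      ∀ k : Fin n, (sr hn i).1.2 k = (if k = i then 1 else 0) - (if (k : ℕ) + 1 = i then 1 else 0) := fun i hi => by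
    have hj : (i : ℕ) - 1 < n := by omega
    have hij : ((⟨(i : ℕ) - 1, hj⟩ : Fin n) : ℕ) + 1 = i := by
      show (i : ℕ) - 1 + 1 = i
      omega
    have hne : i ≠ ⟨(i : ℕ) - 1, hj⟩ := by
      intro e
      rw [← e] at hij
      omega
    rw [sr_succ hn hij hne]
    refine ⟨rfl, fun k => ?_⟩
    show (if k = i then 1 else 0 : ℤ) - (if k = (⟨(i : ℕ) - 1, hj⟩ : Fin n) then 1 else 0) = _
    congr 1
    refine if_congr ⟨fun e => by rw [e]; exact hij, fun e => Fin.ext ?_⟩ rfl rfl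
    show (k : ℕ) = (i : ℕ) - 1
    omega
  by_cases hi : (i : ℕ) = 0
  · by_cases hj : (j : ℕ) = 0
    · exact Fin.ext (hi.trans hj.symm)
    · have h1 := hA i hi
      rw [h, (hB j hj).1] at h1
      exact absurd h1 (by norm_num)
  · by_cases hj : (j : ℕ) = 0
    · have h1 := hA j hj
      rw [← h, (hB i hi).1] at h1
      exact absurd h1 (by norm_num)
    · by_contra hij
      have h1 := (hB i hi).2 i
      rw [h, (hB j hj).2 i, if_neg hij, if_pos rfl] at h1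
      split_ifs at h1 <;> omega
-- END ub

-- BEGIN uc
/-- helper: the simple roots of `E_6` inside `E_7` -/
private theorem uc_emb : ∀ i : Fin 6, (sr (n := 7) (Or.inr (Or.inl rfl)) (Fin.castSucc i)).1 = (emb (sr (n := 6) (Or.inl rfl) i)).1 := by
  decide

/-- MODULE uc. Some root `a` of height `1` with `bf a r = 1`, then `eq_sr`. `n = 7, 8`: `ThE.simple_exists` (look at its statement); `n = 6`: apply it to `emb r`: the simple root found is `sr` of `E_7`; the last one `e_6 - e_5` is impossible (it would mean `m_5 = -1`,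
but for `d ≥ 1` the entries are `≥ 0` (`cls_nonneg`), for `d = 0`: `r = e_i - e_j`, `i > j`, so `j ≠ 5`; `d ≥ 0`: `dnonneg`), the others are `emb (sr _ i)`; `emb_bf`. -/
theorem exists_sr (hn : n = 6 ∨ n = 7 ∨ n = 8) {r : Root n} (h : 2 ≤ ht r.1) : ∃ i : Fin n, bf (sr hn i).1 r.1 = 1 := by
  rcases hn with rfl | rfl | rfl
  · obtain ⟨a, ha, hb⟩ := simple_exists (m := 3) (Or.inl rfl) (emb r) (by rw [emb_ht]; exact h)
    obtain ⟨j, rfl⟩ := eq_sr (n := 7) (Or.inr (Or.inl rfl)) ha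
    induction j using Fin.lastCases with
    | last =>
      exfalso
      have h1 : sr (n := 7) (Or.inr (Or.inl rfl)) (Fin.last 6) = er (i := Fin.last 6) (j := (5 : Fin 7)) (by decide) :=
        sr_succ _ (by decide) _
      rw [h1] at hb
      have h2 : bf (er (i := Fin.last 6) (j := (5 : Fin 7)) (by decide)).1 (emb r).1 = (emb r).1.2 (Fin.last 6) - (emb r).1.2 5 :=
        bf_eroot _ _
      rw [h2] at hb
      have h3 : (emb r).1.2 (Fin.last 6) = 0 := Fin.snoc_last (α := fun _ => ℤ) 0 r.1.2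
      have h4 : (emb r).1.2 5 = r.1.2 5 := Fin.snoc_castSucc (α := fun _ => ℤ) 0 r.1.2 5
      rw [h3, h4] at hb
      have h5 := dnonneg (n := 6) (Or.inl rfl) r (by omega)
      rcases h5.eq_or_lt with h6 | h6
      · obtain ⟨i, j, hij, hk⟩ := cls_zero r h6.symm
        have h7 := ht_of_zero r h6.symm hk
        have h8 := hk 5
        have h9 := i.2
        have h10 := j.2
        by_cases e1 : (5 : Fin 6) = i
        · rw [if_pos e1] at h8
          split_ifs at h8 <;> omega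
        · rw [if_neg e1] at h8
          by_cases e2 : (5 : Fin 6) = j
          · have h11 : (j : ℕ) = 5 := by rw [← e2]; rfl
            omega
          · rw [if_neg e2] at h8
            omega
      · have h7 := (cls_nonneg (n := 6) (by norm_num) r (by omega) 5).1
        omega
    | cast i =>
      refine ⟨i, ?_⟩
      rw [uc_emb, emb_bf] at hb
      exact hb
  · obtain ⟨a, ha, hb⟩ := simple_exists (m := 3) (Or.inl rfl) r h
    obtain ⟨j, rfl⟩ := eq_sr (n := 7) (Or.inr (Or.inl rfl)) ha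
    exact ⟨j, hb⟩
  · obtain ⟨a, ha, hb⟩ := simple_exists (m := 4) (Or.inr rfl) r h
    obtain ⟨j, rfl⟩ := eq_sr (n := 8) (Or.inr (Or.inr rfl)) ha
    exact ⟨j, hb⟩
-- END uc

-- BEGIN ud
/-- MODULE ud. `|d| ≤ 3` (`d_bound`) and `m_i ^ 2 ≤ d ^ 2 + 2 ≤ 11`: finitely many vectors. -/
theorem finite_root (hn : n = 6 ∨ n = 7 ∨ n = 8) : Finite (Root n) := by
  have hsub : {v : ℤ × (Fin n → ℤ) | ∑ i, v.2 i = 3 * v.1 ∧ ∑ i, v.2 i ^ 2 = v.1 ^ 2 + 2} ⊆
      (Set.Icc (-3 : ℤ) 3) ×ˢ (Set.pi Set.univ fun _ : Fin n => Set.Icc (-11 : ℤ) 11) := by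
    intro v hv
    have hb := d_bound (le8 hn) (⟨v, hv⟩ : Root n)
    refine ⟨⟨hb.1, hb.2⟩, fun i _ => ?_⟩
    have h1 : v.2 i ^ 2 ≤ ∑ i, v.2 i ^ 2 :=
      Finset.single_le_sum (f := fun i => v.2 i ^ 2) (fun i _ => sq_nonneg _) (Finset.mem_univ i)
    have h2 : v.1 ^ 2 ≤ 9 := by
      have h3 : -3 ≤ v.1 := hb.1
      have h4 : v.1 ≤ 3 := hb.2
      nlinarith
    rw [hv.2] at h1
    constructor
    · nlinarith
    · nlinarith
  exact Set.Finite.to_subtype (((Set.finite_Icc (-3 : ℤ) 3).prod (Set.Finite.pi fun _ => Set.finite_Icc (-11 : ℤ) 11)).subset hsub)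
-- END ud

-- BEGIN ue
/-- MODULE ue. `rf_val`, `ht_sub`, `ht_sv`. -/
theorem ht_rf (a r : Root n) : ht (rf a r).1 = ht r.1 - bf a.1 r.1 * ht a.1 := by
  rw [rf_val, ht_sub, ht_sv]

/-- `bf a r ≤ 1` since `r ≠ a` (`bf_le`), so `ht (rf a r) ≥ ht r - 1 ≥ 0`, and it is not `0` (`htne`); `rf a r = a` would give `r = rf a a = -a` (`rf_rf`, `rf_self`) of negative height. -/
theorem rf_pos (hn : n = 6 ∨ n = 7 ∨ n = 8) (i : Fin n) {r : Root n} (h : 0 < ht r.1) (h2 : r ≠ sr hn i) : 0 < ht (rf (sr hn i) r).1 ∧ rf (sr hn i) r ≠ sr hn i := by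
  constructor
  · have hb := bf_le (le8 hn) (sr hn i) r
    have hb1 : bf (sr hn i).1 r.1 ≤ 1 := by
      rcases lt_or_eq_of_le hb.1 with h3 | h3
      · omega
      · exact absurd (hb.2 h3) h2
    have e := ht_rf (sr hn i) r
    rw [sr_ht, mul_one] at e
    have hne := htne hn (rf (sr hn i) r)
    omega
  · intro e
    have e2 := rf_rf (sr hn i) r
    rw [e, rf_self] at e2
    rw [← e2, neg_val, ht_neg, sr_ht] at h
    omega

/-- adding a simple root -/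
theorem add_sr (hn : n = 6 ∨ n = 7 ∨ n = 8) (i : Fin n) {r t : Root n} (h : 0 < ht r.1) (ht1 : t.1 = (sr hn i).1 + r.1) : 0 < ht t.1 ∧ t ≠ sr hn i := by
  constructor
  · rw [ht1, ht_add, sr_ht]
    omega
  · rintro rfl
    have e := congrArg ht ht1
    rw [ht_add] at e
    omega

/-- subtracting a simple root: `ht t = ht r - 1 ≥ 0`, not `0`; `t = sr i` would give `r = 2 sr i` (`bf r r = 8`, not `2`: `bf_root`) -/
theorem sub_sr (hn : n = 6 ∨ n = 7 ∨ n = 8) (i : Fin n) {r t : Root n} (h : 0 < ht r.1) (ht1 : t.1 = (-sr hn i).1 + r.1) : 0 < ht t.1 ∧ t ≠ sr hn i := by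
  have e : ht t.1 = -1 + ht r.1 := by rw [ht1, ht_add, neg_val, ht_neg, sr_ht]
  constructor
  · have := htne hn t
    omega
  · rintro rfl
    have e2 : r.1 = (sr hn i).1 + (sr hn i).1 := by
      rw [neg_val] at ht1
      exact (eq_neg_add_iff_add_eq.mp ht1).symm
    have e3 : bf r.1 r.1 = 8 := by
      rw [e2, bf_add_left, bf_add_right, bf_root]
      norm_num
    rw [bf_root] at e3
    omega
-- END ue

-- BEGIN uf
/-- MODULE uf. The Cartan matrix: the node `0` is joined to the node `3`, and `i` to `i + 1` for `i ≥ 1`. `bf_eroot`, `sr_zero`, `sr_succ`. -/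
theorem bf_sr (hn : n = 6 ∨ n = 7 ∨ n = 8) (i j : Fin n) : bf (sr hn i).1 (sr hn j).1 =
    if i = j then 2 else if ((i : ℕ) = 0 ∧ (j : ℕ) = 3) ∨ ((i : ℕ) = 3 ∧ (j : ℕ) = 0) ∨
      (1 ≤ (i : ℕ) ∧ (j : ℕ) = i + 1) ∨ (1 ≤ (j : ℕ) ∧ (i : ℕ) = j + 1) then -1 else 0 := by
  rcases hn with rfl | rfl | rfl
  · revert i j
    decide
  · revert i j
    decide
  · revert i j
    decide
-- END uf

end ThK
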