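import Pool.Agent.ThK.Defs
import Pool.Agent.ThKS.Hom

/-! # `SL_N(K)` is presented by its elementary matrices (proof in `Pool.Agent.ThKS`) -/

namespace ThK

variable {K : Type*} [Field K] {N : ℕ} {Γ : Type*} [Group Γ]

private theorem z_add0 {z : K → Γ} (h : ∀ a b, z (a + b) = z a * z b) : z 0 = 1 := by
  have h1 := h 0 0
  rw [add_zero] at h1
  exact (mul_eq_left.mp h1.symm)

private theorem z_nn (z : Fin N → Fin N → K → Γ) (i j : Fin N) (a : K) : ThKS.ww (z i j) (z j i) a = nA z i j a := rfl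

private theorem z_hh {z : Fin N → Fin N → K → Γ} (h : ∀ i j, i ≠ j → ∀ a b, z i j (a + b) = z i j a * z i j b) {i j : Fin N} (hij : i ≠ j)
    (a : K) : ThKS.hw (z i j) (z j i) a = hA z i j a := by
  have hi : ∀ i j, i ≠ j → ∀ a, (z i j a)⁻¹ = z i j (-a) := fun i j hij a => by
    apply inv_eq_of_mul_eq_one_left
    rw [← h i j hij, neg_add_cancel, z_add0 (h i j hij)]
  have h1 : (nA z i j 1)⁻¹ = nA z i j (-1) := by
    unfold nA
    rw [mul_inv_rev, mul_inv_rev, hi _ _ hij, hi _ _ hij.symm, mul_assoc, inv_neg]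
  rw [ThKS.hw, z_nn, z_nn, h1]
  rfl

theorem StA.stn {z : Fin N → Fin N → K → Γ} (h : StA K N z) : ThKS.Stn K N z where
  sl := fun i j hij =>
    { ax := h.add i j hij
      ay := h.add j i hij.symm
      co := fun t ht u => by
        rw [z_nn, h.wz i j hij t u ht, pow_two]
      hm := fun t u ht hu => by
        rw [z_hh h.add hij, z_hh h.add hij, z_hh h.add hij, h.tor i j hij t u ht hu] }
  mul := h.mul
  com := h.cm

theorem StA.of_stn {z : Fin N → Fin N → K → Γ} (h : ThKS.Stn K N z) : StA K N z where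
  add := fun i j hij => (h.sl i j hij).ax
  mul := h.mul
  cm := h.com
  wz := fun i j hij a b ha => by
    rw [← z_nn, (h.sl i j hij).co a ha b, pow_two]
  tor := fun i j hij a b ha hb => by
    have hadd : ∀ i j, i ≠ j → ∀ a b, z i j (a + b) = z i j a * z i j b := fun i j hij => (h.sl i j hij).ax
    rw [← z_hh hadd hij, ← z_hh hadd hij, ← z_hh hadd hij, (h.sl i j hij).hm a b ha hb]

theorem el_eq (i j : Fin N) (a : K) : el K i j a = ThKS.EE K N i j a := rfl

theorem el_gen (K : Type*) [Field K] (N : ℕ) : Subgroup.closure {g : Matrix.SpecialLinearGroup (Fin N) K | ∃ i j a, i ≠ j ∧ g = el K i j a} = ⊤ := by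
  rw [eq_top_iff]
  intro M _
  by_cases hn : N ≤ 1
  · have h1 : M = 1 := by
      apply Subtype.ext
      rcases Nat.le_one_iff_eq_zero_or_eq_one.mp hn with rfl | rfl
      · ext i; exact i.elim0
      · have h2 : M.1.det = 1 := M.2
        rw [Matrix.det_fin_one] at h2
        ext i j
        rw [Subsingleton.elim i 0, Subsingleton.elim j 0]
        exact h2
    rw [h1]
    exact one_mem _
  · have hN : Nontrivial (Fin N) := by
      refine ⟨⟨0, by omega⟩, ⟨1, by omega⟩, ?_⟩
      intro e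
      exact absurd (congrArg Fin.val e) (by simp)
    have h1 := ThKS.gen_EE M
    refine Subgroup.closure_mono ?_ h1
    rintro _ ⟨i, j, hij, t, rfl⟩
    exact ⟨i, j, t, hij, rfl⟩

theorem el_sta (K : Type*) [Field K] (N : ℕ) : StA K N (el K : Fin N → Fin N → K → Matrix.SpecialLinearGroup (Fin N) K) :=
  StA.of_stn (ThKS.stn_EE K N)

/-- THE PRESENTATION of `SL_N(K)` by its elementary matrices. -/
theorem pres {z : Fin N → Fin N → K → Γ} (h : StA K N z) :
    ∃ f : Matrix.SpecialLinearGroup (Fin N) K →* Γ, ∀ i j, i ≠ j → ∀ a, f (el K i j a) = z i j a :=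
  ThKS.pres h.stn

/-- uniqueness -/
theorem pres_ext {f g : Matrix.SpecialLinearGroup (Fin N) K →* Γ} (h : ∀ i j, i ≠ j → ∀ a, f (el K i j a) = g (el K i j a)) : f = g := by
  refine MonoidHom.eq_of_eqOn_dense (el_gen K N) ?_
  rintro _ ⟨i, j, a, hij, rfl⟩
  exact h i j hij a

end ThK
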