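import Pool.Agent.ThK.Rel
import Pool.Agent.ThK.SLn
import Pool.Agent.ThK.Rts
import Pool.Agent.ThK.Mat2

/-! # The torus and the homomorphisms `SL_2(K) → G` -/

namespace ThK
open ThE ThG

variable {K : Type*} [Field K] {n : ℕ} {G : Type*} [Group G]

/-- the torus element `h(z) = ∏ h_{α_i}(z_i)` -/
def hz (hn : n = 6 ∨ n = 7 ∨ n = 8) (x : Root n → K → G) (z : Fin n → Kˣ) : G := (List.ofFn fun i => hh x (sr hn i) (z i : K)).prod

/-- `t` is the homomorphism `SL_2(K) → G` of the root `r` -/
structure IsTh (x : Root n → K → G) (r : Root n) (t : SL2 K →* G) : Prop where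
  up : ∀ a, t (up a) = x r a
  lo : ∀ a, t (lo a) = x (-r) (-a)
  dg : ∀ c : Kˣ, t (dg c) = hh x r (c : K)

-- BEGIN ta
private theorem ta_list {x : Root n → K → G} (r : Root n) : ∀ (m : ℕ) (f : Fin m → G) (c : Fin m → Kˣ),
    (∀ i b, f i * x r b * (f i)⁻¹ = x r ((c i : K) * b)) → ∀ b, (List.ofFn f).prod * x r b * ((List.ofFn f).prod)⁻¹ = x r (((∏ i, c i : Kˣ) : K) * b) := by
  intro m
  induction m with
  | zero =>
    intro f c _ b
    simp
  | succ m ih =>
    intro f c hf b
    have h1 := ih (fun i => f i.succ) (fun i => c i.succ) (fun i b => hf i.succ b) b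
    rw [List.ofFn_succ, List.prod_cons, Fin.prod_univ_succ, mul_inv_rev]
    have h2 : f 0 * (List.ofFn fun i => f i.succ).prod * x r b * ((List.ofFn fun i => f i.succ).prod⁻¹ * (f 0)⁻¹) =
        f 0 * ((List.ofFn fun i => f i.succ).prod * x r b * ((List.ofFn fun i => f i.succ).prod)⁻¹) * (f 0)⁻¹ := by
      group
    rw [h2, h1, hf 0, Units.val_mul, mul_assoc]

/-- MODULE ta. Each factor: `hh_conj` (`x r b ↦ x r (c ^ bf (α_i) r * b)`). First for products over `List.ofFn` of `m` elements with `f i * x r b * (f i)⁻¹ = x r (c i * b)` (induction on `m`, `List.ofFn_succ`, `Fin.prod_univ_succ`). -/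
theorem hz_conj (hn : n = 6 ∨ n = 7 ∨ n = 8) {x : Root n → K → G} (h : Stb K n x) (z : Fin n → Kˣ) (r : Root n) (b : K) :
    hz hn x z * x r b * (hz hn x z)⁻¹ = x r ((chi hn r z : K) * b) := by
  refine ta_list r n (fun i => hh x (sr hn i) (z i : K)) (fun i => z i ^ bf (sr hn i).1 r.1) (fun i b => ?_) b
  rw [hh_conj hn h _ _ (z i).ne_zero, Units.val_zpow_eq_zpow_val]
-- END ta

-- BEGIN tb
private theorem tb_list {m : ℕ} (f g : Fin m → G) (h : ∀ i j, f i * g j = g j * f i) :
    (List.ofFn fun i => f i * g i).prod = (List.ofFn f).prod * (List.ofFn g).prod := by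
  induction m with
  | zero => simp
  | succ m ih =>
    have e := ih (fun i => f i.succ) (fun i => g i.succ) fun i j => h _ _
    have c : Commute (g 0) (List.ofFn fun i => f i.succ).prod := by
      refine Commute.list_prod_right _ _ fun y hy => ?_
      obtain ⟨i, rfl⟩ := (List.mem_ofFn' _ _).mp hy
      exact (h _ _).symm
    rw [List.ofFn_succ, List.prod_cons, e, List.ofFn_succ, List.prod_cons, List.ofFn_succ, List.prod_cons]
    calc f 0 * g 0 * ((List.ofFn fun i => f i.succ).prod * (List.ofFn fun i => g i.succ).prod)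
        = f 0 * (g 0 * (List.ofFn fun i => f i.succ).prod) * (List.ofFn fun i => g i.succ).prod := by simp only [mul_assoc]
      _ = f 0 * ((List.ofFn fun i => f i.succ).prod * g 0) * (List.ofFn fun i => g i.succ).prod := by rw [c.eq]
      _ = f 0 * (List.ofFn fun i => f i.succ).prod * (g 0 * (List.ofFn fun i => g i.succ).prod) := by simp only [mul_assoc]

/-- MODULE tb. The factors commute (`hh_comm`) and `h.tor`. First: for families `f g : Fin m → G` with `Commute (f i) (g j)`: `(List.ofFn fun i => f i * g i).prod = (List.ofFn f).prod * (List.ofFn g).prod` (induction on `m`). -/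
theorem hz_mul (hn : n = 6 ∨ n = 7 ∨ n = 8) {x : Root n → K → G} (h : Stb K n x) (z w : Fin n → Kˣ) : hz hn x (z * w) = hz hn x z * hz hn x w := by
  have e : (fun i => hh x (sr hn i) (((z * w) i : Kˣ) : K)) = fun i => hh x (sr hn i) (z i : K) * hh x (sr hn i) (w i : K) := by
    funext i
    rw [Pi.mul_apply, Units.val_mul, h.tor _ _ _ (Units.ne_zero _) (Units.ne_zero _)]
  rw [hz, hz, hz, e]
  exact tb_list _ _ fun i j => hh_comm hn h _ _ (Units.ne_zero _) (Units.ne_zero _)

theorem hz_one (hn : n = 6 ∨ n = 7 ∨ n = 8) {x : Root n → K → G} (h : Stb K n x) : hz hn x (1 : Fin n → Kˣ) = 1 := by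
  have e := hz_mul hn h (1 : Fin n → Kˣ) 1
  rw [mul_one] at e
  exact left_eq_mul.mp e

theorem hz_inv (hn : n = 6 ∨ n = 7 ∨ n = 8) {x : Root n → K → G} (h : Stb K n x) (z : Fin n → Kˣ) : (hz hn x z)⁻¹ = hz hn x z⁻¹ := by
  refine inv_eq_of_mul_eq_one_right ?_
  rw [← hz_mul hn h, mul_inv_cancel, hz_one hn h]
-- END tb

-- BEGIN tc
private theorem tc_list : ∀ (m : ℕ) (f : Fin m → G) (i : Fin m), (∀ j, j ≠ i → f j = 1) → (List.ofFn f).prod = f i := by
  intro m
  induction m with
  | zero =>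
    intro f i
    exact i.elim0
  | succ m ih =>
    intro f i hf
    rw [List.ofFn_succ, List.prod_cons]
    rcases Fin.eq_zero_or_eq_succ i with h0 | ⟨i', h0⟩
    · subst h0
      have h1 : ∀ l ∈ List.ofFn (fun i : Fin m => f i.succ), l = 1 := by
        intro l hl
        obtain ⟨j, rfl⟩ := (List.mem_ofFn' _ _).1 hl
        exact hf _ (Fin.succ_ne_zero j)
      rw [List.prod_eq_one h1, mul_one]
    · subst h0
      rw [hf 0 (Fin.succ_ne_zero i').symm, one_mul]
      exact ih (fun j => f j.succ) i' fun j hj => hf _ fun h => hj (Fin.succ_injective m h)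

private theorem tc_update (i : Fin n) (t : Kˣ) (z : Fin n → Kˣ) : Pi.mulSingle i t * z = Function.update z i (t * z i) := by
  funext j
  by_cases h : j = i
  · subst h
    rw [Pi.mul_apply, Pi.mulSingle_eq_same, Function.update_self]
  · rw [Pi.mul_apply, Pi.mulSingle_eq_of_ne h, Function.update_of_ne h, one_mul]

/-- MODULE tc. The product for `z` with one coordinate `≠ 1` (`hh_one`). -/
theorem hz_single (hn : n = 6 ∨ n = 7 ∨ n = 8) {x : Root n → K → G} (h : Stb K n x) (i : Fin n) (t : Kˣ) : hz hn x (Pi.mulSingle i t) = hh x (sr hn i) (t : K) := by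
  unfold hz
  rw [tc_list n _ i fun j hj => ?_]
  · rw [Pi.mulSingle_eq_same]
  · rw [Pi.mulSingle_eq_of_ne hj, Units.val_one, hh_one h]

/-- `hz_single`, `hz_mul`: `Pi.mulSingle i t * z = Function.update z i (t * z i)` -/
theorem hh_hz (hn : n = 6 ∨ n = 7 ∨ n = 8) {x : Root n → K → G} (h : Stb K n x) (i : Fin n) (t : Kˣ) (z : Fin n → Kˣ) :
    hh x (sr hn i) (t : K) * hz hn x z = hz hn x (Function.update z i (t * z i)) := by
  rw [← hz_single hn h, ← hz_mul hn h, tc_update]

/-- `chi` is multiplicative in `z` and `χ_(α_i)` of `Pi.mulSingle i t` is `t ^ 2` (`bf_root`) -/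
theorem chi_update (hn : n = 6 ∨ n = 7 ∨ n = 8) (i : Fin n) (t : Kˣ) (z : Fin n → Kˣ) :
    chi hn (sr hn i) (Function.update z i (t * z i)) = t * t * chi hn (sr hn i) z := by
  unfold chi
  rw [← tc_update]
  have h1 : ∏ j, ((Pi.mulSingle i t : Fin n → Kˣ) * z) j ^ bf (sr hn j).1 (sr hn i).1 =
      (∏ j, (Pi.mulSingle i t : Fin n → Kˣ) j ^ bf (sr hn j).1 (sr hn i).1) * ∏ j, z j ^ bf (sr hn j).1 (sr hn i).1 := by
    rw [← Finset.prod_mul_distrib]
    refine Finset.prod_congr rfl fun j _ => ?_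
    rw [Pi.mul_apply, mul_zpow]
  rw [h1, Finset.prod_eq_single i (fun j _ hj => by rw [Pi.mulSingle_eq_of_ne hj, one_zpow]) (fun h => absurd (Finset.mem_univ i) h),
    Pi.mulSingle_eq_same, bf_root, zpow_two]

/-- `chi` of `-r` -/
theorem chi_neg (hn : n = 6 ∨ n = 7 ∨ n = 8) (r : Root n) (z : Fin n → Kˣ) : chi hn (-r) z = (chi hn r z)⁻¹ := by
  unfold chi
  rw [← Finset.prod_inv_distrib]
  refine Finset.prod_congr rfl fun i _ => ?_
  have h1 : bf (sr hn i).1 (-r).1 = - bf (sr hn i).1 r.1 := bf_neg_right _ _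
  rw [h1, zpow_neg]
-- END tc

-- BEGIN td
/-- MODULE td. The set of the `hz z'` is a subgroup (`hz_mul`, `hz_one`, `hz_inv`); each factor: `nn_hh`: `hh x (rf α_i α_j) c`, and `rf α_i α_j` is `-α_i` (`j = i`; `hh_neg`), `α_j` (form `0`) or `α_j + α_i` (form `-1`; `hh_add`); form `1` is impossible (`α_j - α_i` would be a root of height `0`:
`root_sub`, `sr_ht`, `htne`), `2` and `-2`: `bf_le`, `bf_ge`; `hz_single`. -/
theorem nn_hz (hn : n = 6 ∨ n = 7 ∨ n = 8) {x : Root n → K → G} (h : Stb K n x) (i : Fin n) (z : Fin n → Kˣ) :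
    ∃ z' : Fin n → Kˣ, nn x (sr hn i) 1 * hz hn x z * (nn x (sr hn i) 1)⁻¹ = hz hn x z' := by
  let H : Subgroup G :=
    { carrier := {g | ∃ z' : Fin n → Kˣ, g = hz hn x z'}
      mul_mem' := by rintro _ _ ⟨a, rfl⟩ ⟨b, rfl⟩; exact ⟨a * b, (hz_mul hn h a b).symm⟩
      one_mem' := ⟨1, (hz_one hn h).symm⟩
      inv_mem' := by rintro _ ⟨a, rfl⟩; exact ⟨a⁻¹, hz_inv hn h a⟩ }
  have hs : ∀ (j : Fin n) (c : Kˣ), hh x (sr hn j) (c : K) ∈ H := fun j c => ⟨Pi.mulSingle j c, (hz_single hn h j c).symm⟩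
  have hc : ∀ (j : Fin n) (c : Kˣ), hh x (rf (sr hn i) (sr hn j)) (c : K) ∈ H := by
    intro j c
    have hb := bf_sr hn i j
    by_cases hij : i = j
    · subst hij
      rw [rf_self, hh_neg hn h _ c.ne_zero, ← Units.val_inv_eq_inv_val]
      exact hs _ _
    · rw [if_neg hij] at hb
      split_ifs at hb with hc
      · have e : (rf (sr hn i) (sr hn j)).1 = (sr hn i).1 + (sr hn j).1 := by
          rw [rf_val, hb]
          refine Prod.ext ?_ (funext fun k => ?_)
          · simp only [sv, Prod.fst_sub, Prod.fst_add]; ring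
          · simp only [sv, Prod.snd_sub, Prod.snd_add, Pi.sub_apply, Pi.add_apply]; ring
        rw [hh_add hn h e c.ne_zero]
        exact mul_mem (hs _ _) (hs _ _)
      · have e : rf (sr hn i) (sr hn j) = sr hn j := by
          apply Subtype.ext
          rw [rf_val, hb]
          refine Prod.ext ?_ (funext fun k => ?_)
          · simp only [sv, Prod.fst_sub]; ring
          · simp only [sv, Prod.snd_sub, Pi.sub_apply]; ring
        rw [e]
        exact hs _ _
  have key : ∀ L : List G, (∀ g ∈ L, nn x (sr hn i) 1 * g * (nn x (sr hn i) 1)⁻¹ ∈ H) →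
      nn x (sr hn i) 1 * L.prod * (nn x (sr hn i) 1)⁻¹ ∈ H := by
    intro L
    induction L with
    | nil => intro _; simp [H.one_mem]
    | cons g L ih =>
      intro hL
      have e : nn x (sr hn i) 1 * (g :: L).prod * (nn x (sr hn i) 1)⁻¹ =
          (nn x (sr hn i) 1 * g * (nn x (sr hn i) 1)⁻¹) * (nn x (sr hn i) 1 * L.prod * (nn x (sr hn i) 1)⁻¹) := by
        rw [List.prod_cons]; group
      rw [e]
      exact mul_mem (hL g (List.mem_cons_self ..)) (ih fun g' hg' => hL g' (List.mem_cons_of_mem _ hg'))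
  refine key (List.ofFn fun j => hh x (sr hn j) (z j : K)) fun g hg => ?_
  obtain ⟨j, rfl⟩ := List.mem_ofFn.1 hg
  rw [nn_hh hn h _ _ one_ne_zero (z j).ne_zero]
  exact hc j (z j)
-- END td

-- BEGIN te
/-- MODULE te. `StA_of` for `k = 2`, `ρ 0 1 = r`, `ρ 1 0 = -r`, `c 0 1 = 1`, `c 1 0 = -1` (anything on the diagonal, e.g. `ρ i i = r`, `c i i = 1`), and `pres`; `el K 0 1 a = up a`, `el K 1 0 a = lo a`; `dg c`: `dg_eq`,
so `t (dg c) = x r c * x (-r) c⁻¹ * x r c * (x r (-1) * x (-r) (-1) * x r (-1)) = nn x r c * nn x r (-1)`. -/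
theorem exists_th (hn : n = 6 ∨ n = 7 ∨ n = 8) {x : Root n → K → G} (h : Stb K n x) (r : Root n) : ∃ t : SL2 K →* G, IsTh x r t := by
  have hS := StA_of hn h (k := 2) (fun i _ => if i = 0 then r else -r) (fun i _ => if i = 0 then 1 else -1)
    (by
      intro i j hij
      fin_cases i <;> fin_cases j <;> simp_all)
    (by
      intro i j l hij hjl hil
      exfalso
      fin_cases i <;> fin_cases j <;> fin_cases l <;> simp_all)
    (by
      intro i j a b hij hab hja hib
      have : i = a := by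
        fin_cases i <;> fin_cases j <;> fin_cases a <;> simp_all
      subst this
      show 0 ≤ bf (if i = 0 then r else -r).1 (if i = 0 then r else -r).1
      rw [bf_root]; norm_num)
    (by
      intro i j
      fin_cases i <;> simp)
    (by
      intro i j hij
      fin_cases i <;> fin_cases j <;> simp_all)
    (by
      intro i j l hij hjl hil
      exfalso
      fin_cases i <;> fin_cases j <;> fin_cases l <;> simp_all)
  obtain ⟨f, hf⟩ := pres hS
  have e01 : ∀ a : K, el K (0 : Fin 2) 1 a = up a := by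
    intro a
    have h01 : (0 : Fin 2) ≠ 1 := by decide
    apply Subtype.ext
    simp only [el, dif_pos h01, up]
    ext i j
    fin_cases i <;> fin_cases j <;> simp [Matrix.transvection, Matrix.single]
  have e10 : ∀ a : K, el K (1 : Fin 2) 0 a = lo a := by
    intro a
    have h01 : (1 : Fin 2) ≠ 0 := by decide
    apply Subtype.ext
    simp only [el, dif_pos h01, lo]
    ext i j
    fin_cases i <;> fin_cases j <;> simp [Matrix.transvection, Matrix.single]
  have hup : ∀ a, f (up a) = x r a := by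
    intro a
    rw [← e01, hf 0 1 (by decide) a]
    simp
  have hlo : ∀ a, f (lo a) = x (-r) (-a) := by
    intro a
    rw [← e10, hf 1 0 (by decide) a]
    simp
  refine ⟨f, hup, hlo, fun c => ?_⟩
  rw [dg_eq]
  simp only [map_mul, hup, hlo, hh, nn, neg_neg, Units.val_inv_eq_inv_val, inv_neg, inv_one]
-- END te

end ThK
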