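import Pool.Agent.ThK.Tor
import Pool.Agent.ThK.Lev

/-! # The unipotent subgroups -/

namespace ThK
open ThE ThG

variable {K : Type*} [Field K] {n : ℕ} {G : Type*} [Group G]

/-- the subgroup generated by the positive root elements -/
def Up (x : Root n → K → G) : Subgroup G := Sg x fun r => 0 < ht r.1

/-- the same without the simple root `α_i` -/
def Ui (hn : n = 6 ∨ n = 7 ∨ n = 8) (x : Root n → K → G) (i : Fin n) : Subgroup G := Sg x fun r => 0 < ht r.1 ∧ r ≠ sr hn i

-- BEGIN va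
/-- MODULE va. `Sg.conj` and `add_sr` (`s = -α_i` has negative height). -/
theorem Ui_pos (hn : n = 6 ∨ n = 7 ∨ n = 8) {x : Root n → K → G} (h : Stb K n x) (i : Fin n) (a : K) {u : G} (hu : u ∈ Ui hn x i) :
    x (sr hn i) a * u * (x (sr hn i) a)⁻¹ ∈ Ui hn x i := by
  refine Sg.conj h (fun s hs he => ?_) (fun s t hs ht1 => add_sr hn i hs.1 ht1) a hu
  have h1 := hs.1
  rw [he, neg_val, ht_neg, sr_ht hn i] at h1
  omega

/-- `Sg.conj` and `sub_sr` -/
theorem Ui_neg (hn : n = 6 ∨ n = 7 ∨ n = 8) {x : Root n → K → G} (h : Stb K n x) (i : Fin n) (a : K) {u : G} (hu : u ∈ Ui hn x i) :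
    x (-sr hn i) a * u * (x (-sr hn i) a)⁻¹ ∈ Ui hn x i := by
  refine Sg.conj h (fun s hs he => hs.2 ?_) (fun s t hs ht1 => sub_sr hn i hs.1 ht1) a hu
  rw [he, neg_neg']

/-- `hz` normalizes every `Sg x p` (`hz_conj`) -/
theorem Sg_hz (hn : n = 6 ∨ n = 7 ∨ n = 8) {x : Root n → K → G} (h : Stb K n x) (p : Root n → Prop) (z : Fin n → Kˣ) {u : G} (hu : u ∈ Sg x p) :
    hz hn x z * u * (hz hn x z)⁻¹ ∈ Sg x p := by
  unfold Sg at hu
  induction hu using Subgroup.closure_induction with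
  | mem g hg =>
    obtain ⟨r, a, hr, rfl⟩ := hg
    rw [hz_conj hn h z r a]
    exact Sg.mem hr _
  | one =>
    rw [mul_one, mul_inv_cancel]
    exact Subgroup.one_mem _
  | mul a b _ _ ha hb =>
    have : hz hn x z * (a * b) * (hz hn x z)⁻¹
        = (hz hn x z * a * (hz hn x z)⁻¹) * (hz hn x z * b * (hz hn x z)⁻¹) := by group
    rw [this]
    exact Subgroup.mul_mem _ ha hb
  | inv a _ ha =>
    have : hz hn x z * a⁻¹ * (hz hn x z)⁻¹ = (hz hn x z * a * (hz hn x z)⁻¹)⁻¹ := by group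
    rw [this]
    exact Subgroup.inv_mem _ ha
-- END va

-- BEGIN vb
/-- MODULE vb. The set of the `x (α_i) a * u'`, `u' ∈ Ui`, is stable under left multiplication by the generators of `Up` (`x r b` with `r ≠ α_i`: `x r b * x α_i a = x α_i a * ((x α_i a)⁻¹ * x r b * x α_i a)` and `Ui_pos`). -/
theorem Up_split (hn : n = 6 ∨ n = 7 ∨ n = 8) {x : Root n → K → G} (h : Stb K n x) (i : Fin n) {u : G} (hu : u ∈ Up x) :
    ∃ a, ∃ u' ∈ Ui hn x i, u = x (sr hn i) a * u' := by
  have step : ∀ (r : Root n) (b : K), 0 < ht r.1 → ∀ y : G, (∃ a, ∃ u' ∈ Ui hn x i, y = x (sr hn i) a * u') →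
      ∃ a, ∃ u' ∈ Ui hn x i, x r b * y = x (sr hn i) a * u' := by
    rintro r b hr _ ⟨a, u', hu', rfl⟩
    by_cases hri : r = sr hn i
    · subst hri
      exact ⟨b + a, u', hu', by rw [h.add, mul_assoc]⟩
    · have h1 : x r b ∈ Ui hn x i := Subgroup.subset_closure ⟨r, b, ⟨hr, hri⟩, rfl⟩
      have h2 := Ui_pos hn h i (-a) h1
      rw [← h.inv, inv_inv] at h2
      exact ⟨a, _, mul_mem h2 hu', by group⟩
  unfold Up Sg at hu
  induction hu using Subgroup.closure_induction_left with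
  | one => exact ⟨0, 1, one_mem _, by rw [h.zero, mul_one]⟩
  | mul_left g hg y _ ih =>
    obtain ⟨r, b, hr, rfl⟩ := hg
    exact step r b hr y ih
  | inv_mul_cancel g hg y _ ih =>
    obtain ⟨r, b, hr, rfl⟩ := hg
    rw [h.inv]
    exact step r (-b) hr y ih
-- END vb

-- BEGIN vc
private theorem vc_pos (hn : n = 6 ∨ n = 7 ∨ n = 8) {y : Root n → K → G} (h : Stb K n y) (S : Subgroup G) (hS : ∀ i a, y (sr hn i) a ∈ S) (m : ℕ) :
    ∀ r : Root n, ht r.1 = (m : ℤ) + 1 → ∀ a, y r a ∈ S := by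
  induction m with
  | zero =>
    intro r hr a
    obtain ⟨i, rfl⟩ := eq_sr hn (r := r) (by simpa using hr)
    exact hS i a
  | succ m ih =>
    intro r hr a
    have h2 : 2 ≤ ht r.1 := by push_cast at hr; omega
    obtain ⟨i, hi⟩ := exists_sr hn h2
    obtain ⟨s, hs⟩ := root_sub hi
    have hsum : r.1 = (sr hn i).1 + s.1 := by rw [hs]; abel
    have hhs : ht s.1 = (m : ℤ) + 1 := by
      rw [hs, ht_sub, sr_ht hn i, hr]
      push_cast
      ring
    have h3 := h.sum (sr hn i) s r hsum a (((ep K (sr hn i).1 s.1)⁻¹ : Kˣ) : K)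
    have h4 : ((ep K (sr hn i).1 s.1 : Kˣ) : K) * a * (((ep K (sr hn i).1 s.1)⁻¹ : Kˣ) : K) = a := by
      rw [mul_comm ((ep K (sr hn i).1 s.1 : Kˣ) : K) a, mul_assoc, Units.mul_inv, mul_one]
    rw [h4] at h3
    rw [← h3]
    exact S.mul_mem (S.mul_mem (S.mul_mem (hS i _) (ih s hhs _)) (S.inv_mem (hS i _))) (S.inv_mem (ih s hhs _))

/-- MODULE vc. The subgroup generated by the `x (± α_i) a` contains all `x r a`: induction on the height for positive `r` (height `1`: `eq_sr`; otherwise `exists_sr`: `s = r - α_i` is a root of height `ht r - 1 > 0` (`root_sub`), `r = α_i + s`, and `h.sum` with parameters `a`, `ep * b`);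
negative `r`: the same for `op x` (`Stb.op`). -/
theorem gen_simple (hn : n = 6 ∨ n = 7 ∨ n = 8) {x : Root n → K → G} (h : Stb K n x) :
    Subgroup.closure {g : G | ∃ (i : Fin n) (a : K), g = x (sr hn i) a ∨ g = x (-sr hn i) a} = ⊤ := by
  set S : Subgroup G := Subgroup.closure {g : G | ∃ (i : Fin n) (a : K), g = x (sr hn i) a ∨ g = x (-sr hn i) a} with hSdef
  have h1 : ∀ i a, x (sr hn i) a ∈ S := fun i a => Subgroup.subset_closure ⟨i, a, Or.inl rfl⟩
  have h2 : ∀ i a, op x (sr hn i) a ∈ S := fun i a => Subgroup.subset_closure ⟨i, a, Or.inr rfl⟩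
  rw [eq_top_iff, ← h.gen, Subgroup.closure_le]
  rintro g ⟨r, a, rfl⟩
  change x r a ∈ S
  rcases lt_or_gt_of_ne (htne hn r) with hr | hr
  · have h3 : ht (-r).1 = (((-ht r.1 - 1).toNat : ℕ) : ℤ) + 1 := by
      rw [neg_val, ht_neg]
      omega
    have h4 := vc_pos hn (Stb.op h) S h2 _ (-r) h3 a
    change x (-(-r)) a ∈ S at h4
    rwa [neg_neg'] at h4
  · have h3 : ht r.1 = (((ht r.1 - 1).toNat : ℕ) : ℤ) + 1 := by omega
    exact vc_pos hn h S h1 _ r h3 a
-- END vc

-- BEGIN vd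
/-- an element of `Sg x (· ∈ F)` is `x r b * u'` with `u'` in the subgroup of `F.erase r`, `r` of minimal height -/
private theorem vd_split {x : Root n → K → G} (h : Stb K n x) {p q : Root n → Prop} {r : Root n} (hpq : ∀ s, p s → s = r ∨ q s) (hne : ∀ s, q s → s ≠ -r)
    (hq : ∀ s t : Root n, q s → t.1 = r.1 + s.1 → q t) {u : G} (hu : u ∈ Sg x p) : ∃ b, ∃ u' ∈ Sg x q, u = x r b * u' := by
  have key : ∀ (s : Root n) (a : K), p s → ∀ y : G, (∃ b, ∃ u' ∈ Sg x q, y = x r b * u') → ∃ b, ∃ u' ∈ Sg x q, x s a * y = x r b * u' := by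
    rintro s a hs y ⟨b, u', hu', rfl⟩
    rcases hpq s hs with rfl | hqs
    · exact ⟨a + b, u', hu', by rw [h.add, mul_assoc]⟩
    · refine ⟨b, (x r (-b) * x s a * (x r (-b))⁻¹) * u', (Sg x q).mul_mem (Sg.conj h hne hq (-b) (Sg.mem hqs a)) hu', ?_⟩
      have h1 : x r (-b) = (x r b)⁻¹ := (h.inv r b).symm
      rw [h1]
      group
  unfold Sg at hu
  induction hu using Subgroup.closure_induction_left with
  | one => exact ⟨0, 1, (Sg x q).one_mem, by rw [h.zero, mul_one]⟩
  | mul_left g hg y hy ih =>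
    obtain ⟨s, a, hs, rfl⟩ := hg
    exact key s a hs y ih
  | inv_mul_cancel g hg y hy ih =>
    obtain ⟨s, a, hs, rfl⟩ := hg
    rw [h.inv]
    exact key s (-a) hs y ih

private theorem vd_aux {x : Root n → K → G} (h : Stb K n x) (m : ℕ) : ∀ F : Finset (Root n), F.card = m → (∀ r ∈ F, 0 < ht r.1) →
    (∀ r ∈ F, ∀ s ∈ F, ∀ t : Root n, t.1 = r.1 + s.1 → t ∈ F) → ∀ u ∈ Sg x (fun r => r ∈ F),
      ∃ L : List (Root n × K), (L.map Prod.fst).Nodup ∧ (∀ p ∈ L, p.1 ∈ F ∧ p.2 ≠ 0) ∧ u = (L.map fun p => x p.1 p.2).prod := by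
  classical
  induction m with
  | zero =>
    intro F hF _ _ u hu
    rw [Finset.card_eq_zero] at hF
    subst hF
    have h3 : Sg x (fun r => r ∈ (∅ : Finset (Root n))) = ⊥ := by
      unfold Sg
      rw [Subgroup.closure_eq_bot_iff]
      rintro g ⟨r, a, hr, -⟩
      exact absurd hr (Finset.notMem_empty r)
    rw [h3, Subgroup.mem_bot] at hu
    exact ⟨[], List.nodup_nil, fun p hp => absurd hp List.not_mem_nil, by rw [hu, List.map_nil, List.prod_nil]⟩
  | succ m IH =>
    intro F hF h1 h2 u hu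
    have hne : F.Nonempty := by
      rw [← Finset.card_pos, hF]
      exact Nat.succ_pos m
    obtain ⟨r, hr, hmin⟩ := Finset.exists_min_image F (fun r => ht r.1) hne
    have h3 : ∀ s ∈ F.erase r, ∀ t : Root n, t ∈ F → ht r.1 < ht t.1 → t ∈ F.erase r := by
      intro s _ t ht1 ht2
      refine Finset.mem_erase.2 ⟨?_, ht1⟩
      rintro rfl
      exact lt_irrefl _ ht2
    have h4 : ∀ s ∈ F.erase r, ∀ t ∈ F.erase r, ∀ w : Root n, w.1 = s.1 + t.1 → w ∈ F.erase r := by
      intro s hs t ht1 w hw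
      have hs' := (Finset.mem_erase.1 hs).2
      have ht' := (Finset.mem_erase.1 ht1).2
      refine h3 s hs w (h2 s hs' t ht' w hw) ?_
      rw [hw, ht_add]
      have := h1 s hs'
      have := hmin t ht'
      omega
    obtain ⟨b, u', hu', rfl⟩ := vd_split h (p := fun r => r ∈ F) (q := fun s => s ∈ F.erase r) (r := r)
      (fun s hs => by
        by_cases hsr : s = r
        · exact Or.inl hsr
        · exact Or.inr (Finset.mem_erase.2 ⟨hsr, hs⟩))
      (fun s hs hsr => by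
        have h5 := h1 s (Finset.mem_erase.1 hs).2
        have h6 := h1 r hr
        rw [hsr, neg_val, ht_neg] at h5
        omega)
      (fun s t hs ht1 => by
        have hs' := (Finset.mem_erase.1 hs).2
        refine h3 s hs t (h2 r hr s hs' t ht1) ?_
        rw [ht1, ht_add]
        have := h1 s hs'
        omega) hu
    obtain ⟨L, hL1, hL2, rfl⟩ := IH (F.erase r) (by rw [Finset.card_erase_of_mem hr, hF]; rfl)
      (fun s hs => h1 s (Finset.mem_erase.1 hs).2) h4 u' hu'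
    by_cases hb : b = 0
    · refine ⟨L, hL1, fun p hp => ⟨(Finset.mem_erase.1 (hL2 p hp).1).2, (hL2 p hp).2⟩, ?_⟩
      rw [hb, h.zero, one_mul]
    · refine ⟨(r, b) :: L, ?_, ?_, ?_⟩
      · rw [List.map_cons, List.nodup_cons]
        refine ⟨?_, hL1⟩
        intro hm
        obtain ⟨p, hp, hpr⟩ := List.mem_map.1 hm
        exact (Finset.mem_erase.1 (hL2 p hp).1).1 hpr
      · intro p hp
        rcases List.mem_cons.1 hp with rfl | hp
        · exact ⟨hr, hb⟩
        · exact ⟨(Finset.mem_erase.1 (hL2 p hp).1).2, (hL2 p hp).2⟩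
      · rw [List.map_cons, List.prod_cons]

/-- MODULE vd. NORMAL FORM. Induction on the number of elements of `F`.  `F` empty: `Sg` is trivial.  Otherwise let `r ∈ F` have minimal height, `F' = F.erase r`; `F'` has the same property (sums of two elements of `F` have height `> ht r`), and `x r a` normalizes `Sg x (· ∈ F')` (`Sg.conj`).
So every element of `Sg x (· ∈ F)` is `x r b * u'` with `u' ∈ Sg x (· ∈ F')` (stable under left multiplication by the generators); the list is `(r, b) :: L'` or `L'` (`b = 0`). -/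
theorem Sg_list {x : Root n → K → G} (h : Stb K n x) (F : Finset (Root n)) (h1 : ∀ r ∈ F, 0 < ht r.1) (h2 : ∀ r ∈ F, ∀ s ∈ F, ∀ t : Root n, t.1 = r.1 + s.1 → t ∈ F) {u : G}
    (hu : u ∈ Sg x fun r => r ∈ F) : ∃ L : List (Root n × K), (L.map Prod.fst).Nodup ∧ (∀ p ∈ L, p.1 ∈ F ∧ p.2 ≠ 0) ∧ u = (L.map fun p => x p.1 p.2).prod :=
  vd_aux h F.card F rfl h1 h2 u hu

/-- `Sg_list` for the set of all positive roots (`finite_root`) -/
theorem Up_list (hn : n = 6 ∨ n = 7 ∨ n = 8) {x : Root n → K → G} (h : Stb K n x) {u : G} (hu : u ∈ Up x) :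
    ∃ L : List (Root n × K), (L.map Prod.fst).Nodup ∧ (∀ p ∈ L, 0 < ht p.1.1 ∧ p.2 ≠ 0) ∧ u = (L.map fun p => x p.1 p.2).prod := by
  classical
  have hfin : Finite (Root n) := finite_root hn
  have hf : Set.Finite {r : Root n | 0 < ht r.1} := Set.toFinite _
  have hm : ∀ r : Root n, r ∈ hf.toFinset ↔ 0 < ht r.1 := fun r => hf.mem_toFinset
  obtain ⟨L, h3, h4, h5⟩ := Sg_list h hf.toFinset (fun r hr => (hm r).1 hr) (fun r hr s hs t ht1 => by
    rw [hm] at hr hs ⊢
    rw [ht1, ht_add]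
    omega) (Sg.mono x (fun r hr => (hm r).2 hr) hu)
  exact ⟨L, h3, fun p hp => ⟨(hm p.1).1 (h4 p hp).1, (h4 p hp).2⟩, h5⟩
-- END vd

end ThK
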